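import Pool.Agent.Helper408_MT.Rows

/-!
# The chain steps of a variable
-/

set_option autoImplicit false

namespace Pool.Agent.Helper408_MT

/-- shape of chain steps -/
theorem kind3_iff_mt (m : ℕ) (occ : Bool → ℕ → ℕ → Bool) (s : ℕ) : kind m occ s = 3 ↔
    (s / KK m % 5 = 1 ∧ (s / 4 % (m + 2) = 0 ∨ (s / 4 % (m + 2) ≠ 0 ∧ s / 4 % (m + 2) ≠ m + 1 ∧
      s % 4 ≠ 3 ∧ occ true (s / KK m / 5) (s / 4 % (m + 2) - 1) = true))) ∨
    (s / KK m % 5 = 4 ∧ (s / 4 % (m + 2) = m + 1 ∨ (s / 4 % (m + 2) ≠ m + 1 ∧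
      s / 4 % (m + 2) ≠ 0 ∧ s % 4 ≠ 3 ∧
      occ false (s / KK m / 5) (s / 4 % (m + 2) - 1) = true))) := by
  have h5 : s / KK m % 5 < 5 := Nat.mod_lt _ (by norm_num)
  unfold kind
  generalize s / KK m % 5 = r at *
  generalize s / 4 % (m + 2) = b at *
  generalize s % 4 = t at *
  split_ifs <;> simp_all <;> omega

/-- chain steps of variable `i` -/
def pmt (m : ℕ) (occ : Bool → ℕ → ℕ → Bool) (i s : ℕ) : Prop :=
  kind m occ s = 3 ∧ s / KK m / 5 = i

instance pmt_dec (m : ℕ) (occ : Bool → ℕ → ℕ → Bool) (i : ℕ) : DecidablePred (pmt m occ i) :=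
  fun s => by unfold pmt; infer_instance

theorem ev_eq_count (m : ℕ) (occ : Bool → ℕ → ℕ → Bool) (s : ℕ) :
    ev m occ s = Nat.count (pmt m occ (s / KK m / 5)) s := by
  unfold ev Nat.count
  rw [List.countP_eq_length_filter]
  congr 1
  apply List.filter_congr
  intro x _
  rw [← Bool.decide_and]
  rfl

theorem exists_of_lt_count_mt (p : ℕ → Prop) [DecidablePred p] : ∀ T e : ℕ, e < Nat.count p T →
    ∃ x, x < T ∧ p x ∧ Nat.count p x = e := by
  intro T
  induction T with
  | zero => intro e he; simp at he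
  | succ T ih =>
    intro e he
    rw [Nat.count_succ] at he
    by_cases hT : p T
    · rw [if_pos hT] at he
      rcases Nat.lt_or_ge e (Nat.count p T) with h | h
      · obtain ⟨x, hx, hx1, hx2⟩ := ih e h
        exact ⟨x, by omega, hx1, hx2⟩
      · exact ⟨T, by omega, hT, by omega⟩
    · rw [if_neg hT, add_zero] at he
      obtain ⟨x, hx, hx1, hx2⟩ := ih e he
      exact ⟨x, by omega, hx1, hx2⟩

theorem count_const_mt (p : ℕ → Prop) [DecidablePred p] (a b : ℕ) (hab : a ≤ b)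
    (h : ∀ x, a ≤ x → x < b → ¬ p x) : Nat.count p b = Nat.count p a := by
  induction b with
  | zero =>
    have : a = 0 := by omega
    rw [this]
  | succ b ih =>
    rcases Nat.lt_or_ge b a with h1 | h1
    · have : a = b + 1 := by omega
      rw [this]
    · rw [Nat.count_succ, if_neg (h b h1 (by omega)), add_zero]
      exact ih h1 fun x hx hx' => h x hx (by omega)

theorem count_le_add_mt (p : ℕ → Prop) [DecidablePred p] (a k : ℕ) :
    Nat.count p (a + k) ≤ Nat.count p a + k := by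
  rw [Nat.count_add]
  have := Nat.count_le (p := fun k => p (a + k)) (n := k)
  omega

theorem count_add4_mt (p : ℕ → Prop) [DecidablePred p] (a : ℕ) (h : ∀ t, t < 4 → p (a + t)) :
    Nat.count p (a + 4) = Nat.count p a + 4 := by
  have h0 := h 0 (by norm_num)
  rw [Nat.add_zero] at h0
  have h1 := h 1 (by norm_num)
  have h2 := h 2 (by norm_num)
  have h3 := h 3 (by norm_num)
  rw [show a + 4 = a + 3 + 1 from rfl, Nat.count_succ, if_pos h3, show a + 3 = a + 2 + 1 from rfl,
    Nat.count_succ, if_pos h2, show a + 2 = a + 1 + 1 from rfl, Nat.count_succ, if_pos h1,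
    Nat.count_succ, if_pos h0]

theorem div_KK_mt (m s : ℕ) : s / KK m = s / 4 / (m + 2) := by
  unfold KK
  rw [Nat.div_div_eq_div_mul]

theorem KK_pos_mt (m : ℕ) : 0 < KK m := by unfold KK; omega

theorem pmt_round (m : ℕ) (occ : Bool → ℕ → ℕ → Bool) (i s : ℕ) (h : pmt m occ i s) :
    s / KK m = 5 * i + 1 ∨ s / KK m = 5 * i + 4 := by
  obtain ⟨h1, h2⟩ := h
  rw [kind3_iff_mt] at h1
  rcases h1 with h1 | h1
  · left; omega
  · right; omega

theorem chain_enum (m : ℕ) (hm : 0 < m) (occ : Bool → ℕ → ℕ → Bool) (i : ℕ) (hi : i < 3 * m) :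
    ∃ (E c : ℕ) (g : ℕ → ℕ), 4 ≤ c ∧ c + 3 ≤ E ∧ E + 1 ≤ 2 * KK m ∧
      (∀ e ≤ E, g e < SS m ∧ kind m occ (g e) = 3 ∧ g e / KK m / 5 = i ∧ ev m occ (g e) = e) ∧
      (∀ e < E, g e < g (e + 1)) ∧
      (∀ e < c, g e / KK m = 5 * i + 1) ∧
      (∀ e, c ≤ e → e ≤ E → g e / KK m = 5 * i + 4) ∧
      (∀ s < SS m, kind m occ s = 3 → s / KK m / 5 = i → ev m occ s ≤ E ∧ g (ev m occ s) = s) := by
  have hK := KK_pos_mt m
  have hK4 : KK m = 4 * (m + 2) := rfl
  obtain ⟨K, hKdef⟩ : ∃ K, K = KK m := ⟨_, rfl⟩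
  have hmono : Monotone (Nat.count (pmt m occ i)) := Nat.count_monotone _
  -- sizes
  have hSS : (5 * i + 5) * KK m ≤ SS m := by
    unfold SS RR
    exact Nat.mul_le_mul_right _ (by omega)
  have hlt : ∀ s r, s / KK m < r → s < r * KK m := fun s r h => by
    rwa [Nat.div_lt_iff_lt_mul hK] at h
  have hge : ∀ s r, r ≤ s / KK m → r * KK m ≤ s := fun s r h => by
    rwa [Nat.le_div_iff_mul_le hK] at h
  have hlt' : ∀ s r, s < r * KK m → s / KK m < r := fun s r h => by
    rwa [Nat.div_lt_iff_lt_mul hK]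
  have hge' : ∀ s r, r * KK m ≤ s → r ≤ s / KK m := fun s r h => by
    rwa [Nat.le_div_iff_mul_le hK]
  -- the first four steps
  have hf1 : ∀ t, t < 4 → pmt m occ i ((5 * i + 1) * KK m + t) := by
    intro t ht
    have e1 : ((5 * i + 1) * KK m + t) / KK m = 5 * i + 1 := by
      rw [add_comm, Nat.add_mul_div_right _ _ hK, Nat.div_eq_of_lt (by omega)]
      omega
    have e2 : ((5 * i + 1) * KK m + t) / 4 = (5 * i + 1) * (m + 2) := by
      rw [hK4, show (5 * i + 1) * (4 * (m + 2)) + t = t + 4 * ((5 * i + 1) * (m + 2)) by ring]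
      rw [Nat.add_mul_div_left _ _ (by norm_num), Nat.div_eq_of_lt ht, zero_add]
    refine ⟨?_, by rw [e1]; omega⟩
    rw [kind3_iff_mt, e1, e2]
    left
    refine ⟨by omega, Or.inl ?_⟩
    rw [Nat.mul_mod_left]
  have hf2 : ∀ t, t < 4 → pmt m occ i ((5 * i + 4) * KK m + 4 * (m + 1) + t) := by
    intro t ht
    have e1 : ((5 * i + 4) * KK m + 4 * (m + 1) + t) / KK m = 5 * i + 4 := by
      rw [show (5 * i + 4) * KK m + 4 * (m + 1) + t = (4 * (m + 1) + t) + (5 * i + 4) * KK m by ring,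
        Nat.add_mul_div_right _ _ hK, Nat.div_eq_of_lt (by omega)]
      omega
    have e2 : ((5 * i + 4) * KK m + 4 * (m + 1) + t) / 4 = (m + 1) + (m + 2) * (5 * i + 4) := by
      rw [hK4, show (5 * i + 4) * (4 * (m + 2)) + 4 * (m + 1) + t =
        t + 4 * ((m + 1) + (m + 2) * (5 * i + 4)) by ring]
      rw [Nat.add_mul_div_left _ _ (by norm_num), Nat.div_eq_of_lt ht, zero_add]
    refine ⟨?_, by rw [e1]; omega⟩
    rw [kind3_iff_mt, e1, e2]
    right
    refine ⟨by omega, Or.inl ?_⟩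
    rw [Nat.add_mul_mod_self_left, Nat.mod_eq_of_lt (by omega)]
  have hc4 : 4 ≤ Nat.count (pmt m occ i) ((5 * i + 2) * KK m) := by
    have h1 := count_add4_mt (pmt m occ i) _ hf1
    have h2 : (5 * i + 1) * KK m + 4 ≤ (5 * i + 2) * KK m := by
      have : (5 * i + 2) * KK m = (5 * i + 1) * KK m + KK m := by ring
      omega
    have h3 := hmono h2
    omega
  have hc5 : Nat.count (pmt m occ i) ((5 * i + 2) * KK m) + 4 ≤ Nat.count (pmt m occ i) (SS m) := by
    have h1 := count_add4_mt (pmt m occ i) _ hf2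
    have h2 : (5 * i + 4) * KK m + 4 * (m + 1) + 4 ≤ SS m := by
      have : (5 * i + 5) * KK m = (5 * i + 4) * KK m + KK m := by ring
      omega
    have h3 : (5 * i + 2) * KK m ≤ (5 * i + 4) * KK m + 4 * (m + 1) := by
      have : (5 * i + 4) * KK m = (5 * i + 2) * KK m + 2 * KK m := by ring
      omega
    have h4 := hmono h2
    have h5 := hmono h3
    omega
  have hc6 : Nat.count (pmt m occ i) (SS m) ≤ 2 * KK m := by
    have h1 : Nat.count (pmt m occ i) ((5 * i + 1) * KK m) = 0 := by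
      rw [count_const_mt (pmt m occ i) 0 ((5 * i + 1) * KK m) (by omega), Nat.count_zero]
      intro x _ hx hp
      have h2 := pmt_round m occ i x hp
      have h3 := hlt' _ _ hx
      omega
    have h2 : Nat.count (pmt m occ i) ((5 * i + 2) * KK m) ≤ KK m := by
      have h3 := count_le_add_mt (pmt m occ i) ((5 * i + 1) * KK m) (KK m)
      rw [show (5 * i + 1) * KK m + KK m = (5 * i + 2) * KK m by ring] at h3
      omega
    have h3 : Nat.count (pmt m occ i) ((5 * i + 4) * KK m) =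
        Nat.count (pmt m occ i) ((5 * i + 2) * KK m) := by
      apply count_const_mt _ _ _ (Nat.mul_le_mul_right _ (by omega))
      intro x hx1 hx2 hp
      have h4 := pmt_round m occ i x hp
      have h5 := hlt' _ _ hx2
      have h6 := hge' _ _ hx1
      omega
    have h4 : Nat.count (pmt m occ i) ((5 * i + 5) * KK m) ≤ 2 * KK m := by
      have h5 := count_le_add_mt (pmt m occ i) ((5 * i + 4) * KK m) (KK m)
      rw [show (5 * i + 4) * KK m + KK m = (5 * i + 5) * KK m by ring] at h5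
      omega
    have h5 : Nat.count (pmt m occ i) (SS m) = Nat.count (pmt m occ i) ((5 * i + 5) * KK m) := by
      apply count_const_mt _ _ _ hSS
      intro x hx1 hx2 hp
      have h4 := pmt_round m occ i x hp
      have h6 := hge' _ _ hx1
      omega
    omega
  -- the enumeration
  have hex : ∀ e, ∃ x, e < Nat.count (pmt m occ i) (SS m) →
      x < SS m ∧ pmt m occ i x ∧ Nat.count (pmt m occ i) x = e := by
    intro e
    by_cases he : e < Nat.count (pmt m occ i) (SS m)
    · obtain ⟨x, h1, h2, h3⟩ := exists_of_lt_count_mt (pmt m occ i) (SS m) e he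
      exact ⟨x, fun _ => ⟨h1, h2, h3⟩⟩
    · exact ⟨0, fun h => absurd h he⟩
  choose g hg using hex
  have hinj : ∀ x y, pmt m occ i x → pmt m occ i y →
      Nat.count (pmt m occ i) x = Nat.count (pmt m occ i) y → x = y := by
    intro x y hx hy hxy
    rcases Nat.lt_trichotomy x y with h | h | h
    · have := Nat.count_strict_mono hx h
      omega
    · exact h
    · have := Nat.count_strict_mono hy h
      omega
  refine ⟨Nat.count (pmt m occ i) (SS m) - 1, Nat.count (pmt m occ i) ((5 * i + 2) * KK m), g,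
    hc4, by omega, by omega, ?_, ?_, ?_, ?_, ?_⟩
  · intro e he
    obtain ⟨h1, h2, h3⟩ := hg e (by omega)
    refine ⟨h1, h2.1, h2.2, ?_⟩
    rw [ev_eq_count, h2.2, h3]
  · intro e he
    obtain ⟨h1, h2, h3⟩ := hg e (by omega)
    obtain ⟨h4, h5, h6⟩ := hg (e + 1) (by omega)
    by_contra hcon
    have := hmono (not_lt.1 hcon)
    omega
  · intro e he
    obtain ⟨h1, h2, h3⟩ := hg e (by omega)
    have h4 := pmt_round m occ i _ h2
    rcases h4 with h4 | h4
    · exact h4
    · have h5 : (5 * i + 2) * KK m ≤ g e := hge _ _ (by omega)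
      have := hmono h5
      omega
  · intro e he he'
    obtain ⟨h1, h2, h3⟩ := hg e (by omega)
    have h4 := pmt_round m occ i _ h2
    rcases h4 with h4 | h4
    · have h5 : g e < (5 * i + 2) * KK m := hlt _ _ (by omega)
      have := Nat.count_strict_mono h2 h5
      omega
    · exact h4
  · intro s hs hk h5
    have hp : pmt m occ i s := ⟨hk, h5⟩
    have he : ev m occ s = Nat.count (pmt m occ i) s := by rw [ev_eq_count, h5]
    have h6 := Nat.count_strict_mono hp hs
    refine ⟨by omega, ?_⟩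
    obtain ⟨h1, h2, h3⟩ := hg (ev m occ s) (by omega)
    exact hinj _ _ h2 hp (by omega)

theorem next_chain (m : ℕ) (hm : 0 < m) (occ : Bool → ℕ → ℕ → Bool) (s : ℕ) (hs : s < SS m)
    (hk : kind m occ s = 3) (h5 : s / KK m % 5 = 4) (ht : s % 4 = 2)
    (hb : s / 4 % (m + 2) ≠ m + 1) :
    ∃ s', s < s' ∧ s' + 1 < SS m ∧ s' % 4 = 0 ∧ s' / KK m = s / KK m ∧
      (s' + 1) / KK m = s / KK m ∧
      kind m occ s' = 3 ∧ kind m occ (s' + 1) = 3 ∧
      ev m occ s' = ev m occ s + 1 ∧ ev m occ (s' + 1) = ev m occ s + 2 := by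
  have hK := KK_pos_mt m
  have hm2 : 0 < m + 2 := by omega
  -- the last block of the round
  obtain ⟨ρ, hρ⟩ : ∃ ρ, ρ = s / KK m := ⟨_, rfl⟩
  rw [← hρ] at h5
  have hρ' : s / 4 / (m + 2) = ρ := by rw [hρ, div_KK_mt]
  have hsd := Nat.div_add_mod (s / 4) (m + 2)
  have hbl := Nat.mod_lt (s / 4) hm2
  rw [hρ'] at hsd
  have hround : ∀ B, s / 4 ≤ B → B ≤ (m + 2) * ρ + (m + 1) → B / (m + 2) = ρ := by
    intro B h1 h2
    apply Nat.div_eq_of_lt_le
    · rw [mul_comm]; omega
    · rw [Nat.succ_mul, mul_comm]; omega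
  have hlast : kind m occ (4 * ((m + 2) * ρ + (m + 1))) = 3 := by
    rw [kind3_iff_mt]
    right
    have e2 : 4 * ((m + 2) * ρ + (m + 1)) / 4 = (m + 2) * ρ + (m + 1) :=
      Nat.mul_div_cancel_left _ (by norm_num)
    have e1 : 4 * ((m + 2) * ρ + (m + 1)) / KK m = ρ := by
      rw [div_KK_mt, e2]
      exact hround _ (by omega) le_rfl
    rw [e1, e2]
    refine ⟨h5, Or.inl ?_⟩
    rw [add_comm, Nat.add_mul_mod_self_left, Nat.mod_eq_of_lt (by omega)]
  have hex : ∃ B, s / 4 < B ∧ kind m occ (4 * B) = 3 := ⟨_, by omega, hlast⟩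
  obtain ⟨B, hB⟩ : ∃ B, B = Nat.find hex := ⟨_, rfl⟩
  have hB1 : s / 4 < B ∧ kind m occ (4 * B) = 3 := by rw [hB]; exact Nat.find_spec hex
  have hBle : B ≤ (m + 2) * ρ + (m + 1) := by
    rw [hB]
    exact Nat.find_min' hex ⟨by omega, hlast⟩
  have hBmin : ∀ B', s / 4 < B' → B' < B → kind m occ (4 * B') ≠ 3 := by
    intro B' h1 h2 h3
    rw [hB] at h2
    exact Nat.find_min hex h2 ⟨h1, h3⟩
  have hBr : B / (m + 2) = ρ := hround B (by omega) hBle
  have d1 : 4 * B / 4 = B := by omega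
  have d2 : (4 * B + 1) / 4 = B := by omega
  have d3 : 4 * B / KK m = ρ := by rw [div_KK_mt, d1, hBr]
  have d4 : (4 * B + 1) / KK m = ρ := by rw [div_KK_mt, d2, hBr]
  have hkB := hB1.2
  rw [kind3_iff_mt, d3, d1] at hkB
  have hk1 : kind m occ (4 * B + 1) = 3 := by
    rw [kind3_iff_mt, d4, d2]
    rcases hkB with h | h
    · omega
    · right
      refine ⟨h5, ?_⟩
      rcases h.2 with h | h
      · left; exact h
      · right; exact ⟨h.1, h.2.1, by omega, h.2.2.2⟩
  have hSS : (ρ + 1) * KK m ≤ SS m := by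
    unfold SS
    apply Nat.mul_le_mul_right
    have : ρ < RR m := by
      rw [hρ, Nat.div_lt_iff_lt_mul hK]
      exact hs
    omega
  have hlt : 4 * B + 1 < SS m := by
    have : 4 * B + 1 < (ρ + 1) * KK m := by
      rw [← Nat.div_lt_iff_lt_mul hK, d4]
      omega
    omega
  -- no chain steps in between
  have hnone : ∀ x, s + 1 ≤ x → x < 4 * B → ¬ pmt m occ (ρ / 5) x := by
    intro x hx1 hx2 hp
    have hxr := pmt_round m occ (ρ / 5) x hp
    have hx4 : x / 4 ≤ B := by omega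
    have hxs : s / 4 ≤ x / 4 := by omega
    have hxρ : x / KK m = ρ := by
      rw [div_KK_mt]
      exact hround _ hxs (by omega)
    have hkx := hp.1
    rw [kind3_iff_mt, hxρ] at hkx
    rcases Nat.lt_or_ge (s / 4) (x / 4) with h1 | h1
    · have h2 := hBmin (x / 4) h1 (by omega)
      apply h2
      have e1 : 4 * (x / 4) / 4 = x / 4 := by omega
      have e2 : 4 * (x / 4) / KK m = ρ := by rw [div_KK_mt, e1, ← div_KK_mt, hxρ]
      rw [kind3_iff_mt, e2, e1]
      rcases hkx with h | h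
      · omega
      · right
        refine ⟨h5, ?_⟩
        rcases h.2 with h | h
        · left; exact h
        · right; exact ⟨h.1, h.2.1, by omega, h.2.2.2⟩
    · have h2 : x / 4 = s / 4 := by omega
      have h3 : x % 4 = 3 := by omega
      rw [h2, h3] at hkx
      rcases hkx with h | h
      · omega
      · rcases h.2 with h | h
        · exact hb h
        · exact h.2.2.1 rfl
  have hps : pmt m occ (ρ / 5) s := ⟨hk, by rw [← hρ]⟩
  have hpB : pmt m occ (ρ / 5) (4 * B) := ⟨hB1.2, by rw [d3]⟩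
  have c1 : Nat.count (pmt m occ (ρ / 5)) (4 * B) = Nat.count (pmt m occ (ρ / 5)) s + 1 := by
    rw [count_const_mt (pmt m occ (ρ / 5)) (s + 1) (4 * B) (by omega) hnone, Nat.count_succ,
      if_pos hps]
  have c2 : Nat.count (pmt m occ (ρ / 5)) (4 * B + 1) =
      Nat.count (pmt m occ (ρ / 5)) s + 2 := by
    rw [Nat.count_succ, if_pos hpB, c1]
  refine ⟨4 * B, by omega, hlt, by omega, by rw [d3, hρ], by rw [d4, hρ], hB1.2, hk1, ?_, ?_⟩
  · rw [ev_eq_count, ev_eq_count, d3, ← hρ, c1]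
  · rw [ev_eq_count, ev_eq_count, d4, ← hρ, c2]

end Pool.Agent.Helper408_MT
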