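import Pool.Agent.Helper408_MT.Defs

/-!
# Comb regions are connected and solid
-/

set_option autoImplicit false

namespace Pool.Agent.Helper408_MT

/-! ### Connectedness -/

lemma cs_mem {N M : ℕ} {lam rho : ℕ → ℕ} (x y : ℕ) :
    (((x : ℤ), (y : ℤ)) : ℤ × ℤ) ∈ (combF N M lam rho : Set (ℤ × ℤ)) ↔
      y < N ∧ lam y ≤ x ∧ x + rho y ≤ M := by
  rw [Finset.mem_coe, mem_combF]
  constructor
  · rintro ⟨x', y', h1, h2, h3, h4⟩
    simp only [Prod.mk.injEq, Nat.cast_inj] at h4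
    obtain ⟨rfl, rfl⟩ := h4
    exact ⟨h1, h2, h3⟩
  · rintro ⟨h1, h2, h3⟩
    exact ⟨x, y, h1, h2, h3, rfl⟩

lemma cs_row (N M : ℕ) (lam rho : ℕ → ℕ) (x0 : ℕ) (y : ℕ)
    (hx : lam y ≤ x0 ∧ x0 + rho y ≤ M) (hy : y < N)
    (h2 : (((x0 : ℤ), (y : ℤ)) : ℤ × ℤ) ∈ (combF N M lam rho : Set (ℤ × ℤ))) (d : ℕ) : ∀ x : ℕ,
    ∀ (h1 : (((x : ℤ), (y : ℤ)) : ℤ × ℤ) ∈ (combF N M lam rho : Set (ℤ × ℤ))),
      (x = x0 + d ∨ x + d = x0) →
      (gridGraph (combF N M lam rho : Set (ℤ × ℤ))).Reachable ⟨_, h1⟩ ⟨_, h2⟩ := by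
  induction d with
  | zero =>
    intro x h1 h
    have : x = x0 := by omega
    subst this
    exact SimpleGraph.Reachable.refl _
  | succ d ih =>
    intro x h1 h
    have h1' := (cs_mem x y).1 h1
    rcases h with h | h
    · have h3 : ((((x - 1 : ℕ) : ℤ), (y : ℤ)) : ℤ × ℤ) ∈ (combF N M lam rho : Set (ℤ × ℤ)) :=
        (cs_mem (x - 1) y).2 ⟨hy, by omega, by omega⟩
      refine SimpleGraph.Reachable.trans (SimpleGraph.Adj.reachable ?_) (ih (x - 1) h3 (by omega))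
      change ((x : ℤ) - ((x - 1 : ℕ) : ℤ)) ^ 2 + ((y : ℤ) - (y : ℤ)) ^ 2 = 1
      have : ((x - 1 : ℕ) : ℤ) = (x : ℤ) - 1 := by omega
      rw [this]; ring
    · have h3 : ((((x + 1 : ℕ) : ℤ), (y : ℤ)) : ℤ × ℤ) ∈ (combF N M lam rho : Set (ℤ × ℤ)) :=
        (cs_mem (x + 1) y).2 ⟨hy, by omega, by omega⟩
      refine SimpleGraph.Reachable.trans (SimpleGraph.Adj.reachable ?_) (ih (x + 1) h3 (by omega))
      change ((x : ℤ) - ((x + 1 : ℕ) : ℤ)) ^ 2 + ((y : ℤ) - (y : ℤ)) ^ 2 = 1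
      push_cast; ring

lemma cs_col (N M : ℕ) (lam rho : ℕ → ℕ) (x0 : ℕ) (hN : 0 < N)
    (hx : ∀ y < N, lam y ≤ x0 ∧ x0 + rho y ≤ M) (y : ℕ) : ∀ (hy : y < N),
      (gridGraph (combF N M lam rho : Set (ℤ × ℤ))).Reachable
        ⟨_, (cs_mem x0 y).2 ⟨hy, hx y hy⟩⟩ ⟨_, (cs_mem x0 0).2 ⟨hN, hx 0 hN⟩⟩ := by
  induction y with
  | zero => intro hy; exact SimpleGraph.Reachable.refl _
  | succ y ih =>
    intro hy
    refine SimpleGraph.Reachable.trans (SimpleGraph.Adj.reachable ?_) (ih (by omega))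
    change ((x0 : ℤ) - (x0 : ℤ)) ^ 2 + (((y + 1 : ℕ) : ℤ) - (y : ℤ)) ^ 2 = 1
    push_cast; ring

theorem comb_connected (N M : ℕ) (lam rho : ℕ → ℕ) (x0 : ℕ) (hN : 0 < N)
    (hx : ∀ y < N, lam y ≤ x0 ∧ x0 + rho y ≤ M) :
    (gridGraph (combF N M lam rho : Set (ℤ × ℤ))).Connected := by
  have key : ∀ a : (combF N M lam rho : Set (ℤ × ℤ)),
      (gridGraph (combF N M lam rho : Set (ℤ × ℤ))).Reachable a
        ⟨_, (cs_mem x0 0).2 ⟨hN, hx 0 hN⟩⟩ := by
    rintro ⟨a, ha⟩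
    obtain ⟨x, y, h1, h2, h3, rfl⟩ := mem_combF.1 (Finset.mem_coe.1 ha)
    rcases le_total x x0 with h | h
    · exact (cs_row N M lam rho x0 y (hx y h1) h1 ((cs_mem x0 y).2 ⟨h1, hx y h1⟩) (x0 - x) x ha
        (Or.inr (by omega))).trans (cs_col N M lam rho x0 hN hx y h1)
    · exact (cs_row N M lam rho x0 y (hx y h1) h1 ((cs_mem x0 y).2 ⟨h1, hx y h1⟩) (x - x0) x ha
        (Or.inl (by omega))).trans (cs_col N M lam rho x0 hN hx y h1)
  have : Nonempty (combF N M lam rho : Set (ℤ × ℤ)) := ⟨⟨_, (cs_mem x0 0).2 ⟨hN, hx 0 hN⟩⟩⟩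
  exact { preconnected := fun a b => (key a).trans (key b).symm }

/-! ### Solidity -/

/-- the four kinds of edges -/
lemma cs_edge (x y : ℤ) (h : x ^ 2 + y ^ 2 = 1) :
    (x = 0 ∧ y = 1) ∨ (x = 0 ∧ y = -1) ∨ (x = 1 ∧ y = 0) ∨ (x = -1 ∧ y = 0) := by
  have hx1 : x ≤ 1 := by nlinarith [sq_nonneg y, sq_nonneg (x - 1)]
  have hx2 : -1 ≤ x := by nlinarith [sq_nonneg y, sq_nonneg (x + 1)]
  have hy1 : y ≤ 1 := by nlinarith [sq_nonneg x, sq_nonneg (y - 1)]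
  have hy2 : -1 ≤ y := by nlinarith [sq_nonneg x, sq_nonneg (y + 1)]
  have hx3 : x = -1 ∨ x = 0 ∨ x = 1 := by omega
  have hy3 : y = -1 ∨ y = 0 ∨ y = 1 := by omega
  rcases hx3 with rfl | rfl | rfl <;> rcases hy3 with rfl | rfl | rfl <;> simp_all

/-- Every point of the drawing is on a lattice vertex, on a horizontal edge or on a vertical edge. -/
lemma cs_cases {V : Set (ℤ × ℤ)} {p : ℝ × ℝ} (hp : p ∈ drawing V) :
    (∃ i j : ℤ, (i, j) ∈ V ∧ p = ((i : ℝ), (j : ℝ))) ∨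
    (∃ i j : ℤ, (i, j) ∈ V ∧ (i + 1, j) ∈ V ∧ (i : ℝ) ≤ p.1 ∧ p.1 ≤ i + 1 ∧ p.2 = j) ∨
    (∃ i j : ℤ, (i, j) ∈ V ∧ (i, j + 1) ∈ V ∧ (j : ℝ) ≤ p.2 ∧ p.2 ≤ j + 1 ∧ p.1 = i) := by
  rcases hp with ⟨a, ha, rfl⟩ | ⟨⟨⟨a1, a2⟩, ha⟩, ⟨⟨b1, b2⟩, hb⟩, hab, s, t, hs, ht, hst, rfl⟩
  · exact Or.inl ⟨a.1, a.2, ha, rfl⟩
  · right
    change (a1 - b1) ^ 2 + (a2 - b2) ^ 2 = 1 at hab
    have ht' : t = 1 - s := by linarith
    subst ht'
    rcases cs_edge _ _ hab with ⟨h1, h2⟩ | ⟨h1, h2⟩ | ⟨h1, h2⟩ | ⟨h1, h2⟩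
    · right
      obtain rfl : a1 = b1 := by omega
      obtain rfl : a2 = b2 + 1 := by omega
      refine ⟨a1, b2, hb, ha, ?_, ?_, ?_⟩ <;>
      simp only [pt, Prod.smul_mk, Prod.mk_add_mk, smul_eq_mul, Int.cast_add, Int.cast_one] <;> nlinarith
    · right
      obtain rfl : a1 = b1 := by omega
      obtain rfl : b2 = a2 + 1 := by omega
      refine ⟨a1, a2, ha, hb, ?_, ?_, ?_⟩ <;>
      simp only [pt, Prod.smul_mk, Prod.mk_add_mk, smul_eq_mul, Int.cast_add, Int.cast_one] <;> nlinarith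
    · left
      obtain rfl : a2 = b2 := by omega
      obtain rfl : a1 = b1 + 1 := by omega
      refine ⟨b1, a2, hb, ha, ?_, ?_, ?_⟩ <;>
      simp only [pt, Prod.smul_mk, Prod.mk_add_mk, smul_eq_mul, Int.cast_add, Int.cast_one] <;> nlinarith
    · left
      obtain rfl : a2 = b2 := by omega
      obtain rfl : b1 = a1 + 1 := by omega
      refine ⟨a1, a2, ha, hb, ?_, ?_, ?_⟩ <;>
      simp only [pt, Prod.smul_mk, Prod.mk_add_mk, smul_eq_mul, Int.cast_add, Int.cast_one] <;> nlinarith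

lemma cs_vert {V : Set (ℤ × ℤ)} {i j : ℤ} (h1 : (i, j) ∈ V) (h2 : (i, j + 1) ∈ V) {b : ℝ}
    (hb1 : (j : ℝ) ≤ b) (hb2 : b ≤ j + 1) : ((i : ℝ), b) ∈ drawing V := by
  right
  refine ⟨⟨_, h1⟩, ⟨_, h2⟩, ?_, (j + 1 - b), (b - j), by linarith, by linarith, by ring, ?_⟩
  · change (i - i) ^ 2 + (j - (j + 1)) ^ 2 = 1
    ring
  · simp only [pt, Prod.smul_mk, Prod.mk_add_mk, smul_eq_mul, Int.cast_add, Int.cast_one,
      Prod.mk.injEq]
    constructor <;> ring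

lemma cs_horiz {V : Set (ℤ × ℤ)} {i j : ℤ} (h1 : (i, j) ∈ V) (h2 : (i + 1, j) ∈ V) {a : ℝ}
    (ha1 : (i : ℝ) ≤ a) (ha2 : a ≤ i + 1) : (a, (j : ℝ)) ∈ drawing V := by
  right
  refine ⟨⟨_, h1⟩, ⟨_, h2⟩, ?_, (i + 1 - a), (a - i), by linarith, by linarith, by ring, ?_⟩
  · change (i - (i + 1)) ^ 2 + (j - j) ^ 2 = 1
    ring
  · simp only [pt, Prod.smul_mk, Prod.mk_add_mk, smul_eq_mul, Int.cast_add, Int.cast_one,
      Prod.mk.injEq]
    constructor <;> ring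

/-- points of the drawing strictly between two rows -/
lemma cs_between {V : Set (ℤ × ℤ)} {p : ℝ × ℝ} (hp : p ∈ drawing V) {j : ℤ} (h1 : (j : ℝ) < p.2)
    (h2 : p.2 < j + 1) : ∃ i : ℤ, p.1 = i ∧ (i, j) ∈ V ∧ (i, j + 1) ∈ V := by
  rcases cs_cases hp with ⟨i, j', _, h4⟩ | ⟨i, j', _, _, _, _, h7⟩ | ⟨i, j', h3, h4, h5, h6, h7⟩
  · rw [h4] at h1 h2
    simp only at h1 h2
    have e1 : j < j' := by exact_mod_cast h1
    have e2 : j' < j + 1 := by exact_mod_cast h2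
    omega
  · rw [h7] at h1 h2
    have e1 : j < j' := by exact_mod_cast h1
    have e2 : j' < j + 1 := by exact_mod_cast h2
    omega
  · have e1 : j < j' + 1 := by exact_mod_cast h1.trans_le h6
    have e2 : j' < j + 1 := by exact_mod_cast h5.trans_lt h2
    obtain rfl : j = j' := by omega
    exact ⟨i, h7, h3, h4⟩

/-- points of the drawing on a row -/
lemma cs_onrow {V : Set (ℤ × ℤ)} {p : ℝ × ℝ} (hp : p ∈ drawing V) {j : ℤ} (h1 : p.2 = j) :
    ∃ i i' : ℤ, (i, j) ∈ V ∧ (i', j) ∈ V ∧ (i : ℝ) ≤ p.1 ∧ p.1 ≤ i' := by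
  rcases cs_cases hp with ⟨i, j', h3, h4⟩ | ⟨i, j', h3, h4, h5, h6, h7⟩ | ⟨i, j', h3, h4, h5, h6, h7⟩
  · rw [h4] at h1
    simp only [Int.cast_inj] at h1
    subst h1
    refine ⟨i, i, h3, h3, ?_, ?_⟩ <;> rw [h4]
  · rw [h7, Int.cast_inj] at h1
    subst h1
    exact ⟨i, i + 1, h3, h4, h5, by push_cast; exact h6⟩
  · rw [h1] at h5 h6
    have e1 : j' ≤ j := by exact_mod_cast h5
    have e2 : j ≤ j' + 1 := by exact_mod_cast h6
    have e3 : (i, j) ∈ V := by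
      rcases (show j = j' ∨ j = j' + 1 by omega) with rfl | rfl
      · exact h3
      · exact h4
    exact ⟨i, i, e3, e3, h7.ge, h7.le⟩

/-- a face containing a left ray is unbounded -/
lemma cs_left {V : Set (ℤ × ℤ)} {a b : ℝ} (h : ∀ t ≤ a, ((t, b) : ℝ × ℝ) ∉ drawing V) :
    ¬ Bornology.IsBounded (face V (a, b)) := by
  intro hb
  have hpre : IsPreconnected ((fun t : ℝ => ((t, b) : ℝ × ℝ)) '' Set.Iic a) :=
    isPreconnected_Iic.image _ (by fun_prop)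
  have hsub : ((fun t : ℝ => ((t, b) : ℝ × ℝ)) '' Set.Iic a) ⊆ face V (a, b) := by
    apply hpre.subset_connectedComponentIn
    · exact ⟨a, Set.mem_Iic.2 le_rfl, rfl⟩
    · rintro _ ⟨t, ht, rfl⟩
      exact h t ht
  obtain ⟨C, hC⟩ := isBounded_iff_forall_norm_le.1 hb
  have h1 := hC _ (hsub ⟨-|a| - |C| - 1, by
    simp only [Set.mem_Iic]
    have := neg_abs_le a
    have := abs_nonneg C
    linarith, rfl⟩)
  have h2 : |(-|a| - |C| - 1 : ℝ)| ≤ C := (norm_fst_le (((-|a| - |C| - 1 : ℝ), b) : ℝ × ℝ)).trans h1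
  have h3 := (abs_le.1 h2).1
  have h4 := abs_nonneg a
  have h5 := le_abs_self C
  have h6 := abs_nonneg C
  linarith

/-- a face containing a right ray is unbounded -/
lemma cs_right {V : Set (ℤ × ℤ)} {a b : ℝ} (h : ∀ t ≥ a, ((t, b) : ℝ × ℝ) ∉ drawing V) :
    ¬ Bornology.IsBounded (face V (a, b)) := by
  intro hb
  have hpre : IsPreconnected ((fun t : ℝ => ((t, b) : ℝ × ℝ)) '' Set.Ici a) :=
    isPreconnected_Ici.image _ (by fun_prop)
  have hsub : ((fun t : ℝ => ((t, b) : ℝ × ℝ)) '' Set.Ici a) ⊆ face V (a, b) := by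
    apply hpre.subset_connectedComponentIn
    · exact ⟨a, Set.mem_Ici.2 le_rfl, rfl⟩
    · rintro _ ⟨t, ht, rfl⟩
      exact h t ht
  obtain ⟨C, hC⟩ := isBounded_iff_forall_norm_le.1 hb
  have h1 := hC _ (hsub ⟨|a| + |C| + 1, by
    simp only [Set.mem_Ici]
    have := le_abs_self a
    have := abs_nonneg C
    linarith, rfl⟩)
  have h2 : |(|a| + |C| + 1 : ℝ)| ≤ C := (norm_fst_le (((|a| + |C| + 1 : ℝ), b) : ℝ × ℝ)).trans h1
  have h3 := (abs_le.1 h2).2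
  have h4 := abs_nonneg a
  have h5 := le_abs_self C
  linarith

/-- a face containing a point of an empty unit square with drawn boundary -/
lemma cs_square {V : Set (ℤ × ℤ)} {i j : ℤ} (h00 : (i, j) ∈ V) (h10 : (i + 1, j) ∈ V)
    (h01 : (i, j + 1) ∈ V) (h11 : (i + 1, j + 1) ∈ V) {p : ℝ × ℝ}
    (hp : p ∈ Set.Ioo (i : ℝ) (i + 1) ×ˢ Set.Ioo (j : ℝ) (j + 1)) :
    face V p = Set.Ioo (i : ℝ) (i + 1) ×ˢ Set.Ioo (j : ℝ) (j + 1) := by
  have hQ : Set.Ioo (i : ℝ) (i + 1) ×ˢ Set.Ioo (j : ℝ) (j + 1) ⊆ (drawing V)ᶜ := by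
    rintro ⟨a, b⟩ ⟨⟨ha1, ha2⟩, hb1, hb2⟩ hab
    obtain ⟨i', h, _, _⟩ := cs_between hab hb1 hb2
    simp only at h ha1 ha2
    rw [h] at ha1 ha2
    have e1 : i < i' := by exact_mod_cast ha1
    have e2 : i' < i + 1 := by exact_mod_cast ha2
    omega
  apply Set.Subset.antisymm
  · have hpre : IsPreconnected (face V p) := isPreconnected_connectedComponentIn
    refine hpre.subset_left_of_subset_union (isOpen_Ioo.prod isOpen_Ioo)
      (v := (Set.Icc (i : ℝ) (i + 1) ×ˢ Set.Icc (j : ℝ) (j + 1))ᶜ)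
      (isClosed_Icc.prod isClosed_Icc).isOpen_compl ?_ ?_ ?_
    · rw [Set.disjoint_left]
      intro q hq hq'
      exact hq' ⟨Set.Ioo_subset_Icc_self hq.1, Set.Ioo_subset_Icc_self hq.2⟩
    · intro q hq
      have hqd : q ∉ drawing V := connectedComponentIn_subset _ _ hq
      by_cases hcl : q ∈ Set.Icc (i : ℝ) (i + 1) ×ˢ Set.Icc (j : ℝ) (j + 1)
      · left
        obtain ⟨a, b⟩ := q
        obtain ⟨⟨ha1, ha2⟩, hb1, hb2⟩ := hcl
        simp only at ha1 ha2 hb1 hb2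
        refine ⟨⟨lt_of_le_of_ne ha1 ?_, lt_of_le_of_ne ha2 ?_⟩, lt_of_le_of_ne hb1 ?_,
          lt_of_le_of_ne hb2 ?_⟩
        · rintro rfl
          exact hqd (cs_vert h00 h01 hb1 hb2)
        · rintro rfl
          have := cs_vert (V := V) (i := i + 1) (j := j) h10 h11 hb1 hb2
          push_cast at this
          exact hqd this
        · rintro rfl
          exact hqd (cs_horiz h00 h10 ha1 ha2)
        · rintro rfl
          have := cs_horiz (V := V) (i := i) (j := j + 1) h01 h11 ha1 ha2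
          push_cast at this
          exact hqd this
      · exact Or.inr hcl
    · exact ⟨p, mem_connectedComponentIn (hQ hp), hp⟩
  · exact (isPreconnected_Ioo.prod isPreconnected_Ioo).subset_connectedComponentIn hp hQ

/-- membership in the comb region for integer points -/
lemma cs_memZ {N M : ℕ} {lam rho : ℕ → ℕ} (i j : ℤ) :
    (i, j) ∈ (combF N M lam rho : Set (ℤ × ℤ)) ↔
      ∃ y : ℕ, j = y ∧ y < N ∧ (lam y : ℤ) ≤ i ∧ i + rho y ≤ M := by
  rw [Finset.mem_coe, mem_combF]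
  constructor
  · rintro ⟨x, y, h1, h2, h3, h4⟩
    simp only [Prod.mk.injEq] at h4
    obtain ⟨rfl, rfl⟩ := h4
    exact ⟨y, rfl, h1, by exact_mod_cast h2, by exact_mod_cast h3⟩
  · rintro ⟨y, rfl, h1, h2, h3⟩
    refine ⟨i.toNat, y, h1, by omega, by omega, ?_⟩
    rw [Prod.mk.injEq]
    exact ⟨by omega, rfl⟩

theorem comb_solid (N M : ℕ) (lam rho : ℕ → ℕ) (x0 : ℕ)
    (hx : ∀ y < N, lam y ≤ x0 ∧ x0 + rho y ≤ M) :
    Solid (combF N M lam rho : Set (ℤ × ℤ)) := by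
  rintro ⟨a, b⟩ hp hbd
  set V : Set (ℤ × ℤ) := (combF N M lam rho : Set (ℤ × ℤ)) with hV
  set j := ⌊b⌋ with hj
  have hj1 : (j : ℝ) ≤ b := Int.floor_le b
  have hj2 : b < j + 1 := Int.lt_floor_add_one b
  -- it suffices that there is no left ray and no right ray
  by_cases hbj : b = j
  · -- `b` is an integer
    exfalso
    by_cases hrow : ∃ y : ℕ, j = y ∧ y < N
    · obtain ⟨y, hjy, hy⟩ := hrow
      by_cases hal : a < lam y
      · refine cs_left ?_ hbd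
        intro t ht htd
        obtain ⟨i, i', h1, _, h3, _⟩ := cs_onrow htd (j := j) hbj
        obtain ⟨y', h5, _, h7, _⟩ := (cs_memZ i j).1 h1
        obtain rfl : y = y' := by omega
        have h8 : (lam y : ℝ) ≤ i := by exact_mod_cast h7
        simp only at h3
        linarith
      · by_cases har : (M : ℝ) < a + rho y
        · refine cs_right ?_ hbd
          intro t ht htd
          obtain ⟨i, i', _, h2, _, h4⟩ := cs_onrow htd (j := j) hbj
          obtain ⟨y', h5, _, _, h8⟩ := (cs_memZ i' j).1 h2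
          obtain rfl : y = y' := by omega
          have h9 : (i' : ℝ) + rho y ≤ M := by exact_mod_cast h8
          simp only at h4
          linarith
        · -- then `p` is in the drawing
          push Not at hal har
          apply hp
          have hal' : ((lam y : ℤ) : ℝ) ≤ a := by exact_mod_cast hal
          have h1 : (lam y : ℤ) ≤ ⌊a⌋ := Int.le_floor.2 hal'
          have h2 : ⌊a⌋ + (rho y : ℤ) ≤ M := by
            have : (⌊a⌋ : ℝ) ≤ a := Int.floor_le a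
            have h3 : ((⌊a⌋ + (rho y : ℤ) : ℤ) : ℝ) ≤ (M : ℤ) := by push_cast; linarith
            exact_mod_cast h3
          have hm1 : (⌊a⌋, j) ∈ V := (cs_memZ _ _).2 ⟨y, hjy, hy, h1, h2⟩
          by_cases ha : a = ⌊a⌋
          · left
            exact ⟨_, hm1, by rw [pt]; ext <;> assumption⟩
          · have h4 : (⌊a⌋ : ℝ) < a := lt_of_le_of_ne (Int.floor_le a) (Ne.symm ha)
            have h5 : ⌊a⌋ + 1 + (rho y : ℤ) ≤ M := by
              have h6 : ((⌊a⌋ + (rho y : ℤ) : ℤ) : ℝ) < (M : ℤ) := by push_cast; linarith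
              have h7 : ⌊a⌋ + (rho y : ℤ) < M := by exact_mod_cast h6
              omega
            have hm2 : (⌊a⌋ + 1, j) ∈ V := (cs_memZ _ _).2 ⟨y, hjy, hy, by omega, h5⟩
            rw [hbj]
            exact cs_horiz hm1 hm2 (Int.floor_le a) (Int.lt_floor_add_one a).le
    · refine cs_left ?_ hbd
      intro t ht htd
      obtain ⟨i, i', h1, _, _, _⟩ := cs_onrow htd (j := j) hbj
      obtain ⟨y', h5, h6, _, _⟩ := (cs_memZ i j).1 h1
      exact hrow ⟨y', h5, h6⟩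
  · have hj1' : (j : ℝ) < b := lt_of_le_of_ne hj1 (Ne.symm hbj)
    by_cases hrow : ∃ y : ℕ, j = y ∧ y + 1 < N
    · obtain ⟨y, hjy, hy⟩ := hrow
      have hx1 := hx y (by omega)
      have hx2 := hx (y + 1) hy
      -- `(i, j)` and `(i, j+1)` in `V`
      have hmem : ∀ i : ℤ, ((i, j) ∈ V ∧ (i, j + 1) ∈ V) ↔
          ((lam y : ℤ) ≤ i ∧ (lam (y + 1) : ℤ) ≤ i) ∧ (i + rho y ≤ M ∧ i + rho (y + 1) ≤ M) := by
        intro i
        rw [hV, cs_memZ, cs_memZ]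
        constructor
        · rintro ⟨⟨y1, e1, _, e3, e4⟩, ⟨y2, f1, _, f3, f4⟩⟩
          obtain rfl : y = y1 := by omega
          obtain rfl : y + 1 = y2 := by omega
          exact ⟨⟨e3, f3⟩, e4, f4⟩
        · rintro ⟨⟨e3, f3⟩, e4, f4⟩
          exact ⟨⟨y, hjy, by omega, e3, e4⟩, ⟨y + 1, by push_cast; omega, hy, f3, f4⟩⟩
      by_cases hal : a < lam y ∨ a < lam (y + 1)
      · exfalso
        refine cs_left ?_ hbd
        intro t ht htd
        obtain ⟨i, h1, h2, h3⟩ := cs_between htd hj1' hj2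
        obtain ⟨⟨h4, h5⟩, _⟩ := (hmem i).1 ⟨h2, h3⟩
        simp only at h1
        have h6 : (lam y : ℝ) ≤ i := by exact_mod_cast h4
        have h7 : (lam (y + 1) : ℝ) ≤ i := by exact_mod_cast h5
        rcases hal with hal | hal <;> linarith
      · by_cases har : (M : ℝ) < a + rho y ∨ (M : ℝ) < a + rho (y + 1)
        · exfalso
          refine cs_right ?_ hbd
          intro t ht htd
          obtain ⟨i, h1, h2, h3⟩ := cs_between htd hj1' hj2
          obtain ⟨_, ⟨h4, h5⟩⟩ := (hmem i).1 ⟨h2, h3⟩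
          simp only at h1
          have h6 : (i : ℝ) + rho y ≤ M := by exact_mod_cast h4
          have h7 : (i : ℝ) + rho (y + 1) ≤ M := by exact_mod_cast h5
          rcases har with har | har <;> linarith
        · push Not at hal har
          obtain ⟨hal1, hal2⟩ := hal
          obtain ⟨har1, har2⟩ := har
          have g1 : (lam y : ℤ) ≤ ⌊a⌋ := Int.le_floor.2 (by exact_mod_cast hal1)
          have g2 : (lam (y + 1) : ℤ) ≤ ⌊a⌋ := Int.le_floor.2 (by exact_mod_cast hal2)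
          have hfl : (⌊a⌋ : ℝ) ≤ a := Int.floor_le a
          have g3 : ⌊a⌋ + (rho y : ℤ) ≤ M := by
            have h3 : ((⌊a⌋ + (rho y : ℤ) : ℤ) : ℝ) ≤ (M : ℤ) := by push_cast; linarith
            exact_mod_cast h3
          have g4 : ⌊a⌋ + (rho (y + 1) : ℤ) ≤ M := by
            have h3 : ((⌊a⌋ + (rho (y + 1) : ℤ) : ℤ) : ℝ) ≤ (M : ℤ) := by push_cast; linarith
            exact_mod_cast h3
          obtain ⟨m00, m01⟩ := (hmem ⌊a⌋).2 ⟨⟨g1, g2⟩, g3, g4⟩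
          have hane : a ≠ ⌊a⌋ := by
            intro ha
            apply hp
            rw [ha]
            exact cs_vert m00 m01 hj1 hj2.le
          have hfl' : (⌊a⌋ : ℝ) < a := lt_of_le_of_ne hfl (Ne.symm hane)
          have g5 : ⌊a⌋ + 1 + (rho y : ℤ) ≤ M := by
            have h3 : ((⌊a⌋ + (rho y : ℤ) : ℤ) : ℝ) < (M : ℤ) := by push_cast; linarith
            have h4 : ⌊a⌋ + (rho y : ℤ) < M := by exact_mod_cast h3
            omega
          have g6 : ⌊a⌋ + 1 + (rho (y + 1) : ℤ) ≤ M := by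
            have h3 : ((⌊a⌋ + (rho (y + 1) : ℤ) : ℤ) : ℝ) < (M : ℤ) := by push_cast; linarith
            have h4 : ⌊a⌋ + (rho (y + 1) : ℤ) < M := by exact_mod_cast h3
            omega
          obtain ⟨m10, m11⟩ := (hmem (⌊a⌋ + 1)).2 ⟨⟨by omega, by omega⟩, g5, g6⟩
          exact ⟨⌊a⌋, j, cs_square m00 m10 m01 m11
            ⟨⟨hfl', Int.lt_floor_add_one a⟩, hj1', hj2⟩⟩
    · exfalso
      refine cs_left ?_ hbd
      intro t ht htd
      obtain ⟨i, _, h2, h3⟩ := cs_between htd hj1' hj2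
      obtain ⟨y1, e1, _, _, _⟩ := (cs_memZ i j).1 h2
      obtain ⟨y2, f1, f2, _, _⟩ := (cs_memZ i (j + 1)).1 h3
      exact hrow ⟨y1, e1, by omega⟩

end Pool.Agent.Helper408_MT
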