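import Pool.Agent.Helper408_MT.Prob
import Pool.Agent.NPC.Dec
import Pool.Agent.NPC.Sat2

/-!
# Comb regions, configurations and the reduction: definitions
-/

set_option autoImplicit false

namespace Pool.Agent.Helper408_MT

open Pool.Agent.NPC

/-! ### Comb regions -/

/-- The comb region: rows `y = 0, …, N - 1`, where row `y` consists of the points `(x, y)` with
`lam y ≤ x` and `x + rho y ≤ M`. -/
def combF (N M : ℕ) (lam rho : ℕ → ℕ) : Finset (ℤ × ℤ) :=
  ((Finset.range N ×ˢ Finset.range (M + 1)).filter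
    (fun p => lam p.1 ≤ p.2 ∧ p.2 + rho p.1 ≤ M)).image (fun p => ((p.2 : ℤ), (p.1 : ℤ)))

theorem mem_combF {N M : ℕ} {lam rho : ℕ → ℕ} {a : ℤ × ℤ} :
    a ∈ combF N M lam rho ↔
      ∃ x y : ℕ, y < N ∧ lam y ≤ x ∧ x + rho y ≤ M ∧ a = ((x : ℤ), (y : ℤ)) := by
  unfold combF
  simp only [Finset.mem_image, Finset.mem_filter, Finset.mem_product, Finset.mem_range,
    Prod.exists]
  constructor
  · rintro ⟨y, x, ⟨⟨h1, _⟩, h3, h4⟩, rfl⟩
    exact ⟨x, y, h1, h3, h4, rfl⟩
  · rintro ⟨x, y, h1, h3, h4, rfl⟩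
    exact ⟨y, x, ⟨⟨h1, by omega⟩, h3, h4⟩, rfl⟩

/-- What a tour of turn cost at most `2 * N` of a comb region with `N` long rows gives: row `y`
has its left turning point in column `l y` and its right turning point in column `M - r y`. -/
structure Config (N : ℕ) (lam rho l r : ℕ → ℕ) : Prop where
  lam_le : ∀ y < N, lam y ≤ l y
  rho_le : ∀ y < N, rho y ≤ r y
  covL : ∀ y < N, ∀ d, lam y ≤ d → d < l y →
    ∃ y1 y2, y1 < y ∧ y < y2 ∧ y2 < N ∧ l y1 = d ∧ l y2 = d
  covR : ∀ y < N, ∀ d, rho y ≤ d → d < r y →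
    ∃ y1 y2, y1 < y ∧ y < y2 ∧ y2 < N ∧ r y1 = d ∧ r y2 = d
  evenL : ∀ d, Even ((Finset.range N).filter (fun y => l y = d)).card
  evenR : ∀ d, Even ((Finset.range N).filter (fun y => r y = d)).card
  conn : ∀ X : Set ℕ, (∀ y < N, ∀ y' < N, (l y = l y' ∨ r y = r y') → y ∈ X → y' ∈ X) →
    (∃ y < N, y ∈ X) → ∀ y < N, y ∈ X

/-- What is needed to construct a tour of turn cost `2 * N` of a comb region with `N` rows. -/
structure SConfig (N : ℕ) (lam rho l r : ℕ → ℕ) : Prop where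
  lam_le : ∀ y < N, lam y ≤ l y
  rho_le : ∀ y < N, rho y ≤ r y
  covL : ∀ y < N, ∀ d, lam y ≤ d → d < l y →
    ∃ y1 y2, y1 < y ∧ y < y2 ∧ y2 < N ∧ l y1 = d ∧ l y2 = d ∧
      ∀ y' < N, l y' = d → y' = y1 ∨ y' = y2
  covR : ∀ y < N, ∀ d, rho y ≤ d → d < r y →
    ∃ y1 y2, y1 < y ∧ y < y2 ∧ y2 < N ∧ r y1 = d ∧ r y2 = d ∧
      ∀ y' < N, r y' = d → y' = y1 ∨ y' = y2
  runL : ∀ y1 y2, y2 < N → l y1 = l y2 → ∀ y, y1 ≤ y → y ≤ y2 → lam y ≤ l y1
  runR : ∀ y1 y2, y2 < N → r y1 = r y2 → ∀ y, y1 ≤ y → y ≤ y2 → rho y ≤ r y1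
  evenL : ∀ d, Even ((Finset.range N).filter (fun y => l y = d)).card
  evenR : ∀ d, Even ((Finset.range N).filter (fun y => r y = d)).card
  conn : ∀ X : Set ℕ, (∀ y < N, ∀ y' < N, (l y = l y' ∨ r y = r y') → y ∈ X → y' ∈ X) →
    (∃ y < N, y ∈ X) → ∀ y < N, y ∈ X

/-! ### The reduction

There are `m` clauses with numbers `j < m` and `3 * m` variables with numbers `i < 3 * m`;
`occ b i j` says that the literal `(b, i)` occurs in clause `j`.  The rows come in three groups: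
`KK` initial rows, two rows `KK + 2 * s`, `KK + 2 * s + 1` for each step `s < SS`, and `KK` final
rows.  The steps are divided into `RR` rounds of `KK` steps, and each round into `m + 2` blocks of
four steps.  Block `j + 1` belongs to clause `j`. -/

/-- Number of positions in a round. -/
def KK (m : ℕ) : ℕ := 4 * (m + 2)

/-- Number of rounds: five for each of the `3 * m` variables, and one more. -/
def RR (m : ℕ) : ℕ := 15 * m + 1

/-- Number of steps. -/
def SS (m : ℕ) : ℕ := RR m * KK m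

/-- Number of rows. -/
def NN (m : ℕ) : ℕ := 2 * SS m + 2 * KK m

/-- Number of the last column. -/
def MM (m : ℕ) : ℕ := NN m * (RR m + 3 * m + 5)

/-- The kind of step `s`: `0` plain, `1` rainbow, `2` hub, `3` chain. -/
def kind (m : ℕ) (occ : Bool → ℕ → ℕ → Bool) (s : ℕ) : ℕ :=
  if s / KK m % 5 = 0 ∨ s / KK m % 5 = 3 then
    if s / 4 % (m + 2) = 0 ∨ s / 4 % (m + 2) = m + 1 ∨ s % 4 < 2 then 2 else 0
  else if s / KK m % 5 = 1 then
    if s / 4 % (m + 2) = 0 then 3
    else if s / 4 % (m + 2) = m + 1 ∨ s % 4 = 3 then 0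
    else if occ true (s / KK m / 5) (s / 4 % (m + 2) - 1) = true then 3 else 1
  else if s / KK m % 5 = 2 then
    if s / 4 % (m + 2) = 0 ∨ s / 4 % (m + 2) = m + 1 ∨ s % 4 = 3 then 0 else 1
  else
    if s / 4 % (m + 2) = m + 1 then 3
    else if s / 4 % (m + 2) = 0 ∨ s % 4 = 3 then 0
    else if occ false (s / KK m / 5) (s / 4 % (m + 2) - 1) = true then 3 else 0

/-- The number of chain steps of the same variable before step `s`. -/
def ev (m : ℕ) (occ : Bool → ℕ → ℕ → Bool) (s : ℕ) : ℕ :=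
  ((List.range s).filter
    (fun s' => decide (kind m occ s' = 3) && decide (s' / KK m / 5 = s / KK m / 5))).length

/-- The first column of row `y` of step `s`. -/
def lamStep (m : ℕ) (occ : Bool → ℕ → ℕ → Bool) (s y : ℕ) : ℕ :=
  if kind m occ s = 0 then y / 2 * 2 + 1
  else if kind m occ s = 1 then max y (2 * (KK m + 8 * (s / 4)) + 5 - y)
  else if kind m occ s = 2 then NN m * (s / KK m + 1)
  else NN m * (RR m + 1 + s / KK m / 5) + (ev m occ s - 1)

/-- The first column of row `y`. -/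
def lam (m : ℕ) (occ : Bool → ℕ → ℕ → Bool) (y : ℕ) : ℕ :=
  if y < KK m ∨ KK m + 2 * SS m ≤ y then y / 2 * 2 + 1 else lamStep m occ ((y - KK m) / 2) y

/-- The last column of row `y` is `MM m - rho m y`. -/
def rho (m : ℕ) (y : ℕ) : ℕ :=
  if y < KK m then 0 else if y < KK m + 2 * SS m then (y - KK m) / 2 else y - KK m - SS m

/-- The literal `(b, i)` occurs in clause number `j` of `φ`. -/
def occOf (φ : List (Lit ℕ × Lit ℕ × Lit ℕ)) (b : Bool) (i j : ℕ) : Bool :=
  match φ[j]? with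
  | none => false
  | some c => decide (c.1 = (b, i)) || (decide (c.2.1 = (b, i)) || decide (c.2.2 = (b, i)))

/-- The instance of the tour problem constructed from a formula. -/
def inst (φ : List (Lit ℕ × Lit ℕ × Lit ℕ)) : List (ℤ × ℤ) × ℕ :=
  ((List.range (NN φ.length)).flatMap (fun y : ℕ =>
    ((List.range (MM φ.length + 1)).filter (fun x : ℕ =>
      decide (lam φ.length (occOf φ) y ≤ x) && decide (x + rho φ.length y ≤ MM φ.length))).map
        (fun x : ℕ => ((x : ℤ), (y : ℤ)))), 2 * NN φ.length)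

theorem verts_inst (φ : List (Lit ℕ × Lit ℕ × Lit ℕ)) :
    verts (inst φ) = (combF (NN φ.length) (MM φ.length) (lam φ.length (occOf φ))
      (rho φ.length) : Set (ℤ × ℤ)) := by
  ext a
  simp only [verts, inst, Set.mem_setOf_eq, List.mem_flatMap, List.mem_range, List.mem_map,
    List.mem_filter, Finset.mem_coe, mem_combF, Bool.and_eq_true, decide_eq_true_eq]
  constructor
  · rintro ⟨y, hy, x, ⟨_, h1, h2⟩, rfl⟩
    exact ⟨x, y, hy, h1, h2, rfl⟩
  · rintro ⟨x, y, hy, h1, h2, rfl⟩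
    exact ⟨y, hy, x, ⟨by omega, h1, h2⟩, rfl⟩

end Pool.Agent.Helper408_MT
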