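import Pool.Agent.Helper408_MT.Polyline
import Pool.Agent.R553.SP.Euler

/-!
# Tours from strong configurations
-/

set_option autoImplicit false

namespace Pool.Agent.Helper408_MT

open Pool.Agent.R553.SP in
lemma cyc_aux {α : Type*} (R : α → α → Prop) (L : List α) (hne : L ≠ [])
    (h : CC R L) (i : ℕ) (h1 : i % L.length < L.length) (h2 : (i + 1) % L.length < L.length) :
    R (L[i % L.length]) (L[(i + 1) % L.length]) := by
  obtain ⟨hc, hl⟩ := h
  by_cases hk : i % L.length + 1 < L.length
  · have e : (i + 1) % L.length = i % L.length + 1 := by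
      rw [Nat.add_mod]
      by_cases hL : L.length = 1
      · omega
      · rw [Nat.mod_eq_of_lt (a := 1) (by omega)]
        exact Nat.mod_eq_of_lt hk
    have := List.isChain_iff_getElem.mp hc (i % L.length) hk
    simp only [e]
    exact this
  · have e0 : i % L.length = L.length - 1 := by omega
    have e : (i + 1) % L.length = 0 := by
      rw [← Nat.mod_add_mod]
      rw [show i % L.length + 1 = L.length by omega]
      exact Nat.mod_self _
    have hlast : L.getLast? = some (L[L.length - 1]'(by omega)) := by
      rw [List.getLast?_eq_getLast_of_ne_nil hne, List.getLast_eq_getElem]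
    have hhead : L.head? = some (L[0]'(by omega)) := by
      rw [List.head?_eq_some_head hne, List.head_eq_getElem]
    have := hl _ (by rw [hlast]; rfl) _ (by rw [hhead]; rfl)
    simp only [e, e0]
    exact this

open Pool.Agent.R553.SP in
/-- The closed Euler trail as a periodic sequence of darts. -/
lemma trail_seq (N : ℕ) (hN : 0 < N) (lam rho l r : ℕ → ℕ) (hS : SConfig N lam rho l r) :
    ∃ D : ℕ → Fin N × Bool, (∀ i, D (i % N) = D i) ∧
      (∀ i, (D i).2 = true → (D (i + 1)).2 = false ∧ r (D i).1 = r (D (i + 1)).1) ∧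
      (∀ i, (D i).2 = false → (D (i + 1)).2 = true ∧ l (D i).1 = l (D (i + 1)).1) ∧
      (∀ i, (D i).1 ≠ (D (i + 1)).1) ∧
      (∀ y : Fin N, ∃ i, i < N ∧ (D i).1 = y) := by
  classical
  have hne' : Nonempty (Fin N) := ⟨⟨0, hN⟩⟩
  have hcard : ∀ (f : ℕ → ℕ) (d : ℕ),
      (Finset.univ.filter fun y : Fin N => f y = d).card =
        ((Finset.range N).filter fun y => f y = d).card := by
    intro f d
    rw [Finset.card_filter, Finset.card_filter]
    exact Fin.sum_univ_eq_sum_range (fun y => if f y = d then 1 else 0) N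
  set a : Fin N → Bool × ℕ := fun y => (false, l y) with ha
  set b : Fin N → Bool × ℕ := fun y => (true, r y) with hb
  have hev : ∀ q, Even ((Finset.univ.filter fun e => a e = q).card +
      (Finset.univ.filter fun e => b e = q).card) := by
    rintro ⟨s, d⟩
    cases s
    · have h1 : (Finset.univ.filter fun e => b e = (false, d)).card = 0 := by
        rw [Finset.card_eq_zero, Finset.filter_eq_empty_iff]
        intro e _ he
        simp [hb] at he
      have h2 : (Finset.univ.filter fun e => a e = (false, d)) =
          (Finset.univ.filter fun y : Fin N => l y = d) := by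
        apply Finset.filter_congr
        intro e _
        simp [ha]
      rw [h1, h2, hcard, add_zero]
      exact hS.evenL d
    · have h1 : (Finset.univ.filter fun e => a e = (true, d)).card = 0 := by
        rw [Finset.card_eq_zero, Finset.filter_eq_empty_iff]
        intro e _ he
        simp [ha] at he
      have h2 : (Finset.univ.filter fun e => b e = (true, d)) =
          (Finset.univ.filter fun y : Fin N => r y = d) := by
        apply Finset.filter_congr
        intro e _
        simp [hb]
      rw [h1, h2, hcard, zero_add]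
      exact hS.evenR d
  have hconn : ∀ S : Set (Fin N), S.Nonempty → Sᶜ.Nonempty → ∃ e ∈ S, ∃ f ∉ S, Share a b e f := by
    intro S ⟨e0, he0⟩ ⟨f0, hf0⟩
    by_contra hcon
    push Not at hcon
    have h := hS.conn {y | ∃ h : y < N, (⟨y, h⟩ : Fin N) ∈ S} (by
      rintro y hy y' hy' hs ⟨_, h⟩
      refine ⟨hy', ?_⟩
      by_contra hn
      apply hcon _ h _ hn
      unfold Share
      rcases hs with hs | hs
      · left; simp [ha, hs]
      · right; right; right; simp [hb, hs]) ⟨e0, e0.2, e0.2, he0⟩ f0 f0.2
    obtain ⟨_, h⟩ := h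
    exact hf0 h
  obtain ⟨L, hne, hnd, hall, hcc⟩ := euler a b hev hconn
  have hlen : L.length = N := by
    have h1 : (L.map Prod.fst).toFinset = Finset.univ := by
      ext y
      simp only [List.mem_toFinset, Finset.mem_univ, iff_true]
      exact hall y
    have h2 := List.toFinset_card_of_nodup hnd
    rw [h1, Finset.card_univ, Fintype.card_fin, List.length_map] at h2
    exact h2.symm
  have hN2 : 2 ≤ N := by
    by_contra hN2
    have hN1 : N = 1 := by omega
    have := hS.evenL (l 0)
    rw [hN1] at this
    simp [Finset.filter_singleton] at this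
  have hlt : ∀ i, i % N < L.length := by
    intro i
    rw [hlen]
    exact Nat.mod_lt _ hN
  have hstep : ∀ i, hd a b (L[i % N]'(hlt i)) = tl a b (L[(i + 1) % N]'(hlt (i + 1))) := by
    intro i
    have h1 : i % L.length < L.length := by rw [hlen]; exact Nat.mod_lt _ hN
    have h2 : (i + 1) % L.length < L.length := by rw [hlen]; exact Nat.mod_lt _ hN
    have := cyc_aux _ L hne hcc i h1 h2
    simpa only [hlen] using this
  refine ⟨fun i => L[i % N]'(hlt i), ?_, ?_, ?_, ?_, ?_⟩
  · intro i
    simp only [Nat.mod_mod]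
  · intro i hi
    have := hstep i
    unfold hd tl at this
    simp only at hi ⊢
    rw [hi] at this
    cases h2 : (L[(i + 1) % N]'(hlt (i + 1))).2
    · rw [h2] at this
      simp [hb] at this
      exact ⟨rfl, this⟩
    · rw [h2] at this
      simp [ha, hb] at this
  · intro i hi
    have := hstep i
    unfold hd tl at this
    simp only at hi ⊢
    rw [hi] at this
    cases h2 : (L[(i + 1) % N]'(hlt (i + 1))).2
    · rw [h2] at this
      simp [ha, hb] at this
    · rw [h2] at this
      simp [ha] at this
      exact ⟨rfl, this⟩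
  · intro i hi
    simp only at hi
    have h1 : (L.map Prod.fst)[i % N]'(by rw [List.length_map]; exact hlt i) =
        (L.map Prod.fst)[(i + 1) % N]'(by rw [List.length_map]; exact hlt (i + 1)) := by
      simp only [List.getElem_map]
      exact hi
    have h2 := (List.Nodup.getElem_inj_iff hnd).mp h1
    have h3 : i % N < N := Nat.mod_lt _ hN
    rw [← Nat.mod_add_mod] at h2
    by_cases h4 : i % N + 1 < N
    · rw [Nat.mod_eq_of_lt h4] at h2
      omega
    · have h5 : i % N + 1 = N := by omega
      rw [h5, Nat.mod_self] at h2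
      omega
  · intro y
    obtain ⟨x, hx, hxy⟩ := List.mem_map.1 (hall y)
    obtain ⟨k, hk, hkx⟩ := List.getElem_of_mem hx
    refine ⟨k, by rw [← hlen]; exact hk, ?_⟩
    have h1 : k % N = k := Nat.mod_eq_of_lt (by rw [← hlen]; exact hk)
    simp only [h1, hkx]
    exact hxy

/- TARGET.  From a strong configuration to a tour of turn cost `2 * N` of the comb region.
Paper proof. Multigraph: vertices `Bool × ℕ`: `(false, d)` = left class `{y | l y = d}`, `(true, c)` = right class
`{y | r y = c}`; edges `Fin N`: row `y` joins `(false, l y)` and `(true, r y)`. Degrees are even by `evenL`, `evenR`, and `conn`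
gives connectivity (a set `S` of rows, nonempty with nonempty complement, is not closed under sharing a class). The theorem
`euler` of `Pool.Agent.R553.SP.Euler` (read its statement and its `CC`, `hd`, `tl`) gives a closed Euler trail: a cyclic
list of all rows, each exactly once, with directions, where the head class of each is the tail class of the next. So
directions alternate... in fact: if row `y` is traversed left to right its head is `(true, r y)`, so the next row `y'` is
traversed right to left and `r y' = r y`. Corners: `p (2 i)` = tail corner of the `i`-th row of the trail, `p (2 i + 1)` = its head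
corner, where the left corner of row `y` is `(l y, y)` and the right corner is `(M - r y, y)`; `n = N`. Consecutive rows of the
cyclic trail are different (if `N = 1` the class of its only row would be odd). Horizontal segments lie in the
region because `lam y ≤ l y`, `rho y ≤ r y`, and have positive length by `hlr`. Vertical segments, between rows `y1`, `y2` with
`l y1 = l y2` (or the same for `r`), lie in the region by `runL`/`runR` together with `hlr` (`l y + r y' < M` and
`rho y' ≤ r y'`). Coverage: a cell `(x, y)` with `l y ≤ x ≤ M - r y` is on the horizontal segment of row `y`. If `x < l y`: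
`covL` with `d = x` gives a class `{y1, y2}` with exactly two rows, `y1 < y < y2`; in the trail the row `y1` is traversed with
`(false, d)` as head or tail; the row next to it there in the trail is in the same class and different from `y1`, so it is
`y2`: the vertical segment from `y1` to `y2` (or back) in column `d` is part of the polyline and contains `(x, y)`. Same on the
right. -/
theorem tour_of_sconfig (N M : ℕ) (lam rho l r : ℕ → ℕ) (hN : 0 < N)
    (hS : SConfig N lam rho l r) (hlr : ∀ y < N, ∀ y' < N, l y + r y' < M) :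
    HasTour (combF N M lam rho : Set (ℤ × ℤ)) (2 * N) := by
  obtain ⟨D, hper, hT, hF, hne, hsurj⟩ := trail_seq N hN lam rho l r hS
  -- the corners
  set cx : Fin N → Bool → ℤ := fun y s => if s then (M : ℤ) - r y else l y with hcx
  have cxt : ∀ y, cx y true = (M : ℤ) - r y := fun y => by simp [hcx]
  have cxf : ∀ y, cx y false = (l y : ℤ) := fun y => by simp [hcx]
  set T : ℕ → ℤ × ℤ := fun i => (cx (D i).1 (!(D i).2), ((D i).1 : ℤ)) with hTd
  set H : ℕ → ℤ × ℤ := fun i => (cx (D i).1 (D i).2, ((D i).1 : ℤ)) with hHd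
  set p : ℕ → ℤ × ℤ := fun j => if j % 2 = 0 then T (j / 2) else H (j / 2) with hp
  have hp0 : ∀ i, p (2 * i) = T i := by
    intro i
    simp only [hp]
    rw [if_pos (by omega), show 2 * i / 2 = i by omega]
  have hp1 : ∀ i, p (2 * i + 1) = H i := by
    intro i
    simp only [hp]
    rw [if_neg (by omega), show (2 * i + 1) / 2 = i by omega]
  have hp2 : ∀ i, p (2 * i + 2) = T (i + 1) := by
    intro i
    simp only [hp]
    rw [if_pos (by omega), show (2 * i + 2) / 2 = i + 1 by omega]
  -- region memberships
  have hrow : ∀ (y : Fin N) (x : ℤ), (l y : ℤ) ≤ x → x ≤ (M : ℤ) - r y →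
      (x, (y : ℤ)) ∈ (combF N M lam rho : Set (ℤ × ℤ)) := by
    intro y x h1 h2
    rw [Finset.mem_coe, mem_combF]
    have h3 := hS.lam_le y y.2
    have h4 := hS.rho_le y y.2
    refine ⟨x.toNat, y, y.2, by omega, by omega, ?_⟩
    rw [Int.toNat_of_nonneg (by omega)]
  have hcolL : ∀ (y1 y2 y : ℕ), y2 < N → l y1 = l y2 → y1 ≤ y → y ≤ y2 →
      ((l y1 : ℤ), (y : ℤ)) ∈ (combF N M lam rho : Set (ℤ × ℤ)) := by
    intro y1 y2 y h1 h2 h3 h4
    rw [Finset.mem_coe, mem_combF]
    have h5 := hS.runL y1 y2 h1 h2 y h3 h4
    have h6 := hS.rho_le y (by omega)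
    have h7 := hlr y1 (by omega) y (by omega)
    exact ⟨l y1, y, by omega, h5, by omega, rfl⟩
  have hcolR : ∀ (y1 y2 y : ℕ), y2 < N → r y1 = r y2 → y1 ≤ y → y ≤ y2 →
      ((M : ℤ) - (r y1 : ℤ), (y : ℤ)) ∈ (combF N M lam rho : Set (ℤ × ℤ)) := by
    intro y1 y2 y h1 h2 h3 h4
    rw [Finset.mem_coe, mem_combF]
    have h5 := hS.runR y1 y2 h1 h2 y h3 h4
    have h6 := hS.lam_le y (by omega)
    have h7 := hlr y (by omega) y1 (by omega)
    refine ⟨M - r y1, y, by omega, by omega, by omega, ?_⟩
    rw [Nat.cast_sub (by omega)]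
  have hlr' : ∀ y : Fin N, (l y : ℤ) < (M : ℤ) - r y := by
    intro y
    have := hlr y y.2 y y.2
    omega
  have hprev : ∀ i0, D ((i0 + N - 1) % N + 1) = D i0 := by
    intro i0
    rw [← hper ((i0 + N - 1) % N + 1), Nat.mod_add_mod, show i0 + N - 1 + 1 = i0 + N by omega,
      Nat.add_mod_right, hper]
  have claimL : ∀ (y1 y2 : ℕ), y1 < N → y2 < N → l y1 = l y2 →
      (∀ y' < N, l y' = l y1 → y' = y1 ∨ y' = y2) →
      ∃ i, i < N ∧ (D i).2 = false ∧ (((D i).1.1 = y1 ∧ (D (i + 1)).1.1 = y2) ∨
        ((D i).1.1 = y2 ∧ (D (i + 1)).1.1 = y1)) := by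
    intro y1 y2 h1 h2 h12 huniq
    obtain ⟨i0, hi0, hDi0⟩ := hsurj ⟨y1, h1⟩
    have hv0 : (D i0).1.1 = y1 := by rw [hDi0]
    by_cases hs : (D i0).2 = false
    · obtain ⟨h3, h4⟩ := hF i0 hs
      refine ⟨i0, hi0, hs, Or.inl ⟨hv0, ?_⟩⟩
      rcases huniq _ (D (i0 + 1)).1.2 (by rw [← h4, hv0]) with h5 | h5
      · exact absurd (Fin.ext (by rw [hv0, h5])) (hne i0)
      · exact h5
    · have hs' : (D i0).2 = true := by simpa using hs
      have hpv := hprev i0
      set i := (i0 + N - 1) % N with hi
      have hs2 : (D i).2 = false := by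
        by_contra hcon
        have hcon' : (D i).2 = true := by simpa using hcon
        obtain ⟨h3, _⟩ := hT i hcon'
        rw [hpv] at h3
        exact hs h3
      obtain ⟨h3, h4⟩ := hF i hs2
      refine ⟨i, Nat.mod_lt _ hN, hs2, Or.inr ⟨?_, by rw [hpv, hv0]⟩⟩
      rcases huniq _ (D i).1.2 (by rw [h4, hpv, hv0]) with h5 | h5
      · exact absurd (Fin.ext (by rw [hpv, hv0, h5])) (hne i)
      · exact h5
  have claimR : ∀ (y1 y2 : ℕ), y1 < N → y2 < N → r y1 = r y2 →
      (∀ y' < N, r y' = r y1 → y' = y1 ∨ y' = y2) →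
      ∃ i, i < N ∧ (D i).2 = true ∧ (((D i).1.1 = y1 ∧ (D (i + 1)).1.1 = y2) ∨
        ((D i).1.1 = y2 ∧ (D (i + 1)).1.1 = y1)) := by
    intro y1 y2 h1 h2 h12 huniq
    obtain ⟨i0, hi0, hDi0⟩ := hsurj ⟨y1, h1⟩
    have hv0 : (D i0).1.1 = y1 := by rw [hDi0]
    by_cases hs : (D i0).2 = true
    · obtain ⟨h3, h4⟩ := hT i0 hs
      refine ⟨i0, hi0, hs, Or.inl ⟨hv0, ?_⟩⟩
      rcases huniq _ (D (i0 + 1)).1.2 (by rw [← h4, hv0]) with h5 | h5
      · exact absurd (Fin.ext (by rw [hv0, h5])) (hne i0)
      · exact h5
    · have hs' : (D i0).2 = false := by simpa using hs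
      have hpv := hprev i0
      set i := (i0 + N - 1) % N with hi
      have hs2 : (D i).2 = true := by
        by_contra hcon
        have hcon' : (D i).2 = false := by simpa using hcon
        obtain ⟨h3, _⟩ := hF i hcon'
        rw [hpv] at h3
        exact hs h3
      obtain ⟨h3, h4⟩ := hT i hs2
      refine ⟨i, Nat.mod_lt _ hN, hs2, Or.inr ⟨?_, by rw [hpv, hv0]⟩⟩
      rcases huniq _ (D i).1.2 (by rw [h4, hpv, hv0]) with h5 | h5
      · exact absurd (Fin.ext (by rw [hpv, hv0, h5])) (hne i)
      · exact h5
  apply tour_of_polyline _ N hN p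
  · rw [hp0, show (0 : ℕ) = 2 * 0 by rfl, hp0]
    have : D N = D 0 := by
      rw [← hper N, Nat.mod_self]
    simp only [hTd, this]
  · intro i _
    rw [hp0, hp1]
    refine ⟨rfl, ?_⟩
    simp only [hTd, hHd]
    have := hlr' (D i).1
    cases (D i).2
    · simp only [Bool.not_false, cxt, cxf]
      omega
    · simp only [Bool.not_true, cxt, cxf]
      omega
  · intro i _
    rw [hp1, hp2]
    simp only [hTd, hHd]
    constructor
    · cases h : (D i).2
      · obtain ⟨h1, h2⟩ := hF i h
        simp only [h1, Bool.not_true, cxf, h2]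
      · obtain ⟨h1, h2⟩ := hT i h
        simp only [h1, Bool.not_false, cxt, h2]
    · intro h
      apply hne i
      apply Fin.ext
      exact_mod_cast h
  · intro i _ x h1 h2
    rw [hp0, hp1] at h1 h2
    rw [hp0]
    simp only [hTd, hHd] at h1 h2 ⊢
    have h3 := hlr' (D i).1
    apply hrow
    · cases h : (D i).2
      · simp only [h, Bool.not_false, cxt, cxf] at h1
        omega
      · simp only [h, Bool.not_true, cxt, cxf] at h1
        omega
    · cases h : (D i).2
      · simp only [h, Bool.not_false, cxt, cxf] at h2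
        omega
      · simp only [h, Bool.not_true, cxt, cxf] at h2
        omega
  · intro i _ y h1 h2
    rw [hp1, hp2] at h1 h2
    rw [hp1]
    simp only [hTd, hHd] at h1 h2 ⊢
    have hy0 : 0 ≤ y := by omega
    obtain ⟨y, rfl⟩ := Int.eq_ofNat_of_zero_le hy0
    have h5 := (D i).1.2
    have h6 := (D (i + 1)).1.2
    cases h : (D i).2
    · obtain ⟨h3, h4⟩ := hF i h
      rw [cxf]
      rcases le_total (D i).1.1 (D (i + 1)).1.1 with hle | hle
      · exact hcolL _ _ y h6 h4 (by omega) (by omega)
      · rw [h4]
        exact hcolL _ _ y h5 h4.symm (by omega) (by omega)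
    · obtain ⟨h3, h4⟩ := hT i h
      rw [cxt]
      rcases le_total (D i).1.1 (D (i + 1)).1.1 with hle | hle
      · exact hcolR _ _ y h6 h4 (by omega) (by omega)
      · rw [h4]
        exact hcolR _ _ y h5 h4.symm (by omega) (by omega)
  · intro v hv
    rw [Finset.mem_coe, mem_combF] at hv
    obtain ⟨x, y, hy, hx1, hx2, rfl⟩ := hv
    by_cases hxl : x < l y
    · obtain ⟨y1, y2, hy1, hy2, hy2N, e1, e2, huniq⟩ := hS.covL y hy x hx1 hxl
      obtain ⟨i, hi, hs, hor⟩ := claimL y1 y2 (by omega) hy2N (by rw [e1, e2])
        (by rw [e1]; exact huniq)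
      refine ⟨i, hi, Or.inr ?_⟩
      rw [hp1, hp2]
      simp only [hTd, hHd]
      rw [hs, cxf]
      rcases hor with ⟨h1, h2⟩ | ⟨h1, h2⟩
      · rw [h1, h2, e1]
        refine ⟨rfl, ?_, ?_⟩ <;> omega
      · rw [h1, h2, e2]
        refine ⟨rfl, ?_, ?_⟩ <;> omega
    · by_cases hxr : x + r y ≤ M
      · obtain ⟨i, hi, hDi⟩ := hsurj ⟨y, hy⟩
        refine ⟨i, hi, Or.inl ?_⟩
        rw [hp0, hp1]
        simp only [hTd, hHd]
        have hv : (D i).1.1 = y := by rw [hDi]
        refine ⟨by rw [hv], ?_, ?_⟩
        · cases h : (D i).2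
          · simp only [Bool.not_false, cxt, cxf, hv]
            omega
          · simp only [Bool.not_true, cxt, cxf, hv]
            omega
        · cases h : (D i).2
          · simp only [Bool.not_false, cxt, cxf, hv]
            omega
          · simp only [Bool.not_true, cxt, cxf, hv]
            omega
      · have hxM : x ≤ M := by omega
        obtain ⟨y1, y2, hy1, hy2, hy2N, e1, e2, huniq⟩ :=
          hS.covR y hy (M - x) (by omega) (by omega)
        obtain ⟨i, hi, hs, hor⟩ := claimR y1 y2 (by omega) hy2N (by rw [e1, e2])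
          (by rw [e1]; exact huniq)
        refine ⟨i, hi, Or.inr ?_⟩
        rw [hp1, hp2]
        simp only [hTd, hHd]
        rw [hs, cxt]
        rcases hor with ⟨h1, h2⟩ | ⟨h1, h2⟩
        · rw [h1, h2, e1]
          refine ⟨by omega, ?_, ?_⟩ <;> omega
        · rw [h1, h2, e2]
          refine ⟨by omega, ?_, ?_⟩ <;> omega

end Pool.Agent.Helper408_MT
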