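import Pool.Agent.Helper408_MT.LeftConf
import Pool.Agent.Helper408_MT.ChainEnum

/-!
# Connectivity of the constructed configuration
-/

set_option autoImplicit false

namespace Pool.Agent.Helper408_MT

/-- The literal position: the segment `ρ * KK m + (4 * b + t)` (level `ρ`, block `b`, position `t`) belongs
to clause number `b - 1`; other segments belong to the main part. -/
def isC (m ρ b t : ℕ) : Prop :=
  1 ≤ b ∧ b ≤ m ∧ (t = 3 ∨ (ρ % 5 = 2 ∧ t = 0) ∨ (ρ % 5 ≠ 2 ∧ t = 2))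

/-! ### auxiliary lemmas for the target -/

section lc_conn_aux

variable {m : ℕ} {occ : Bool → ℕ → ℕ → Bool} {E : ℕ → ℕ} {g : ℕ → ℕ → ℕ} {τ : ℕ → Bool}

/-- segment `c` is in `X` -/
def lc_conn_G (m : ℕ) (X : Set ℕ) (c : ℕ) : Prop := ∃ y, y < NN m ∧ rr m y = c ∧ y ∈ X

/-- closure of `X` -/
def lc_conn_Cl (m : ℕ) (occ : Bool → ℕ → ℕ → Bool) (E : ℕ → ℕ) (τ : ℕ → Bool) (X : Set ℕ) : Prop :=
  ∀ y < NN m, ∀ y' < NN m,
      (lc m occ E τ y = lc m occ E τ y' ∨ rr m y = rr m y') → y ∈ X → y' ∈ X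

theorem lc_conn_iff {X : Set ℕ} (hX : lc_conn_Cl m occ E τ X) {y : ℕ} (hy : y < NN m) :
    y ∈ X ↔ lc_conn_G m X (rr m y) := by
  constructor
  · intro h
    exact ⟨y, hy, rfl, h⟩
  · rintro ⟨y', hy', h1, h2⟩
    exact hX y' hy' y hy (Or.inr h1) h2

theorem lc_conn_eq {X : Set ℕ} (hX : lc_conn_Cl m occ E τ X) {y y' : ℕ} (hy : y < NN m)
    (hy' : y' < NN m) (h : lc m occ E τ y = lc m occ E τ y') :
    lc_conn_G m X (rr m y) ↔ lc_conn_G m X (rr m y') := by
  rw [← lc_conn_iff hX hy, ← lc_conn_iff hX hy']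
  exact ⟨hX y hy y' hy' (Or.inl h), hX y' hy' y hy (Or.inl h.symm)⟩

theorem lc_conn_W_lt {s : ℕ} (hs : s < SS m) : KK m + 2 * s < NN m := by
  unfold NN; omega

theorem lc_conn_T_lt {s : ℕ} (hs : s < SS m) : KK m + 2 * s + 1 < NN m := by
  unfold NN; omega

theorem lc_conn_init {X : Set ℕ} (hX : lc_conn_Cl m occ E τ X) {k : ℕ} (hk : 2 * k + 1 < KK m) :
    lc_conn_G m X (2 * k) ↔ lc_conn_G m X (2 * k + 1) := by
  have h1 : 2 * k < NN m := by unfold NN; omega
  have h2 : 2 * k + 1 < NN m := by unfold NN; omega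
  have h := lc_conn_eq hX h1 h2 (by
    rw [lc_init m occ E τ (by omega), lc_init m occ E τ hk]; omega)
  rw [rr_init (by omega), rr_init hk] at h
  exact h

theorem lc_conn_WT {X : Set ℕ} (hX : lc_conn_Cl m occ E τ X) {s : ℕ} (hs : s < SS m)
    (h : lcW m occ E τ s = lcT m occ τ s) :
    lc_conn_G m X (s + KK m) ↔ lc_conn_G m X s := by
  have h0 := lc_conn_eq hX (lc_conn_W_lt hs) (lc_conn_T_lt hs) (by
    rw [lc_W m occ E τ hs, lc_T m occ E τ hs, h])
  rw [rr_W hs, rr_T hs] at h0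
  exact h0

theorem lc_conn_WT' {X : Set ℕ} (hX : lc_conn_Cl m occ E τ X) {s s' : ℕ} (hs : s < SS m)
    (hs' : s' < SS m) (h : lcW m occ E τ s = lcT m occ τ s') :
    lc_conn_G m X (s + KK m) ↔ lc_conn_G m X s' := by
  have h0 := lc_conn_eq hX (lc_conn_W_lt hs) (lc_conn_T_lt hs') (by
    rw [lc_W m occ E τ hs, lc_T m occ E τ hs', h])
  rw [rr_W hs, rr_T hs'] at h0
  exact h0

theorem lc_conn_plain {X : Set ℕ} (hX : lc_conn_Cl m occ E τ X) {s : ℕ} (hs : s < SS m)
    (hk : kind m occ s = 0) : lc_conn_G m X (s + KK m) ↔ lc_conn_G m X s := by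
  refine lc_conn_WT hX hs ?_
  unfold lcW lcT lamStep
  have hK := KK_even m
  rw [hk]
  simp only [show ¬ ((0 : ℕ) = 3 ∧ τ (s / KK m / 5) = false) from fun h => absurd h.1 (by norm_num),
    if_false, if_true]
  omega

theorem lc_conn_hub {X : Set ℕ} (hX : lc_conn_Cl m occ E τ X) {s s' : ℕ} (hs : s < SS m)
    (hs' : s' < SS m) (hk : kind m occ s = 2) (hk' : kind m occ s' = 2)
    (hd : s / KK m = s' / KK m) : lc_conn_G m X (s + KK m) ↔ lc_conn_G m X s' := by
  refine lc_conn_WT' hX hs hs' ?_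
  unfold lcW lcT lamStep
  rw [hk, hk', hd]
  simp

theorem lc_conn_c1 {X : Set ℕ} (hX : lc_conn_Cl m occ E τ X) {s : ℕ} (hs : s < SS m)
    (hk : kind m occ s = 3) (hτ : τ (s / KK m / 5) = true) :
    lc_conn_G m X (s + KK m) ↔ lc_conn_G m X s := by
  refine lc_conn_WT hX hs ?_
  unfold lcW lcT lamStep
  rw [hk, hτ]
  simp

theorem lc_conn_c2 (hg : ChainEnum m occ E g) {X : Set ℕ} (hX : lc_conn_Cl m occ E τ X)
    {s s' : ℕ} (hs : s < SS m) (hs' : s' < SS m) (hk : kind m occ s = 3)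
    (hk' : kind m occ s' = 3) (hi : s / KK m / 5 < 3 * m) (hv : s' / KK m / 5 = s / KK m / 5)
    (hτ : τ (s / KK m / 5) = false) (hev : ev m occ s' = ev m occ s + 2)
    (hev1 : 1 ≤ ev m occ s) :
    lc_conn_G m X (s + KK m) ↔ lc_conn_G m X s' := by
  refine lc_conn_WT' hX hs hs' ?_
  have hE := (hg.surj (s / KK m / 5) hi s' hs' hk' hv).1
  have a1 : lcW m occ E τ s = NN m * (RR m + 1 + s / KK m / 5)
      + min (ev m occ s + 1) (E (s / KK m / 5)) := by
    unfold lcW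
    rw [if_pos (⟨hk, hτ⟩ : kind m occ s = 3 ∧ τ (s / KK m / 5) = false),
      if_neg (by omega : ¬ ev m occ s = 0)]
  have a2 : lcT m occ τ s' = NN m * (RR m + 1 + s' / KK m / 5) + (ev m occ s' - 1) := by
    unfold lcT
    rw [if_pos (⟨hk', by rw [hv]; exact hτ⟩ : kind m occ s' = 3 ∧ τ (s' / KK m / 5) = false),
      if_neg (by omega : ¬ ev m occ s' = 0)]
  rw [a1, a2, hv, min_eq_left (by omega)]
  congr 1
  omega

theorem lc_conn_rainbow {X : Set ℕ} (hX : lc_conn_Cl m occ E τ X) {s : ℕ} (hs : s + 2 < SS m)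
    (h4 : s % 4 = 0) (h0 : kind m occ s = 1) (h1 : kind m occ (s + 1) = 1)
    (h2 : kind m occ (s + 2) = 1) :
    (lc_conn_G m X (s + KK m) ↔ lc_conn_G m X (s + 2)) ∧
    (lc_conn_G m X (s + 2 + KK m) ↔ lc_conn_G m X s) ∧
    (lc_conn_G m X (s + 1 + KK m) ↔ lc_conn_G m X (s + 1)) := by
  have e1 : (s + 1) / 4 = s / 4 := by omega
  have e2 : (s + 2) / 4 = s / 4 := by omega
  have e3 : 4 * (s / 4) = s := by omega
  refine ⟨lc_conn_WT' hX (by omega) hs ?_, lc_conn_WT' hX hs (by omega) ?_,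
    lc_conn_WT hX (by omega) ?_⟩
  · unfold lcW lcT lamStep
    rw [h0, h2, e2]
    simp only [show ¬ ((1 : ℕ) = 3 ∧ τ (s / KK m / 5) = false) from fun h => absurd h.1 (by norm_num),
      show ¬ ((1 : ℕ) = 3 ∧ τ ((s + 2) / KK m / 5) = false) from fun h => absurd h.1 (by norm_num),
      if_false, if_true, show ¬ ((1 : ℕ) = 0) from by norm_num]
    omega
  · unfold lcW lcT lamStep
    rw [h0, h2, e2]
    simp only [show ¬ ((1 : ℕ) = 3 ∧ τ (s / KK m / 5) = false) from fun h => absurd h.1 (by norm_num),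
      show ¬ ((1 : ℕ) = 3 ∧ τ ((s + 2) / KK m / 5) = false) from fun h => absurd h.1 (by norm_num),
      if_false, if_true, show ¬ ((1 : ℕ) = 0) from by norm_num]
    omega
  · unfold lcW lcT lamStep
    rw [h1, e1]
    simp only [show ¬ ((1 : ℕ) = 3 ∧ τ ((s + 1) / KK m / 5) = false) from
      fun h => absurd h.1 (by norm_num),
      if_false, if_true, show ¬ ((1 : ℕ) = 0) from by norm_num]
    omega

theorem lc_conn_ev_succ {s : ℕ} (hk : kind m occ s = 3)
    (hv : (s + 1) / KK m / 5 = s / KK m / 5) : ev m occ (s + 1) = ev m occ s + 1 := by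
  unfold ev
  rw [List.range_succ, List.filter_append, List.length_append, hv]
  simp [hk]

theorem lc_conn_ev_pos {s s' : ℕ} (h : s' < s) (hk : kind m occ s' = 3)
    (hv : s' / KK m / 5 = s / KK m / 5) : 1 ≤ ev m occ s := by
  unfold ev
  have h1 : s' ∈ (List.range s).filter
      (fun s'' => decide (kind m occ s'' = 3) && decide (s'' / KK m / 5 = s / KK m / 5)) := by
    rw [List.mem_filter]
    exact ⟨List.mem_range.2 h, by simp [hk, hv]⟩
  exact List.length_pos_of_mem h1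

/-- The segment with coordinates `ρ, b, t` is in `X`. -/
def lc_conn_P (m : ℕ) (X : Set ℕ) (ρ b t : ℕ) : Prop := lc_conn_G m X (ρ * KK m + (4 * b + t))

theorem lc_conn_shift (ρ b t : ℕ) :
    (ρ + 1) * KK m + (4 * b + t) = ρ * KK m + (4 * b + t) + KK m := by ring

theorem lc_conn_Pplain {X : Set ℕ} (hX : lc_conn_Cl m occ E τ X) {ρ b t : ℕ} (hρ : ρ < RR m)
    (hb : b < m + 2) (ht : t < 4) (hk : kind m occ (ρ * KK m + (4 * b + t)) = 0) :
    lc_conn_P m X (ρ + 1) b t ↔ lc_conn_P m X ρ b t := by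
  unfold lc_conn_P
  rw [lc_conn_shift]
  exact lc_conn_plain hX (coord_lt_SS m ρ b t hρ hb ht) hk

theorem lc_conn_Phub {X : Set ℕ} (hX : lc_conn_Cl m occ E τ X) {ρ b t b' t' : ℕ} (hρ : ρ < RR m)
    (hb : b < m + 2) (ht : t < 4) (hb' : b' < m + 2) (ht' : t' < 4)
    (hk : kind m occ (ρ * KK m + (4 * b + t)) = 2)
    (hk' : kind m occ (ρ * KK m + (4 * b' + t')) = 2) :
    lc_conn_P m X (ρ + 1) b t ↔ lc_conn_P m X ρ b' t' := by
  unfold lc_conn_P
  rw [lc_conn_shift]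
  exact lc_conn_hub hX (coord_lt_SS m ρ b t hρ hb ht) (coord_lt_SS m ρ b' t' hρ hb' ht') hk hk'
    (by rw [coord_div m ρ b t hb ht, coord_div m ρ b' t' hb' ht'])

/-- hub coordinates -/
def lc_conn_H (m b t : ℕ) : Prop := b = 0 ∨ b = m + 1 ∨ t < 2

theorem lc_conn_kind_hub {ρ b t : ℕ} (h5 : ρ % 5 = 0 ∨ ρ % 5 = 3) (hb : b < m + 2) (ht : t < 4)
    (hH : lc_conn_H m b t) : kind m occ (ρ * KK m + (4 * b + t)) = 2 := by
  rw [kind_coord m occ ρ b t hb ht, if_pos h5]
  exact if_pos hH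

theorem lc_conn_hub_succ {X : Set ℕ} (hX : lc_conn_Cl m occ E τ X) {ρ b t : ℕ} (hρ : ρ < RR m)
    (h5 : ρ % 5 = 0 ∨ ρ % 5 = 3) (hb : b < m + 2) (ht : t < 4) (hH : lc_conn_H m b t) :
    lc_conn_P m X (ρ + 1) b t ↔ lc_conn_P m X ρ 0 0 :=
  lc_conn_Phub hX hρ hb ht (by omega) (by omega) (lc_conn_kind_hub h5 hb ht hH)
    (lc_conn_kind_hub h5 (by omega) (by omega) (Or.inl rfl))

theorem lc_conn_hub_self {X : Set ℕ} (hX : lc_conn_Cl m occ E τ X) {ρ b t : ℕ} (hρ : ρ < RR m)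
    (h5 : ρ % 5 = 0 ∨ ρ % 5 = 3) (hb : b < m + 2) (ht : t < 4) (hH : lc_conn_H m b t) :
    lc_conn_P m X ρ b t ↔ lc_conn_P m X ρ 0 0 := by
  rw [← lc_conn_Phub hX hρ (b := 0) (t := 0) (by omega) (by omega) hb ht
    (lc_conn_kind_hub h5 (by omega) (by omega) (Or.inl rfl)) (lc_conn_kind_hub h5 hb ht hH)]
  exact lc_conn_hub_succ hX hρ h5 (by omega) (by omega) (Or.inl rfl)

theorem lc_conn_hub_chain {X : Set ℕ} (hX : lc_conn_Cl m occ E τ X) {i : ℕ} (hi : i < 3 * m) :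
    (lc_conn_P m X (5 * i + 3) 0 0 ↔ lc_conn_P m X (5 * i) 0 0) ∧
    (lc_conn_P m X (5 * (i + 1)) 0 0 ↔ lc_conn_P m X (5 * i) 0 0) := by
  have hR : RR m = 15 * m + 1 := rfl
  have h1 : lc_conn_P m X (5 * i + 1) (m + 1) 0 ↔ lc_conn_P m X (5 * i) 0 0 :=
    lc_conn_hub_succ hX (by omega) (by omega) (by omega) (by omega) (Or.inr (Or.inl rfl))
  have h2 : lc_conn_P m X (5 * i + 1 + 1) (m + 1) 0 ↔ lc_conn_P m X (5 * i + 1) (m + 1) 0 := by
    refine lc_conn_Pplain hX (by omega) (by omega) (by omega) ?_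
    rw [kind_coord m occ _ _ _ (by omega) (by omega), if_neg (by omega), if_pos (by omega),
      if_neg (by omega), if_pos (Or.inl rfl)]
  have h3 : lc_conn_P m X (5 * i + 2 + 1) (m + 1) 0 ↔ lc_conn_P m X (5 * i + 2) (m + 1) 0 := by
    refine lc_conn_Pplain hX (by omega) (by omega) (by omega) ?_
    rw [kind_coord m occ _ _ _ (by omega) (by omega), if_neg (by omega), if_neg (by omega),
      if_pos (by omega), if_pos (by omega)]
  have h4 : lc_conn_P m X (5 * i + 3) (m + 1) 0 ↔ lc_conn_P m X (5 * i + 3) 0 0 :=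
    lc_conn_hub_self hX (by omega) (by omega) (by omega) (by omega) (Or.inr (Or.inl rfl))
  have h5 : lc_conn_P m X (5 * i + 3 + 1) 0 0 ↔ lc_conn_P m X (5 * i + 3) 0 0 :=
    lc_conn_hub_succ hX (by omega) (by omega) (by omega) (by omega) (Or.inl rfl)
  have h6 : lc_conn_P m X (5 * i + 4 + 1) 0 0 ↔ lc_conn_P m X (5 * i + 4) 0 0 := by
    refine lc_conn_Pplain hX (by omega) (by omega) (by omega) ?_
    rw [kind_coord m occ _ _ _ (by omega) (by omega), if_neg (by omega), if_neg (by omega),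
      if_neg (by omega), if_neg (by omega), if_pos (Or.inl rfl)]
  have e : 5 * (i + 1) = 5 * i + 4 + 1 := by ring
  rw [e]
  have h7 : lc_conn_P m X (5 * i + 3) 0 0 ↔ lc_conn_P m X (5 * i) 0 0 := by
    rw [← h4, ← h1, ← h2]
    exact h3
  exact ⟨h7, by rw [h6, ← h7]; exact h5⟩

theorem lc_conn_hub_zero {X : Set ℕ} (hX : lc_conn_Cl m occ E τ X) {i : ℕ} (hi : i ≤ 3 * m) :
    lc_conn_P m X (5 * i) 0 0 ↔ lc_conn_G m X 0 := by
  induction i with
  | zero => simp [lc_conn_P]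
  | succ k ih =>
    rw [(lc_conn_hub_chain hX (by omega)).2]
    exact ih (by omega)

theorem lc_conn_hub_three {X : Set ℕ} (hX : lc_conn_Cl m occ E τ X) {i : ℕ} (hi : i < 3 * m) :
    lc_conn_P m X (5 * i + 3) 0 0 ↔ lc_conn_G m X 0 := by
  rw [(lc_conn_hub_chain hX hi).1]
  exact lc_conn_hub_zero hX hi.le

/-- hub coordinates on the levels `5 i`, `5 i + 1`, `5 i + 3`, `5 i + 4` -/
theorem lc_conn_hub_all {X : Set ℕ} (hX : lc_conn_Cl m occ E τ X) {ρ b t : ℕ} (hρ : ρ ≤ RR m)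
    (h5 : ρ % 5 ≠ 2) (hb : b < m + 2) (ht : t < 4) (hH : lc_conn_H m b t) :
    lc_conn_P m X ρ b t ↔ lc_conn_G m X 0 := by
  have hR : RR m = 15 * m + 1 := rfl
  obtain ⟨i, r, hr, hir⟩ : ∃ i r, r < 5 ∧ ρ = 5 * i + r :=
    ⟨ρ / 5, ρ % 5, Nat.mod_lt _ (by norm_num), by omega⟩
  subst hir
  interval_cases r
  · rw [← lc_conn_hub_zero hX (i := i) (by omega)]
    exact lc_conn_hub_self hX (by omega) (by omega) hb ht hH
  · rw [← lc_conn_hub_zero hX (i := i) (by omega)]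
    exact lc_conn_hub_succ hX (by omega) (by omega) hb ht hH
  · omega
  · rw [← lc_conn_hub_three hX (i := i) (by omega)]
    exact lc_conn_hub_self hX (by omega) (by omega) hb ht hH
  · rw [← lc_conn_hub_three hX (i := i) (by omega)]
    exact lc_conn_hub_succ hX (ρ := 5 * i + 3) (by omega) (by omega) hb ht hH

theorem lc_conn_Prainbow {X : Set ℕ} (hX : lc_conn_Cl m occ E τ X) {ρ b : ℕ} (hρ : ρ < RR m)
    (hb : b < m + 2) (hk : ∀ t < 3, kind m occ (ρ * KK m + (4 * b + t)) = 1) :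
    (lc_conn_P m X (ρ + 1) b 0 ↔ lc_conn_P m X ρ b 2) ∧
    (lc_conn_P m X (ρ + 1) b 2 ↔ lc_conn_P m X ρ b 0) ∧
    (lc_conn_P m X (ρ + 1) b 1 ↔ lc_conn_P m X ρ b 1) := by
  have h := lc_conn_rainbow hX (s := ρ * KK m + (4 * b + 0))
    (coord_lt_SS m ρ b 2 hρ hb (by omega)) (coord_mod4 m ρ b 0 (by omega)) (hk 0 (by omega))
    (hk 1 (by omega)) (hk 2 (by omega))
  unfold lc_conn_P
  rw [lc_conn_shift, lc_conn_shift, lc_conn_shift]
  exact h

theorem lc_conn_Pc2 (hg : ChainEnum m occ E g) {X : Set ℕ} (hX : lc_conn_Cl m occ E τ X)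
    {ρ b : ℕ} (hρ : ρ < 15 * m) (hb : b < m + 2) (hb1 : 1 ≤ b) (h5 : ρ % 5 = 1 ∨ ρ % 5 = 4)
    (hk : ∀ t < 3, kind m occ (ρ * KK m + (4 * b + t)) = 3) (hτ : τ (ρ / 5) = false) :
    (lc_conn_P m X (ρ + 1) b 0 ↔ lc_conn_P m X ρ b 2) ∧
      1 ≤ ev m occ (ρ * KK m + (4 * b + 0)) ∧
      ev m occ (ρ * KK m + (4 * b + 2)) = ev m occ (ρ * KK m + (4 * b + 0)) + 2 := by
  have hR : RR m = 15 * m + 1 := rfl
  have hd : ∀ t < 4, (ρ * KK m + (4 * b + t)) / KK m = ρ := fun t ht => coord_div m ρ b t hb ht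
  have e1 : ev m occ (ρ * KK m + (4 * b + 1)) = ev m occ (ρ * KK m + (4 * b + 0)) + 1 := by
    refine lc_conn_ev_succ (s := ρ * KK m + (4 * b + 0)) (hk 0 (by omega)) ?_
    have := hd 1 (by omega)
    rw [show ρ * KK m + (4 * b + 0) + 1 = ρ * KK m + (4 * b + 1) from by ring, this,
      hd 0 (by omega)]
  have e2 : ev m occ (ρ * KK m + (4 * b + 2)) = ev m occ (ρ * KK m + (4 * b + 1)) + 1 := by
    refine lc_conn_ev_succ (s := ρ * KK m + (4 * b + 1)) (hk 1 (by omega)) ?_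
    have := hd 2 (by omega)
    rw [show ρ * KK m + (4 * b + 1) + 1 = ρ * KK m + (4 * b + 2) from by ring, this,
      hd 1 (by omega)]
  have e3 : 1 ≤ ev m occ (ρ * KK m + (4 * b + 0)) := by
    refine lc_conn_ev_pos (s' := (ρ / 5 * 5 + 1) * KK m + (4 * 0 + 0)) ?_ ?_ ?_
    · have h1 : (ρ / 5 * 5 + 1) * KK m ≤ ρ * KK m := Nat.mul_le_mul_right _ (by omega)
      omega
    · rw [kind_coord m occ _ _ _ (by omega) (by omega), if_neg (by omega), if_pos (by omega),
        if_pos rfl]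
    · rw [coord_div m _ 0 0 (by omega) (by omega), hd 0 (by omega)]
      omega
  refine ⟨?_, e3, by omega⟩
  unfold lc_conn_P
  rw [lc_conn_shift]
  refine lc_conn_c2 hg hX (coord_lt_SS m ρ b 0 (by omega) hb (by omega))
    (coord_lt_SS m ρ b 2 (by omega) hb (by omega)) (hk 0 (by omega)) (hk 2 (by omega)) ?_ ?_ ?_
    (by omega) e3
  · rw [hd 0 (by omega)]; omega
  · rw [hd 0 (by omega), hd 2 (by omega)]
  · rw [hd 0 (by omega)]; exact hτ

/-- the main part -/
theorem lc_conn_main {X : Set ℕ} (hX : lc_conn_Cl m occ E τ X) {ρ b t : ℕ} (hρ : ρ ≤ RR m)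
    (hb : b < m + 2) (ht : t < 4) (hC : ¬ isC m ρ b t) :
    lc_conn_P m X ρ b t ↔ lc_conn_G m X 0 := by
  have hR : RR m = 15 * m + 1 := rfl
  unfold isC at hC
  by_cases h5 : ρ % 5 = 2
  · by_cases hbb : b = 0 ∨ b = m + 1
    · rw [← lc_conn_hub_all hX (ρ := ρ + 1) (b := b) (t := t) (by omega) (by omega) hb ht
        (by unfold lc_conn_H; omega)]
      refine (lc_conn_Pplain hX (by omega) hb ht ?_).symm
      rw [kind_coord m occ _ _ _ hb ht, if_neg (by omega), if_neg (by omega), if_pos h5,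
        if_pos (by omega)]
    · have hk : ∀ t < 3, kind m occ (ρ * KK m + (4 * b + t)) = 1 := by
        intro t' ht'
        rw [kind_coord m occ _ _ _ hb (by omega), if_neg (by omega), if_neg (by omega), if_pos h5,
          if_neg (by omega)]
      obtain ⟨h1, -, h3⟩ := lc_conn_Prainbow hX (ρ := ρ) (by omega) hb hk
      have ht12 : t = 1 ∨ t = 2 := by omega
      rcases ht12 with rfl | rfl
      · rw [← h3]
        exact lc_conn_hub_all hX (by omega) (by omega) hb (by omega)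
          (by unfold lc_conn_H; omega)
      · rw [← h1]
        exact lc_conn_hub_all hX (by omega) (by omega) hb (by omega)
          (by unfold lc_conn_H; omega)
  · exact lc_conn_hub_all hX hρ h5 hb ht (by unfold lc_conn_H; omega)

/-- chain block of round `5 i + 1`, value true -/
theorem lc_conn_true {X : Set ℕ} (hX : lc_conn_Cl m occ E τ X) {ρ b : ℕ} (hρ : ρ < RR m)
    (hb1 : 1 ≤ b) (hbm : b ≤ m) (h5 : ρ % 5 = 1)
    (hocc : occ true (ρ / 5) (b - 1) = true) (hτ : τ (ρ / 5) = true) :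
    (lc_conn_P m X (ρ + 1) b 0 ↔ lc_conn_G m X 0) ∧ (lc_conn_P m X ρ b 2 ↔ lc_conn_G m X 0) := by
  have hR : RR m = 15 * m + 1 := rfl
  have hk : ∀ t < 3, kind m occ (ρ * KK m + (4 * b + t)) = 3 := by
    intro t' ht'
    rw [kind_coord m occ _ _ _ (by omega) (by omega), if_neg (by omega), if_pos h5,
      if_neg (by omega), if_neg (by omega), if_pos hocc]
  have hd : ∀ t < 4, (ρ * KK m + (4 * b + t)) / KK m = ρ :=
    fun t ht => coord_div m ρ b t (by omega) ht
  have h : ∀ t < 3, (lc_conn_P m X (ρ + 1) b t ↔ lc_conn_P m X ρ b t) := by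
    intro t' ht'
    unfold lc_conn_P
    rw [lc_conn_shift]
    exact lc_conn_c1 hX (coord_lt_SS m ρ b t' hρ (by omega) (by omega)) (hk t' ht')
      (by rw [hd t' (by omega)]; exact hτ)
  constructor
  · rw [h 0 (by omega)]
    exact lc_conn_main hX hρ.le (by omega) (by omega) (by unfold isC; omega)
  · rw [← h 2 (by omega)]
    exact lc_conn_main hX (by omega) (by omega) (by omega) (by unfold isC; omega)

/-- chain block of round `5 i + 4`, value false -/
theorem lc_conn_false (hm : 0 < m) (hg : ChainEnum m occ E g) {X : Set ℕ}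
    (hX : lc_conn_Cl m occ E τ X) {ρ b : ℕ} (hρ : ρ < RR m)
    (hb1 : 1 ≤ b) (hbm : b ≤ m) (h5 : ρ % 5 = 4)
    (hocc : occ false (ρ / 5) (b - 1) = true) (hτ : τ (ρ / 5) = false) :
    (lc_conn_P m X (ρ + 1) b 2 ↔ lc_conn_G m X 0) ∧ (lc_conn_P m X ρ b 2 ↔ lc_conn_G m X 0) := by
  have hR : RR m = 15 * m + 1 := rfl
  have hk : ∀ t < 3, kind m occ (ρ * KK m + (4 * b + t)) = 3 := by
    intro t' ht'
    rw [kind_coord m occ _ _ _ (by omega) (by omega), if_neg (by omega), if_neg (by omega),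
      if_neg (by omega), if_neg (by omega), if_neg (by omega), if_pos hocc]
  obtain ⟨h1, h2, h3⟩ := lc_conn_Pc2 hg hX (ρ := ρ) (b := b) (by omega) (by omega) hb1
    (Or.inr h5) hk hτ
  constructor
  · -- the next chain block
    have hs : ρ * KK m + (4 * b + 2) < SS m := coord_lt_SS m ρ b 2 hρ (by omega) (by omega)
    have hdiv : (ρ * KK m + (4 * b + 2)) / KK m = ρ := coord_div m ρ b 2 (by omega) (by omega)
    obtain ⟨s', g1, g2, g3, g4, g5, g6, g7, g8, g9⟩ := next_chain m hm occ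
      (ρ * KK m + (4 * b + 2)) hs (hk 2 (by omega)) (by rw [hdiv]; exact h5)
      (coord_mod4 m ρ b 2 (by omega))
      (by rw [coord_blk m ρ b 2 (by omega) (by omega)]; omega)
    have h4 : lc_conn_G m X (ρ * KK m + (4 * b + 2) + KK m) ↔ lc_conn_G m X (s' + 1) :=
      lc_conn_c2 hg hX hs g2 (hk 2 (by omega)) g7 (by rw [hdiv]; omega)
        (by rw [g5]) (by rw [hdiv]; exact hτ) g9 (by omega)
    unfold lc_conn_P
    rw [lc_conn_shift, h4]
    obtain ⟨b', t', hb', ht', hc⟩ := exists_coord m (s' + 1)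
    rw [g5, hdiv] at hc
    have ht1 : t' = 1 := by
      have h6 := coord_mod4 m ρ b' t' ht'
      rw [← hc] at h6
      omega
    subst ht1
    rw [hc]
    exact lc_conn_main hX hρ.le hb' (by omega) (by unfold isC; omega)
  · rw [← h1]
    exact lc_conn_main hX (by omega) (by omega) (by omega) (by unfold isC; omega)

/-- the position of the clause path -/
def lc_conn_pos (ρ : ℕ) : ℕ := if ρ % 5 = 2 then 0 else 2

theorem lc_conn_pos_lt (ρ : ℕ) : lc_conn_pos ρ < 4 := by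
  unfold lc_conn_pos; split_ifs <;> omega

theorem lc_conn_step (hm : 0 < m) (hg : ChainEnum m occ E g) {X : Set ℕ}
    (hX : lc_conn_Cl m occ E τ X) {ρ b : ℕ} (hρ : ρ < RR m) (hb1 : 1 ≤ b) (hbm : b ≤ m) :
    lc_conn_P m X (ρ + 1) b (lc_conn_pos (ρ + 1)) ↔ lc_conn_P m X ρ b (lc_conn_pos ρ) := by
  have hR : RR m = 15 * m + 1 := rfl
  have h5 : ρ % 5 = 0 ∨ ρ % 5 = 1 ∨ ρ % 5 = 2 ∨ ρ % 5 = 3 ∨ ρ % 5 = 4 := by omega
  rcases h5 with h5 | h5 | h5 | h5 | h5
  · have e1 : lc_conn_pos ρ = 2 := by unfold lc_conn_pos; rw [if_neg (by omega)]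
    have e2 : lc_conn_pos (ρ + 1) = 2 := by unfold lc_conn_pos; rw [if_neg (by omega)]
    rw [e1, e2]
    refine lc_conn_Pplain hX hρ (by omega) (by omega) ?_
    rw [kind_coord m occ _ _ _ (by omega) (by omega), if_pos (by omega), if_neg (by omega)]
  · have e1 : lc_conn_pos ρ = 2 := by unfold lc_conn_pos; rw [if_neg (by omega)]
    have e2 : lc_conn_pos (ρ + 1) = 0 := by unfold lc_conn_pos; rw [if_pos (by omega)]
    rw [e1, e2]
    by_cases hocc : occ true (ρ / 5) (b - 1) = true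
    · cases hτ : τ (ρ / 5) with
      | true =>
        obtain ⟨h1, h2⟩ := lc_conn_true hX hρ hb1 hbm h5 hocc hτ
        rw [h1, h2]
      | false =>
        have hk : ∀ t < 3, kind m occ (ρ * KK m + (4 * b + t)) = 3 := by
          intro t' ht'
          rw [kind_coord m occ _ _ _ (by omega) (by omega), if_neg (by omega), if_pos h5,
            if_neg (by omega), if_neg (by omega), if_pos hocc]
        exact (lc_conn_Pc2 hg hX (ρ := ρ) (b := b) (by omega) (by omega) hb1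
          (Or.inl h5) hk hτ).1
    · have hk : ∀ t < 3, kind m occ (ρ * KK m + (4 * b + t)) = 1 := by
        intro t' ht'
        rw [kind_coord m occ _ _ _ (by omega) (by omega), if_neg (by omega), if_pos h5,
          if_neg (by omega), if_neg (by omega), if_neg hocc]
      exact (lc_conn_Prainbow hX (ρ := ρ) hρ (by omega) hk).1
  · have e1 : lc_conn_pos ρ = 0 := by unfold lc_conn_pos; rw [if_pos h5]
    have e2 : lc_conn_pos (ρ + 1) = 2 := by unfold lc_conn_pos; rw [if_neg (by omega)]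
    rw [e1, e2]
    have hk : ∀ t < 3, kind m occ (ρ * KK m + (4 * b + t)) = 1 := by
      intro t' ht'
      rw [kind_coord m occ _ _ _ (by omega) (by omega), if_neg (by omega), if_neg (by omega),
        if_pos h5, if_neg (by omega)]
    exact (lc_conn_Prainbow hX (ρ := ρ) hρ (by omega) hk).2.1
  · have e1 : lc_conn_pos ρ = 2 := by unfold lc_conn_pos; rw [if_neg (by omega)]
    have e2 : lc_conn_pos (ρ + 1) = 2 := by unfold lc_conn_pos; rw [if_neg (by omega)]
    rw [e1, e2]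
    refine lc_conn_Pplain hX hρ (by omega) (by omega) ?_
    rw [kind_coord m occ _ _ _ (by omega) (by omega), if_pos (by omega), if_neg (by omega)]
  · have e1 : lc_conn_pos ρ = 2 := by unfold lc_conn_pos; rw [if_neg (by omega)]
    have e2 : lc_conn_pos (ρ + 1) = 2 := by unfold lc_conn_pos; rw [if_neg (by omega)]
    rw [e1, e2]
    by_cases hocc : occ false (ρ / 5) (b - 1) = true
    · cases hτ : τ (ρ / 5) with
      | true =>
        have hk : kind m occ (ρ * KK m + (4 * b + 2)) = 3 := by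
          rw [kind_coord m occ _ _ _ (by omega) (by omega), if_neg (by omega), if_neg (by omega),
            if_neg (by omega), if_neg (by omega), if_neg (by omega), if_pos hocc]
        unfold lc_conn_P
        rw [lc_conn_shift]
        exact lc_conn_c1 hX (coord_lt_SS m ρ b 2 hρ (by omega) (by omega)) hk
          (by rw [coord_div m ρ b 2 (by omega) (by omega)]; exact hτ)
      | false =>
        obtain ⟨h1, h2⟩ := lc_conn_false hm hg hX hρ hb1 hbm h5 hocc hτ
        rw [h1, h2]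
    · refine lc_conn_Pplain hX hρ (by omega) (by omega) ?_
      rw [kind_coord m occ _ _ _ (by omega) (by omega), if_neg (by omega), if_neg (by omega),
        if_neg (by omega), if_neg (by omega), if_neg (by omega), if_neg hocc]

theorem lc_conn_path (hm : 0 < m) (hg : ChainEnum m occ E g) {X : Set ℕ}
    (hX : lc_conn_Cl m occ E τ X) {ρ b : ℕ} (hρ : ρ ≤ RR m) (hb1 : 1 ≤ b) (hbm : b ≤ m) :
    lc_conn_P m X ρ b (lc_conn_pos ρ) ↔ lc_conn_P m X 0 b 2 := by
  induction ρ with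
  | zero => rfl
  | succ k ih =>
    rw [lc_conn_step hm hg hX (by omega) hb1 hbm]
    exact ih (by omega)

theorem lc_conn_path0 (hm : 0 < m) (hg : ChainEnum m occ E g)
    (hτ : ∀ j < m, ∃ i < 3 * m, occ (τ i) i j = true) {X : Set ℕ}
    (hX : lc_conn_Cl m occ E τ X) {b : ℕ} (hb1 : 1 ≤ b) (hbm : b ≤ m) :
    lc_conn_P m X 0 b 2 ↔ lc_conn_G m X 0 := by
  have hR : RR m = 15 * m + 1 := rfl
  obtain ⟨i, hi, hocc⟩ := hτ (b - 1) (by omega)
  cases h : τ i with
  | true =>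
    rw [h] at hocc
    have h5 : (5 * i + 1) / 5 = i := by omega
    obtain ⟨-, h2⟩ := lc_conn_true hX (ρ := 5 * i + 1) (by omega) hb1 hbm (by omega)
      (by rw [h5]; exact hocc) (by rw [h5]; exact h)
    have h3 := lc_conn_path hm hg hX (ρ := 5 * i + 1) (by omega) hb1 hbm
    have e1 : lc_conn_pos (5 * i + 1) = 2 := by unfold lc_conn_pos; rw [if_neg (by omega)]
    rw [e1] at h3
    rw [← h3, h2]
  | false =>
    rw [h] at hocc
    have h5 : (5 * i + 4) / 5 = i := by omega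
    obtain ⟨-, h2⟩ := lc_conn_false hm hg hX (ρ := 5 * i + 4) (by omega) hb1 hbm (by omega)
      (by rw [h5]; exact hocc) (by rw [h5]; exact h)
    have h3 := lc_conn_path hm hg hX (ρ := 5 * i + 4) (by omega) hb1 hbm
    have e1 : lc_conn_pos (5 * i + 4) = 2 := by unfold lc_conn_pos; rw [if_neg (by omega)]
    rw [e1] at h3
    rw [← h3, h2]

theorem lc_conn_three {X : Set ℕ} (hX : lc_conn_Cl m occ E τ X) {ρ b : ℕ} (hρ : ρ ≤ RR m)
    (hb1 : 1 ≤ b) (hbm : b ≤ m) : lc_conn_P m X ρ b 3 ↔ lc_conn_P m X 0 b 2 := by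
  induction ρ with
  | zero =>
    unfold lc_conn_P
    have h := lc_conn_init hX (k := 2 * b + 1) (by unfold KK; omega)
    have e1 : 0 * KK m + (4 * b + 3) = 2 * (2 * b + 1) + 1 := by ring
    have e2 : 0 * KK m + (4 * b + 2) = 2 * (2 * b + 1) := by ring
    rw [e1, e2]
    exact h.symm
  | succ k ih =>
    rw [← ih (by omega)]
    refine lc_conn_Pplain hX (by omega) (by omega) (by omega) ?_
    rw [kind_coord m occ _ _ _ (by omega) (by omega)]
    split_ifs <;> omega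

theorem lc_conn_all (hm : 0 < m) (hg : ChainEnum m occ E g)
    (hτ : ∀ j < m, ∃ i < 3 * m, occ (τ i) i j = true) {X : Set ℕ}
    (hX : lc_conn_Cl m occ E τ X) {ρ b t : ℕ} (hρ : ρ ≤ RR m) (hb : b < m + 2) (ht : t < 4) :
    lc_conn_P m X ρ b t ↔ lc_conn_G m X 0 := by
  by_cases hC : isC m ρ b t
  · obtain ⟨hb1, hbm, h⟩ := hC
    have h0 := lc_conn_path0 hm hg hτ hX hb1 hbm
    by_cases h3 : t = 3
    · subst h3
      rw [lc_conn_three hX hρ hb1 hbm]
      exact h0
    · have e : t = lc_conn_pos ρ := by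
        unfold lc_conn_pos
        split_ifs <;> omega
      rw [e, lc_conn_path hm hg hX hρ hb1 hbm]
      exact h0
  · exact lc_conn_main hX hρ hb ht hC

end lc_conn_aux

/-- the target -/
theorem lc_conn (m : ℕ) (hm : 0 < m) (occ : Bool → ℕ → ℕ → Bool) (E : ℕ → ℕ) (g : ℕ → ℕ → ℕ)
    (hg : ChainEnum m occ E g) (τ : ℕ → Bool)
    (hτ : ∀ j < m, ∃ i < 3 * m, occ (τ i) i j = true) :
    ∀ X : Set ℕ, (∀ y < NN m, ∀ y' < NN m,
      (lc m occ E τ y = lc m occ E τ y' ∨ rr m y = rr m y') → y ∈ X → y' ∈ X) →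
      (∃ y < NN m, y ∈ X) → ∀ y < NN m, y ∈ X := by
  intro X hX hne y hy
  have hX' : lc_conn_Cl m occ E τ X := hX
  have hall : ∀ y < NN m, (y ∈ X ↔ lc_conn_G m X 0) := by
    intro y hy
    rw [lc_conn_iff hX' hy]
    have hS : SS m = RR m * KK m := rfl
    have hlt : rr m y < (RR m + 1) * KK m := by
      have e : (RR m + 1) * KK m = SS m + KK m := by rw [hS]; ring
      rw [e]
      rcases row_cases hy with h | ⟨s, hs, h | h⟩ | ⟨p, hp, h⟩
      · rw [rr_init h]; omega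
      · rw [h, rr_W hs]; omega
      · rw [h, rr_T hs]; omega
      · rw [h, rr_fin]; omega
    have hρ : rr m y / KK m ≤ RR m := by
      have := (Nat.div_lt_iff_lt_mul (KK_pos m)).2 hlt
      omega
    obtain ⟨b, t, hb, ht, hc⟩ := exists_coord m (rr m y)
    rw [hc]
    exact lc_conn_all hm hg hτ hX' hρ hb ht
  obtain ⟨y0, hy0, h0⟩ := hne
  exact (hall y hy).2 ((hall y0 hy0).1 h0)

end Pool.Agent.Helper408_MT
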