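import Pool.Agent.Helper408_MT.LeftConf

/-!
# Evenness of the left classes
-/

set_option autoImplicit false

namespace Pool.Agent.Helper408_MT

/-- Exchange `2 k` and `2 k + 1`. -/
def sw (y : ℕ) : ℕ := if y % 2 = 0 then y + 1 else y - 1

/-- The mate of the departure row of the chain step number `e` of variable `i`. -/
def mW (m : ℕ) (E : ℕ → ℕ) (g : ℕ → ℕ → ℕ) (i e : ℕ) : ℕ :=
  if e = 0 then KK m + 2 * g i 1 + 1
  else if e + 2 ≤ E i then KK m + 2 * g i (e + 2) + 1
  else if e + 1 = E i then KK m + 2 * g i (E i)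
  else KK m + 2 * g i (E i - 1)

/-- The mate of the arrival row of the chain step number `e` of variable `i`. -/
def mT (m : ℕ) (g : ℕ → ℕ → ℕ) (i e : ℕ) : ℕ :=
  if e = 0 then KK m + 2 * g i 2 + 1
  else if e = 1 then KK m + 2 * g i 0
  else if e = 2 then KK m + 2 * g i 0 + 1
  else KK m + 2 * g i (e - 2)

/-- The mate of a row. -/
def mate (m : ℕ) (occ : Bool → ℕ → ℕ → Bool) (E : ℕ → ℕ) (g : ℕ → ℕ → ℕ) (τ : ℕ → Bool)
    (y : ℕ) : ℕ :=
  if y < KK m ∨ KK m + 2 * SS m ≤ y then sw y
  else if kind m occ ((y - KK m) / 2) = 1 then 2 * (KK m + 8 * ((y - KK m) / 2 / 4)) + 5 - y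
  else if kind m occ ((y - KK m) / 2) = 3 ∧ τ ((y - KK m) / 2 / KK m / 5) = false then
    if (y - KK m) % 2 = 0 then
      mW m E g ((y - KK m) / 2 / KK m / 5) (ev m occ ((y - KK m) / 2))
    else mT m g ((y - KK m) / 2 / KK m / 5) (ev m occ ((y - KK m) / 2))
  else sw y

theorem even_of_mate {s : Finset ℕ} (f : ℕ → ℕ) (h1 : ∀ y ∈ s, f y ∈ s) (h2 : ∀ y ∈ s, f y ≠ y)
    (h3 : ∀ y ∈ s, f (f y) = y) : Even s.card := by
  have h4 : ∑ _x ∈ s, (1 : ZMod 2) = 0 :=
    Finset.sum_involution (fun y _ => f y) (fun _ _ => by decide) (fun y hy _ => h2 y hy)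
      h1 h3
  rw [Finset.sum_const, nsmul_eq_mul, mul_one] at h4
  exact (ZMod.natCast_eq_zero_iff_even).1 h4

theorem kind_one_LE {m : ℕ} {occ : Bool → ℕ → ℕ → Bool} {s : ℕ} (h : kind m occ s = 1) :
    s % 4 < 3 ∧ ∀ s', s' / 4 = s / 4 → s' % 4 < 3 → kind m occ s' = 1 := by
  have hK : KK m = 4 * (m + 2) := rfl
  have h1 : ∀ s, s / KK m = s / 4 / (m + 2) := fun s => by rw [hK, Nat.div_div_eq_div_mul]
  unfold kind at h ⊢
  simp only [h1] at h ⊢
  constructor
  · split_ifs at h <;> omega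
  · intro s' h2 h3
    rw [h2]
    split_ifs at h ⊢ <;> omega

theorem chain_lt {m : ℕ} {occ : Bool → ℕ → ℕ → Bool} {s : ℕ} (hs : s < SS m)
    (h : kind m occ s = 3) : s / KK m / 5 < 3 * m := by
  have h1 : s / KK m < 15 * m + 1 := div_lt_RR hs
  unfold kind at h
  split_ifs at h <;> omega

section mate

variable {m : ℕ} {occ : Bool → ℕ → ℕ → Bool} {E : ℕ → ℕ} {g : ℕ → ℕ → ℕ} {τ : ℕ → Bool}

theorem mate_out {y : ℕ} (h : y < KK m ∨ KK m + 2 * SS m ≤ y) : mate m occ E g τ y = sw y := by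
  unfold mate
  rw [if_pos h]

theorem mate_W {s : ℕ} (hs : s < SS m) : mate m occ E g τ (KK m + 2 * s) =
    if kind m occ s = 1 then 2 * (KK m + 8 * (s / 4)) + 5 - (KK m + 2 * s)
    else if kind m occ s = 3 ∧ τ (s / KK m / 5) = false then
      mW m E g (s / KK m / 5) (ev m occ s)
    else KK m + 2 * s + 1 := by
  unfold mate
  have h1 : (KK m + 2 * s - KK m) / 2 = s := by omega
  have h2 : (KK m + 2 * s - KK m) % 2 = 0 := by omega
  have h3 : sw (KK m + 2 * s) = KK m + 2 * s + 1 := by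
    unfold sw
    have := KK_even m
    rw [if_pos (by omega)]
  rw [if_neg (by omega), h1, h2, h3, if_pos rfl]

theorem mate_T {s : ℕ} (hs : s < SS m) : mate m occ E g τ (KK m + 2 * s + 1) =
    if kind m occ s = 1 then 2 * (KK m + 8 * (s / 4)) + 5 - (KK m + 2 * s + 1)
    else if kind m occ s = 3 ∧ τ (s / KK m / 5) = false then
      mT m g (s / KK m / 5) (ev m occ s)
    else KK m + 2 * s := by
  unfold mate
  have h1 : (KK m + 2 * s + 1 - KK m) / 2 = s := by omega
  have h2 : ¬ (KK m + 2 * s + 1 - KK m) % 2 = 0 := by omega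
  have h3 : sw (KK m + 2 * s + 1) = KK m + 2 * s := by
    unfold sw
    have := KK_even m
    rw [if_neg (by omega)]
    omega
  rw [if_neg (by omega), h1, if_neg h2, h3]

/-- The statement that `y'` is a mate of `y`. -/
def Good (m : ℕ) (occ : Bool → ℕ → ℕ → Bool) (E : ℕ → ℕ) (g : ℕ → ℕ → ℕ) (τ : ℕ → Bool)
    (y : ℕ) : Prop :=
  mate m occ E g τ y < NN m ∧ mate m occ E g τ y ≠ y ∧
    lc m occ E τ (mate m occ E g τ y) = lc m occ E τ y ∧
    mate m occ E g τ (mate m occ E g τ y) = y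

theorem good_out {y : ℕ} (hy : y < NN m) (h : y < KK m ∨ KK m + 2 * SS m ≤ y) :
    Good m occ E g τ y := by
  have hK := KK_even m
  have hN : NN m = 2 * SS m + 2 * KK m := rfl
  have h1 : sw y < KK m ∨ KK m + 2 * SS m ≤ sw y := by
    unfold sw
    split_ifs <;> omega
  have h2 : sw (sw y) = y := by
    unfold sw
    split_ifs <;> omega
  have h3 : sw y / 2 = y / 2 := by
    unfold sw
    split_ifs <;> omega
  refine ⟨?_, ?_, ?_, ?_⟩
  · rw [mate_out h]
    unfold sw
    split_ifs <;> omega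
  · rw [mate_out h]
    unfold sw
    split_ifs <;> omega
  · rw [mate_out h]
    unfold lc
    rw [if_pos h, if_pos h1, h3]
  · rw [mate_out h, mate_out h1, h2]

theorem good_rainbow {s : ℕ} (hs : s < SS m) (hk : kind m occ s = 1) :
    Good m occ E g τ (KK m + 2 * s) ∧ Good m occ E g τ (KK m + 2 * s + 1) := by
  have hK := KK_even m
  have hN : NN m = 2 * SS m + 2 * KK m := rfl
  obtain ⟨h1, h2⟩ := kind_one_LE hk
  have hS : SS m % 4 = 0 := by
    have : SS m = 4 * (RR m * (m + 2)) := by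
      unfold SS KK
      ring
    omega
  -- the partner step
  set s' := 4 * (s / 4) + (2 - s % 4) with hs'
  have h3 : s' / 4 = s / 4 := by omega
  have h4 : s' % 4 < 3 := by omega
  have hk' := h2 s' h3 h4
  have hs'S : s' < SS m := by omega
  have e1 : 2 * (KK m + 8 * (s / 4)) + 5 - (KK m + 2 * s) = KK m + 2 * s' + 1 := by omega
  have e2 : 2 * (KK m + 8 * (s / 4)) + 5 - (KK m + 2 * s + 1) = KK m + 2 * s' := by omega
  have e3 : 2 * (KK m + 8 * (s' / 4)) + 5 - (KK m + 2 * s') = KK m + 2 * s + 1 := by omega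
  have e4 : 2 * (KK m + 8 * (s' / 4)) + 5 - (KK m + 2 * s' + 1) = KK m + 2 * s := by omega
  have m1 : mate m occ E g τ (KK m + 2 * s) = KK m + 2 * s' + 1 := by
    rw [mate_W hs, if_pos hk, e1]
  have m2 : mate m occ E g τ (KK m + 2 * s + 1) = KK m + 2 * s' := by
    rw [mate_T hs, if_pos hk, e2]
  have m3 : mate m occ E g τ (KK m + 2 * s') = KK m + 2 * s + 1 := by
    rw [mate_W hs'S, if_pos hk', e3]
  have m4 : mate m occ E g τ (KK m + 2 * s' + 1) = KK m + 2 * s := by
    rw [mate_T hs'S, if_pos hk', e4]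
  have n1 : ¬ (kind m occ s = 3 ∧ τ (s / KK m / 5) = false) := by omega
  have n2 : ¬ (kind m occ s' = 3 ∧ τ (s' / KK m / 5) = false) := by omega
  have l1 : lc m occ E τ (KK m + 2 * s) = max (KK m + 2 * s) (KK m + 2 * s' + 1) := by
    rw [lc_W m occ E τ hs]
    unfold lcW lamStep
    rw [if_neg n1, if_neg (by omega), if_pos hk, e1]
  have l2 : lc m occ E τ (KK m + 2 * s + 1) = max (KK m + 2 * s + 1) (KK m + 2 * s') := by
    rw [lc_T m occ E τ hs]
    unfold lcT lamStep
    rw [if_neg n1, if_neg (by omega), if_pos hk, e2]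
  have l3 : lc m occ E τ (KK m + 2 * s') = max (KK m + 2 * s') (KK m + 2 * s + 1) := by
    rw [lc_W m occ E τ hs'S]
    unfold lcW lamStep
    rw [if_neg n2, if_neg (by omega), if_pos hk', e3]
  have l4 : lc m occ E τ (KK m + 2 * s' + 1) = max (KK m + 2 * s' + 1) (KK m + 2 * s) := by
    rw [lc_T m occ E τ hs'S]
    unfold lcT lamStep
    rw [if_neg n2, if_neg (by omega), if_pos hk', e4]
  refine ⟨⟨?_, ?_, ?_, ?_⟩, ?_, ?_, ?_, ?_⟩
  · rw [m1]; omega
  · rw [m1]; omega
  · rw [m1, l4, l1, max_comm]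
  · rw [m1, m4]
  · rw [m2]; omega
  · rw [m2]; omega
  · rw [m2, l3, l2, max_comm]
  · rw [m2, m3]

theorem good_plain {s : ℕ} (hs : s < SS m) (hk : kind m occ s ≠ 1)
    (hk' : ¬ (kind m occ s = 3 ∧ τ (s / KK m / 5) = false)) :
    Good m occ E g τ (KK m + 2 * s) ∧ Good m occ E g τ (KK m + 2 * s + 1) := by
  have hK := KK_even m
  have hN : NN m = 2 * SS m + 2 * KK m := rfl
  have m1 : mate m occ E g τ (KK m + 2 * s) = KK m + 2 * s + 1 := by
    rw [mate_W hs, if_neg hk, if_neg hk']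
  have m2 : mate m occ E g τ (KK m + 2 * s + 1) = KK m + 2 * s := by
    rw [mate_T hs, if_neg hk, if_neg hk']
  have l1 : lc m occ E τ (KK m + 2 * s) = lc m occ E τ (KK m + 2 * s + 1) := by
    rw [lc_W m occ E τ hs, lc_T m occ E τ hs]
    unfold lcW lcT lamStep
    rw [if_neg hk', if_neg hk', if_neg hk, if_neg hk]
    have h1 : (KK m + 2 * s) / 2 = (KK m + 2 * s + 1) / 2 := by omega
    rw [h1]
  refine ⟨⟨?_, ?_, ?_, ?_⟩, ?_, ?_, ?_, ?_⟩
  · rw [m1]; omega
  · rw [m1]; omega
  · rw [m1, l1]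
  · rw [m1, m2]
  · rw [m2]; omega
  · rw [m2]; omega
  · rw [m2, l1]
  · rw [m2, m1]

section chain

variable (hg : ChainEnum m occ E g) {i : ℕ} (hi : i < 3 * m) (hτ : τ i = false)

include hg hi

theorem g_inj {e e' : ℕ} (he : e ≤ E i) (he' : e' ≤ E i) (h : g i e = g i e') : e = e' := by
  rw [← (hg.spec i hi e he).2.2.2, h, (hg.spec i hi e' he').2.2.2]

include hτ

theorem mate_gW {e : ℕ} (he : e ≤ E i) : mate m occ E g τ (KK m + 2 * g i e) = mW m E g i e := by
  obtain ⟨h1, h2, h3, h4⟩ := hg.spec i hi e he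
  rw [mate_W h1, if_neg (by omega), h3, h4, if_pos ⟨h2, hτ⟩]

theorem mate_gT {e : ℕ} (he : e ≤ E i) : mate m occ E g τ (KK m + 2 * g i e + 1) = mT m g i e := by
  obtain ⟨h1, h2, h3, h4⟩ := hg.spec i hi e he
  rw [mate_T h1, if_neg (by omega), h3, h4, if_pos ⟨h2, hτ⟩]

theorem lc_gW {e : ℕ} (he : e ≤ E i) : lc m occ E τ (KK m + 2 * g i e) =
    NN m * (RR m + 1 + i) + (if e = 0 then 0 else min (e + 1) (E i)) := by
  obtain ⟨h1, h2, h3, h4⟩ := hg.spec i hi e he
  rw [lc_W m occ E τ h1, lcW, h3, h4, if_pos ⟨h2, hτ⟩]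

theorem lc_gT {e : ℕ} (he : e ≤ E i) : lc m occ E τ (KK m + 2 * g i e + 1) =
    NN m * (RR m + 1 + i) + (if e = 0 then 1 else e - 1) := by
  obtain ⟨h1, h2, h3, h4⟩ := hg.spec i hi e he
  rw [lc_T m occ E τ h1, lcT, h3, h4, if_pos ⟨h2, hτ⟩]

theorem good_chain {e : ℕ} (he : e ≤ E i) :
    Good m occ E g τ (KK m + 2 * g i e) ∧ Good m occ E g τ (KK m + 2 * g i e + 1) := by
  have hN : NN m = 2 * SS m + 2 * KK m := rfl
  have hE := (hg.le i hi).1
  have hlt : ∀ e ≤ E i, g i e < SS m := fun e he => (hg.spec i hi e he).1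
  have hinj : ∀ e ≤ E i, ∀ e' ≤ E i, g i e = g i e' → e = e' := fun e he e' he' =>
    g_inj hg hi he he'
  have hW : ∀ e ≤ E i, mate m occ E g τ (KK m + 2 * g i e) = mW m E g i e := fun e he =>
    mate_gW hg hi hτ he
  have hT : ∀ e ≤ E i, mate m occ E g τ (KK m + 2 * g i e + 1) = mT m g i e := fun e he =>
    mate_gT hg hi hτ he
  have lW : ∀ e ≤ E i, lc m occ E τ (KK m + 2 * g i e) =
      NN m * (RR m + 1 + i) + (if e = 0 then 0 else min (e + 1) (E i)) := fun e he =>
    lc_gW hg hi hτ he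
  have lT : ∀ e ≤ E i, lc m occ E τ (KK m + 2 * g i e + 1) =
      NN m * (RR m + 1 + i) + (if e = 0 then 1 else e - 1) := fun e he =>
    lc_gT hg hi hτ he
  constructor
  · unfold Good
    rw [hW e he]
    unfold mW
    split_ifs with h1 h2 h3
    · subst h1
      have a1 := hlt 1 (by omega)
      refine ⟨by omega, by omega, ?_, ?_⟩
      · rw [lT 1 (by omega), lW 0 (by omega)]
        simp
      · rw [hT 1 (by omega)]
        simp [mT]
    · have a1 := hlt (e + 2) h2
      refine ⟨by omega, by omega, ?_, ?_⟩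
      · rw [lT (e + 2) h2, lW e he, if_neg (by omega), if_neg h1, min_eq_left (by omega)]
        rfl
      · rw [hT (e + 2) h2]
        unfold mT
        rw [if_neg (by omega), if_neg (by omega), if_neg (by omega)]
        rfl
    · have a1 := hlt (E i) le_rfl
      have a2 := hinj (E i) le_rfl e he
      refine ⟨by omega, fun h => ?_, ?_, ?_⟩
      · have := a2 (by omega)
        omega
      · rw [lW (E i) le_rfl, lW e he, if_neg (by omega), if_neg h1, min_eq_right (by omega),
          min_eq_right (by omega)]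
      · rw [hW (E i) le_rfl]
        unfold mW
        rw [if_neg (by omega), if_neg (by omega), if_neg (by omega)]
        have : E i - 1 = e := by omega
        rw [this]
    · have h4 : e = E i := by omega
      subst h4
      have a1 := hlt (E i - 1) (by omega)
      have a2 := hinj (E i) le_rfl (E i - 1) (by omega)
      refine ⟨by omega, fun h => ?_, ?_, ?_⟩
      · have := a2 (by omega)
        omega
      · rw [lW (E i) le_rfl, lW (E i - 1) (by omega), if_neg (by omega), if_neg h1,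
          min_eq_right (by omega), min_eq_right (by omega)]
      · rw [hW (E i - 1) (by omega)]
        unfold mW
        rw [if_neg (by omega), if_neg (by omega), if_pos (by omega)]
  · unfold Good
    rw [hT e he]
    unfold mT
    split_ifs with h1 h2 h3
    · subst h1
      have a1 := hlt 2 (by omega)
      have a2 := hinj 2 (by omega) 0 (by omega)
      refine ⟨by omega, fun h => ?_, ?_, ?_⟩
      · have := a2 (by omega)
        omega
      · rw [lT 2 (by omega), lT 0 (by omega)]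
        simp
      · rw [hT 2 (by omega)]
        simp [mT]
    · subst h2
      have a1 := hlt 0 (by omega)
      refine ⟨by omega, by omega, ?_, ?_⟩
      · rw [lT 1 (by omega), lW 0 (by omega)]
        simp
      · rw [hW 0 (by omega)]
        simp [mW]
    · subst h3
      have a1 := hlt 0 (by omega)
      have a2 := hinj 0 (by omega) 2 (by omega)
      refine ⟨by omega, fun h => ?_, ?_, ?_⟩
      · have := a2 (by omega)
        omega
      · rw [lT 2 (by omega), lT 0 (by omega)]
        simp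
      · rw [hT 0 (by omega)]
        simp [mT]
    · have a1 := hlt (e - 2) (by omega)
      refine ⟨by omega, by omega, ?_, ?_⟩
      · rw [lT e he, lW (e - 2) (by omega), if_neg (by omega), if_neg h1, min_eq_left (by omega)]
        congr 1
        omega
      · rw [hW (e - 2) (by omega)]
        unfold mW
        have : e - 2 + 2 = e := by omega
        rw [if_neg (by omega), if_pos (by omega), this]

end chain

theorem good (hg : ChainEnum m occ E g) {y : ℕ} (hy : y < NN m) : Good m occ E g τ y := by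
  rcases row_cases hy with h | ⟨s, hs, h⟩ | ⟨p, hp, h⟩
  · exact good_out hy (Or.inl h)
  · have h1 : Good m occ E g τ (KK m + 2 * s) ∧ Good m occ E g τ (KK m + 2 * s + 1) := by
      by_cases h1 : kind m occ s = 1
      · exact good_rainbow hs h1
      by_cases h2 : kind m occ s = 3 ∧ τ (s / KK m / 5) = false
      · have hi := chain_lt hs h2.1
        obtain ⟨h3, h4⟩ := hg.surj _ hi s hs h2.1 rfl
        have h5 := good_chain hg hi h2.2 h3
        rwa [h4] at h5
      · exact good_plain hs h1 h2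
    rcases h with rfl | rfl
    · exact h1.1
    · exact h1.2
  · exact good_out hy (Or.inr (by omega))

end mate

theorem lc_even (m : ℕ) (hm : 0 < m) (occ : Bool → ℕ → ℕ → Bool) (E : ℕ → ℕ) (g : ℕ → ℕ → ℕ)
    (hg : ChainEnum m occ E g) (τ : ℕ → Bool) (d : ℕ) :
    Even ((Finset.range (NN m)).filter (fun y => lc m occ E τ y = d)).card := by
  refine even_of_mate (mate m occ E g τ) (fun y hy => ?_) (fun y hy => ?_) (fun y hy => ?_)
  · rw [Finset.mem_filter, Finset.mem_range] at hy ⊢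
    obtain ⟨h1, h2, h3, h4⟩ := good (τ := τ) hg hy.1
    exact ⟨h1, h3.trans hy.2⟩
  · rw [Finset.mem_filter, Finset.mem_range] at hy
    exact (good (τ := τ) hg hy.1).2.1
  · rw [Finset.mem_filter, Finset.mem_range] at hy
    exact (good (τ := τ) hg hy.1).2.2.2

end Pool.Agent.Helper408_MT
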