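import Pool.Agent.Helper408_MT.LeftConf

/-!
# The left side of the constructed configuration
-/

set_option autoImplicit false

namespace Pool.Agent.Helper408_MT

section helper528

variable {m : ℕ} {occ : Bool → ℕ → ℕ → Bool} {E : ℕ → ℕ} {g : ℕ → ℕ → ℕ} {τ : ℕ → Bool}

theorem SS_mod4 (m : ℕ) : SS m % 4 = 0 := by
  have : SS m = 4 * (RR m * (m + 2)) := by unfold SS KK; ring
  omega

theorem div_KK_LP (m s : ℕ) : s / KK m = s / 4 / (m + 2) := by
  unfold KK; rw [Nat.div_div_eq_div_mul]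

theorem kind_rb {s s' : ℕ} (h : kind m occ s = 1) (h4 : s' / 4 = s / 4) (h3 : s' % 4 < 3) :
    kind m occ s' = 1 := by
  have hK : s' / KK m = s / KK m := by rw [div_KK_LP, div_KK_LP, h4]
  unfold kind at h ⊢
  rw [hK, h4]
  split_ifs at h ⊢ <;> omega

theorem kind_rb_t {s : ℕ} (h : kind m occ s = 1) : s % 4 < 3 := by
  unfold kind at h
  split_ifs at h <;> omega

theorem kind_two_mod {s : ℕ} (h : kind m occ s = 2) : s / KK m % 5 = 0 ∨ s / KK m % 5 = 3 := by
  unfold kind at h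
  by_contra hc
  rw [if_neg hc] at h
  split_ifs at h <;> omega

theorem kind_of_hub {s : ℕ} (h : s / KK m % 5 = 0 ∨ s / KK m % 5 = 3) :
    kind m occ s = 0 ∨ kind m occ s = 2 := by
  unfold kind
  rw [if_pos h]
  split_ifs <;> simp

theorem kind_three_mod {s : ℕ} (h : kind m occ s = 3) :
    s / KK m % 5 = 1 ∨ s / KK m % 5 = 4 := by
  unfold kind at h
  split_ifs at h <;> omega

theorem kind_three_lt {s : ℕ} (hs : s < SS m) (h : kind m occ s = 3) : s / KK m / 5 < 3 * m := by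
  have h1 := kind_three_mod h
  have h2 := div_lt_RR hs
  unfold RR at h2
  omega

/-- Row `y` belongs to a step. -/
def IsStep (m y : ℕ) : Prop := KK m ≤ y ∧ y < KK m + 2 * SS m

/-- rows of kind `k`. -/
def IsKind (m : ℕ) (occ : Bool → ℕ → ℕ → Bool) (k y : ℕ) : Prop :=
  KK m ≤ y ∧ y < KK m + 2 * SS m ∧ kind m occ ((y - KK m) / 2) = k

theorem lam_step {y : ℕ} (h1 : KK m ≤ y) (h2 : y < KK m + 2 * SS m) :
    lam m occ y = lamStep m occ ((y - KK m) / 2) y := by
  unfold lam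
  rw [if_neg (by omega)]

theorem lc_step {y : ℕ} (h1 : KK m ≤ y) (h2 : y < KK m + 2 * SS m) :
    lc m occ E τ y = if (y - KK m) % 2 = 0 then lcW m occ E τ ((y - KK m) / 2)
      else lcT m occ τ ((y - KK m) / 2) := by
  unfold lc
  rw [if_neg (by omega)]

theorem lc_eq_lam {y : ℕ} (h1 : KK m ≤ y) (h2 : y < KK m + 2 * SS m)
    (h3 : ¬ (kind m occ ((y - KK m) / 2) = 3 ∧ τ ((y - KK m) / 2 / KK m / 5) = false)) :
    lc m occ E τ y = lam m occ y := by
  rw [lc_step h1 h2, lam_step h1 h2]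
  unfold lcW lcT
  rw [if_neg h3, if_neg h3]
  split_ifs with h
  · congr 1; omega
  · congr 1; omega

/-- small plain row -/
def P0 (m : ℕ) (occ : Bool → ℕ → ℕ → Bool) (y : ℕ) : Prop :=
  y < KK m ∨ KK m + 2 * SS m ≤ y ∨ kind m occ ((y - KK m) / 2) = 0

theorem cases4 (m : ℕ) (occ : Bool → ℕ → ℕ → Bool) (y : ℕ) :
    P0 m occ y ∨ IsKind m occ 1 y ∨ IsKind m occ 2 y ∨ IsKind m occ 3 y := by
  have := kind_le m occ ((y - KK m) / 2)
  unfold P0 IsKind
  omega

theorem cases3 (m : ℕ) (occ : Bool → ℕ → ℕ → Bool) (y : ℕ) :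
    (P0 m occ y ∨ IsKind m occ 1 y) ∨ IsKind m occ 2 y ∨ IsKind m occ 3 y := by
  rcases cases4 m occ y with h | h | h | h
  · exact Or.inl (Or.inl h)
  · exact Or.inl (Or.inr h)
  · exact Or.inr (Or.inl h)
  · exact Or.inr (Or.inr h)

theorem NN_even (m : ℕ) : NN m = 2 * (SS m + KK m) := by unfold NN; ring

theorem lam_P0 {y : ℕ} (h : P0 m occ y) : lam m occ y = y / 2 * 2 + 1 := by
  by_cases h' : y < KK m ∨ KK m + 2 * SS m ≤ y
  · unfold lam; rw [if_pos h']
  · unfold lam; rw [if_neg h']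
    unfold lamStep
    unfold P0 at h
    rw [if_pos (by omega)]

theorem lc_P0 {y : ℕ} (h : P0 m occ y) : lc m occ E τ y = y / 2 * 2 + 1 := by
  by_cases h' : y < KK m ∨ KK m + 2 * SS m ≤ y
  · unfold lc; rw [if_pos h']
  · unfold P0 at h
    rw [lc_eq_lam (by omega) (by omega) (by omega)]
    exact lam_P0 (by unfold P0; omega)

theorem lam_K1 {y : ℕ} (h : IsKind m occ 1 y) :
    lam m occ y = max y (2 * (KK m + 8 * ((y - KK m) / 2 / 4)) + 5 - y) := by
  obtain ⟨h1, h2, h3⟩ := h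
  rw [lam_step h1 h2]
  unfold lamStep
  rw [if_neg (by omega), if_pos h3]

theorem lc_K1 {y : ℕ} (h : IsKind m occ 1 y) : lc m occ E τ y = lam m occ y := by
  obtain ⟨h1, h2, h3⟩ := h
  exact lc_eq_lam h1 h2 (by omega)

theorem lam_K2 {y : ℕ} (h : IsKind m occ 2 y) :
    lam m occ y = NN m * ((y - KK m) / 2 / KK m + 1) := by
  obtain ⟨h1, h2, h3⟩ := h
  rw [lam_step h1 h2]
  unfold lamStep
  rw [if_neg (by omega), if_neg (by omega), if_pos h3]

theorem lc_K2 {y : ℕ} (h : IsKind m occ 2 y) : lc m occ E τ y = lam m occ y := by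
  obtain ⟨h1, h2, h3⟩ := h
  exact lc_eq_lam h1 h2 (by omega)

theorem lam_K3 {y : ℕ} (h : IsKind m occ 3 y) :
    lam m occ y = NN m * (RR m + 1 + (y - KK m) / 2 / KK m / 5)
      + (ev m occ ((y - KK m) / 2) - 1) := by
  obtain ⟨h1, h2, h3⟩ := h
  rw [lam_step h1 h2]
  unfold lamStep
  rw [if_neg (by omega), if_neg (by omega), if_neg (by omega)]

theorem lc_K3_true {y : ℕ} (h : IsKind m occ 3 y) (hτ : τ ((y - KK m) / 2 / KK m / 5) = true) :
    lc m occ E τ y = lam m occ y := by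
  obtain ⟨h1, h2, h3⟩ := h
  exact lc_eq_lam h1 h2 (by simp [hτ])

theorem lc_K3_false {y : ℕ} (h : IsKind m occ 3 y) (hτ : τ ((y - KK m) / 2 / KK m / 5) = false) :
    lc m occ E τ y = NN m * (RR m + 1 + (y - KK m) / 2 / KK m / 5) +
      if (y - KK m) % 2 = 0 then
        (if ev m occ ((y - KK m) / 2) = 0 then 0 else
          min (ev m occ ((y - KK m) / 2) + 1) (E ((y - KK m) / 2 / KK m / 5)))
      else (if ev m occ ((y - KK m) / 2) = 0 then 1 else ev m occ ((y - KK m) / 2) - 1) := by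
  obtain ⟨h1, h2, h3⟩ := h
  rw [lc_step h1 h2]
  unfold lcW lcT
  by_cases hp : (y - KK m) % 2 = 0
  · rw [if_pos hp, if_pos hp, if_pos ⟨h3, hτ⟩]
  · rw [if_neg hp, if_neg hp, if_pos ⟨h3, hτ⟩]

theorem facts_K3 (hg : ChainEnum m occ E g) {y : ℕ} (h : IsKind m occ 3 y) :
    (y - KK m) / 2 / KK m / 5 < 3 * m ∧
    ev m occ ((y - KK m) / 2) ≤ E ((y - KK m) / 2 / KK m / 5) ∧
    7 ≤ E ((y - KK m) / 2 / KK m / 5) ∧
    E ((y - KK m) / 2 / KK m / 5) + 1 ≤ 2 * KK m ∧
    g ((y - KK m) / 2 / KK m / 5) (ev m occ ((y - KK m) / 2)) = (y - KK m) / 2 := by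
  obtain ⟨h1, h2, h3⟩ := h
  have hs : (y - KK m) / 2 < SS m := by omega
  have hi := kind_three_lt hs h3
  obtain ⟨h5, h6⟩ := hg.surj _ hi _ hs h3 rfl
  exact ⟨hi, h5, (hg.le _ hi).1, (hg.le _ hi).2, h6⟩

theorem NN_gt (hm : 0 < m) : 2 * KK m + 2 < NN m := by
  have : 0 < SS m := by
    unfold SS RR; exact Nat.mul_pos (by omega) (KK_pos m)
  have h2 : 8 ≤ KK m := by unfold KK; omega
  have h3 : KK m ≤ SS m := by
    unfold SS RR; nlinarith
  unfold NN; omega

/-- band: the value of `lc` divided by `NN`. -/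
theorem lc_div_small (hm : 0 < m) {y : ℕ} (hy : y < NN m)
    (h : P0 m occ y ∨ IsKind m occ 1 y) :
    lc m occ E τ y < NN m ∧ lam m occ y < NN m ∧ lc m occ E τ y = lam m occ y := by
  have hN := NN_even m
  have h4 := SS_mod4 m
  rcases h with h | h
  · rw [lc_P0 h, lam_P0 h]; omega
  · rw [lc_K1 h, lam_K1 h]
    have h3 := kind_rb_t h.2.2
    have h1 := h.1
    have h2 := h.2.1
    have : 0 < KK m := KK_pos m
    refine ⟨?_, ?_, rfl⟩ <;> · rw [max_lt_iff]; omega

theorem band_K3 (hm : 0 < m) (hg : ChainEnum m occ E g) {y : ℕ} (h : IsKind m occ 3 y) :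
    ∃ c < NN m, lc m occ E τ y = NN m * (RR m + 1 + (y - KK m) / 2 / KK m / 5) + c := by
  have hN := NN_gt hm
  obtain ⟨h1, h2, h3, h4, h5⟩ := facts_K3 hg h
  rcases hτ : τ ((y - KK m) / 2 / KK m / 5) with _ | _
  · refine ⟨_, ?_, lc_K3_false h hτ⟩
    split_ifs <;> omega
  · rw [lc_K3_true h hτ, lam_K3 h]
    exact ⟨_, by omega, rfl⟩

theorem lam_le_lc (hg : ChainEnum m occ E g) (y : ℕ) : lam m occ y ≤ lc m occ E τ y := by
  rcases cases4 m occ y with h | h | h | h
  · rw [lc_P0 h, lam_P0 h]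
  · rw [lc_K1 h]
  · rw [lc_K2 h]
  · obtain ⟨h1, h2, h3, h4, h5⟩ := facts_K3 hg h
    rcases hτ : τ ((y - KK m) / 2 / KK m / 5) with _ | _
    · rw [lc_K3_false h hτ, lam_K3 h]
      apply Nat.add_le_add_left
      split_ifs <;> omega
    · rw [lc_K3_true h hτ]

theorem ev_mono {s s' : ℕ} (h : s ≤ s') (h5 : s / KK m / 5 = s' / KK m / 5) :
    ev m occ s ≤ ev m occ s' := by
  unfold ev
  rw [h5]
  exact ((List.range_subset.2 h |> fun _ => List.Sublist.filter _
    (List.range_sublist.2 h))).length_le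

/-- If the quotient of `lc y` by `NN` is `RR + 1 + i`, then `y` is a chain row of variable `i`. -/
theorem chain_of_lc (hm : 0 < m) (hg : ChainEnum m occ E g) {y : ℕ} (hy : y < NN m) {i c : ℕ}
    (hc : c < NN m) (h : lc m occ E τ y = NN m * (RR m + 1 + i) + c) :
    IsKind m occ 3 y ∧ (y - KK m) / 2 / KK m / 5 = i := by
  have hN0 : 0 < NN m := by have := NN_gt hm; omega
  have hd : lc m occ E τ y / NN m = RR m + 1 + i := by
    rw [h, Nat.mul_add_div hN0, Nat.div_eq_of_lt hc, add_zero]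
  rcases cases4 m occ y with h' | h' | h' | h'
  · have := (lc_div_small (E := E) (τ := τ) hm hy (Or.inl h')).1
    rw [Nat.div_eq_of_lt this] at hd; omega
  · have := (lc_div_small (E := E) (τ := τ) hm hy (Or.inr h')).1
    rw [Nat.div_eq_of_lt this] at hd; omega
  · rw [lc_K2 h', lam_K2 h', Nat.mul_div_cancel_left _ hN0] at hd
    have : (y - KK m) / 2 / KK m < RR m := div_lt_RR (by have := h'.1; have := h'.2.1; omega)
    omega
  · obtain ⟨c', hc', he⟩ := band_K3 (τ := τ) hm hg h'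
    rw [he, Nat.mul_add_div hN0, Nat.div_eq_of_lt hc', add_zero] at hd
    exact ⟨h', by omega⟩

/-- rows of the chain steps. -/
theorem isKind_g (hg : ChainEnum m occ E g) {i e : ℕ} (hi : i < 3 * m) (he : e ≤ E i) {y : ℕ}
    (hy : y = KK m + 2 * g i e ∨ y = KK m + 2 * g i e + 1) :
    IsKind m occ 3 y ∧ (y - KK m) / 2 = g i e ∧ y < NN m := by
  obtain ⟨h1, h2, h3, h4⟩ := hg.spec i hi e he
  have h5 : (y - KK m) / 2 = g i e := by omega
  refine ⟨⟨by omega, by omega, by rw [h5]; exact h2⟩, h5, ?_⟩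
  unfold NN; omega

theorem lc_gW_LP (hg : ChainEnum m occ E g) {i e : ℕ} (hi : i < 3 * m) (he : e ≤ E i)
    (hτ : τ i = false) :
    lc m occ E τ (KK m + 2 * g i e) =
      NN m * (RR m + 1 + i) + (if e = 0 then 0 else min (e + 1) (E i)) := by
  obtain ⟨h1, h2, h3, h4⟩ := hg.spec i hi e he
  obtain ⟨h5, h6, h7⟩ := isKind_g hg hi he (Or.inl rfl)
  rw [lc_K3_false h5 (by rw [h6, h3]; exact hτ), h6, h3, h4, if_pos (by omega)]

theorem lc_gT_LP (hg : ChainEnum m occ E g) {i e : ℕ} (hi : i < 3 * m) (he : e ≤ E i)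
    (hτ : τ i = false) :
    lc m occ E τ (KK m + 2 * g i e + 1) =
      NN m * (RR m + 1 + i) + (if e = 0 then 1 else e - 1) := by
  obtain ⟨h1, h2, h3, h4⟩ := hg.spec i hi e he
  obtain ⟨h5, h6, h7⟩ := isKind_g hg hi he (Or.inr rfl)
  rw [lc_K3_false h5 (by rw [h6, h3]; exact hτ), h6, h3, h4, if_neg (by omega)]

theorem g_mono (hg : ChainEnum m occ E g) {i : ℕ} (hi : i < 3 * m) {a b : ℕ} (hab : a < b)
    (hb : b ≤ E i) : g i a < g i b := by
  induction b with
  | zero => omega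
  | succ b ih =>
    have h1 := hg.mono i hi b (by omega)
    rcases Nat.lt_succ_iff_lt_or_eq.1 hab with h | h
    · have := ih h (by omega); omega
    · subst h; exact h1

/-- Lower row of the class of depth `B + (e - 1)`. -/
def UU (m : ℕ) (g : ℕ → ℕ → ℕ) (i e : ℕ) : ℕ :=
  if e = 1 then KK m + 2 * g i 0 else if e = 2 then KK m + 2 * g i 0 + 1
    else KK m + 2 * g i (e - 2)

theorem lc_UU (hg : ChainEnum m occ E g) {i e : ℕ} (hi : i < 3 * m) (h1 : 1 ≤ e) (he : e ≤ E i)
    (hτ : τ i = false) : lc m occ E τ (UU m g i e) = NN m * (RR m + 1 + i) + (e - 1) := by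
  unfold UU
  split_ifs with ha hb
  · rw [lc_gW_LP hg hi (by omega) hτ, ha]; simp
  · rw [lc_gT_LP hg hi (by omega) hτ, hb]; simp
  · rw [lc_gW_LP hg hi (by omega) hτ, if_neg (by omega)]
    have : min (e - 2 + 1) (E i) = e - 1 := by omega
    rw [this]

theorem class_UU (hm : 0 < m) (hg : ChainEnum m occ E g) {i e : ℕ} (hi : i < 3 * m) (h1 : 1 ≤ e)
    (he : e ≤ E i) (hτ : τ i = false) {y : ℕ} (hy : y < NN m)
    (h : lc m occ E τ y = NN m * (RR m + 1 + i) + (e - 1)) :
    y = UU m g i e ∨ y = KK m + 2 * g i e + 1 := by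
  have hN := NN_gt hm
  have hE := hg.le i hi
  obtain ⟨hk, hi'⟩ := chain_of_lc hm hg hy (by omega) h
  obtain ⟨f1, f2, f3, f4, f5⟩ := facts_K3 hg hk
  rw [hi'] at f1 f2 f3 f4 f5
  have hyy := hk.1
  set e' := ev m occ ((y - KK m) / 2) with he'
  by_cases hp : (y - KK m) % 2 = 0
  · have hy' : y = KK m + 2 * g i e' := by omega
    rw [hy', lc_gW_LP hg hi f2 hτ] at h
    have h2 := Nat.add_left_cancel h
    rw [hy']
    unfold UU
    split_ifs at h2 with h3
    · left
      have : e = 1 := by omega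
      rw [if_pos this, h3]
    · left
      have h4 : e' = e - 2 ∧ 3 ≤ e := by omega
      rw [if_neg (by omega), if_neg (by omega), h4.1]
  · have hy' : y = KK m + 2 * g i e' + 1 := by omega
    rw [hy', lc_gT_LP hg hi f2 hτ] at h
    have h2 := Nat.add_left_cancel h
    rw [hy']
    unfold UU
    split_ifs at h2 with h3
    · left
      have : e = 2 := by omega
      rw [if_neg (by omega), if_pos this, h3]
    · right
      have h4 : e' = e := by omega
      rw [h4]

theorem lc_pairs (hm : 0 < m) (hg : ChainEnum m occ E g) {y : ℕ} {d : ℕ}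
    (h1 : lam m occ y ≤ d) (h2 : d < lc m occ E τ y) :
    ∃ y1 y2, y1 < y ∧ y < y2 ∧ y2 < NN m ∧ lc m occ E τ y1 = d ∧ lc m occ E τ y2 = d ∧
        ∀ y' < NN m, lc m occ E τ y' = d → y' = y1 ∨ y' = y2 := by
  have hne : lc m occ E τ y ≠ lam m occ y := by omega
  rcases cases4 m occ y with h | h | h | h
  · rw [lc_P0 h, lam_P0 h] at hne; omega
  · exact absurd (lc_K1 h) hne
  · exact absurd (lc_K2 h) hne
  obtain ⟨f1, f2, f3, f4, f5⟩ := facts_K3 hg h
  rcases hτ : τ ((y - KK m) / 2 / KK m / 5) with _ | _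
  swap
  · exact absurd (lc_K3_true h hτ) hne
  have hyy := h.1
  -- the key: a good index `e`
  have key : ∃ e, 1 ≤ e ∧ e ≤ E ((y - KK m) / 2 / KK m / 5) ∧
      d = NN m * (RR m + 1 + (y - KK m) / 2 / KK m / 5) + (e - 1) ∧
      UU m g ((y - KK m) / 2 / KK m / 5) e < y ∧
      y < KK m + 2 * g ((y - KK m) / 2 / KK m / 5) e + 1 := by
    rw [lam_K3 h] at h1
    rw [lc_K3_false h hτ] at h2
    set i := (y - KK m) / 2 / KK m / 5 with hi
    set e' := ev m occ ((y - KK m) / 2) with he'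
    by_cases h0 : e' = 0
    · -- e' = 0
      rw [h0] at f5 h1 h2
      have hd : (y - KK m) % 2 = 1 ∧ d = NN m * (RR m + 1 + i) := by
        split_ifs at h2 <;> omega
      refine ⟨1, le_refl _, by omega, by omega, ?_, ?_⟩
      · unfold UU; rw [if_pos rfl]; omega
      · have := g_mono hg f1 (show 0 < 1 by omega) (by omega)
        omega
    · rw [if_neg h0, if_neg h0] at h2
      have hp : (y - KK m) % 2 = 0 := by
        by_contra hp
        rw [if_neg hp] at h2
        omega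
      rw [if_pos hp] at h2
      have hUlt : UU m g i e' < y := by
        unfold UU
        split_ifs with ha hb
        · have := g_mono hg f1 (show 0 < e' by omega) f2
          omega
        · have := g_mono hg f1 (show 0 < e' by omega) f2
          omega
        · have := g_mono hg f1 (show e' - 2 < e' by omega) f2
          omega
      by_cases hd : d = NN m * (RR m + 1 + i) + (e' - 1)
      · exact ⟨e', by omega, f2, hd, hUlt, by omega⟩
      · have hE : e' + 1 ≤ E i := by omega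
        refine ⟨e' + 1, by omega, hE, by omega, ?_, ?_⟩
        · unfold UU
          split_ifs with ha hb
          · omega
          · have := g_mono hg f1 (show 0 < e' by omega) f2
            omega
          · have := g_mono hg f1 (show e' + 1 - 2 < e' by omega) f2
            omega
        · have := g_mono hg f1 (show e' < e' + 1 by omega) hE
          omega
  obtain ⟨e, he1, he2, hd, hlt1, hlt2⟩ := key
  obtain ⟨h5, h6, h7⟩ := isKind_g hg f1 he2 (Or.inr rfl)
  have hgT := lc_gT_LP hg f1 he2 hτ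
  rw [if_neg (by omega), ← hd] at hgT
  have hyne : y ≠ KK m + 2 * g ((y - KK m) / 2 / KK m / 5) e + 1 := by
    omega
  refine ⟨_, _, hlt1, hlt2, h7, ?_, hgT, ?_⟩
  · rw [hd]; exact lc_UU hg f1 he1 he2 hτ
  · intro y' hy' hd'
    rw [hd] at hd'
    exact class_UU hm hg f1 he1 he2 hτ hy' hd'

theorem lc_run_small (hm : 0 < m) {y1 y2 : ℕ} (hy2 : y2 < NN m)
    (h1 : P0 m occ y1 ∨ IsKind m occ 1 y1) (h2 : P0 m occ y2 ∨ IsKind m occ 1 y2)
    (h : lam m occ y1 = lam m occ y2) {y : ℕ} (hy : y1 ≤ y) (hy' : y ≤ y2) :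
    lam m occ y ≤ lam m occ y1 := by
  have hS4 := SS_mod4 m
  rcases eq_or_lt_of_le hy with he | hlt
  · rw [he]
  rcases eq_or_lt_of_le hy' with he | hlt'
  · rw [he, h]
  -- both rows lie in the same rainbow
  have key : IsKind m occ 1 y1 ∧ (y2 - KK m) / 2 / 4 = (y1 - KK m) / 2 / 4 ∧
      (y2 - KK m) / 2 % 4 < 3 := by
    rcases h1 with h1 | h1 <;> rcases h2 with h2 | h2
    · rw [lam_P0 h1, lam_P0 h2] at h; omega
    · rw [lam_P0 h1, lam_K1 h2] at h
      have h3 := kind_rb_t h2.2.2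
      have h4 := h2.1
      have h5 := h2.2.1
      exfalso
      omega
    · rw [lam_K1 h1, lam_P0 h2] at h
      have h3 := kind_rb_t h1.2.2
      have h4 := h1.1
      have h5 := h1.2.1
      exfalso
      have hK := KK_even m
      have h6 : (y2 - KK m) / 2 / 4 = (y1 - KK m) / 2 / 4 ∧ (y2 - KK m) / 2 % 4 < 3 ∧
          KK m ≤ y2 ∧ y2 < KK m + 2 * SS m := by omega
      have h7 := kind_rb h1.2.2 h6.1 h6.2.1
      unfold P0 at h2
      omega
    · rw [lam_K1 h1, lam_K1 h2] at h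
      have h3 := kind_rb_t h1.2.2
      have h4 := h1.1
      have h5 := h1.2.1
      have h3' := kind_rb_t h2.2.2
      have h4' := h2.1
      have h5' := h2.2.1
      refine ⟨h1, ?_, h3'⟩
      omega
  obtain ⟨k1, k2, k3⟩ := key
  have a1 := kind_rb_t k1.2.2
  have a2 := k1.1
  have a3 := k1.2.1
  have ky : IsKind m occ 1 y := by
    refine ⟨by omega, by omega, kind_rb k1.2.2 (by omega) (by omega)⟩
  have ky2 : IsKind m occ 1 y2 := by
    refine ⟨by omega, by omega, kind_rb k1.2.2 (by omega) (by omega)⟩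
  rw [lam_K1 k1, lam_K1 ky2] at h
  rw [lam_K1 k1, lam_K1 ky]
  omega

theorem lc_run (hm : 0 < m) (hg : ChainEnum m occ E g) {y1 y2 : ℕ} (hy2 : y2 < NN m)
    (h : lc m occ E τ y1 = lc m occ E τ y2) {y : ℕ} (hy : y1 ≤ y) (hy' : y ≤ y2) :
    lam m occ y ≤ lc m occ E τ y1 := by
  have hN0 : 0 < NN m := by have := NN_gt hm; omega
  have hy1 : y1 < NN m := by omega
  have hyN : y < NN m := by omega
  have hdiv : ∀ y < NN m, (P0 m occ y ∨ IsKind m occ 1 y) → lc m occ E τ y / NN m = 0 := by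
    intro y hy h'
    exact Nat.div_eq_of_lt (lc_div_small (E := E) (τ := τ) hm hy h').1
  have hdiv2 : ∀ y, IsKind m occ 2 y →
      lc m occ E τ y / NN m = (y - KK m) / 2 / KK m + 1 ∧ (y - KK m) / 2 / KK m < RR m := by
    intro y h'
    refine ⟨?_, div_lt_RR (by have := h'.1; have := h'.2.1; omega)⟩
    rw [lc_K2 h', lam_K2 h', Nat.mul_div_cancel_left _ hN0]
  have hdiv3 : ∀ y, IsKind m occ 3 y →
      lc m occ E τ y / NN m = RR m + 1 + (y - KK m) / 2 / KK m / 5 := by
    intro y h'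
    obtain ⟨c', hc', he⟩ := band_K3 (τ := τ) hm hg h'
    rw [he, Nat.mul_add_div hN0, Nat.div_eq_of_lt hc', add_zero]
  have hsmallN : ∀ y < NN m, (P0 m occ y ∨ IsKind m occ 1 y) → lam m occ y < NN m :=
    fun y hy h' => (lc_div_small (E := E) (τ := τ) hm hy h').2.1
  have z1 := Nat.zero_le ((y1 - KK m) / 2 / KK m)
  have z2 := Nat.zero_le ((y2 - KK m) / 2 / KK m)
  have z3 := Nat.zero_le ((y - KK m) / 2 / KK m)
  have c1 := cases3 m occ y1
  have c2 := cases3 m occ y2
  have cy := cases3 m occ y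
  rcases c1 with a1 | a1 | a1
  · -- small
    have d1 := hdiv y1 hy1 a1
    rcases c2 with a2 | a2 | a2
    · rw [(lc_div_small (E := E) (τ := τ) hm hy1 a1).2.2]
      apply lc_run_small hm hy2 a1 a2 _ hy hy'
      rw [← (lc_div_small (E := E) (τ := τ) hm hy1 a1).2.2,
        ← (lc_div_small (E := E) (τ := τ) hm hy2 a2).2.2, h]
    · have := hdiv2 y2 a2; rw [← h] at this; omega
    · have := hdiv3 y2 a2; rw [← h] at this; omega
  · -- hub
    have d1 := hdiv2 y1 a1
    have hge : NN m ≤ lc m occ E τ y1 := by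
      rw [lc_K2 a1, lam_K2 a1]; exact Nat.le_mul_of_pos_right _ (by omega)
    have b1 := a1.1
    have b2 := a1.2.1
    rcases c2 with a2 | a2 | a2
    · have := hdiv y2 hy2 a2; rw [← h] at this; omega
    · have d2 := hdiv2 y2 a2
      rw [← h] at d2
      have b3 := a2.1
      have b4 := a2.2.1
      have hρ : (y - KK m) / 2 / KK m = (y1 - KK m) / 2 / KK m := by
        have e1 : (y1 - KK m) / 2 / KK m ≤ (y - KK m) / 2 / KK m :=
          Nat.div_le_div_right (by omega)
        have e2 : (y - KK m) / 2 / KK m ≤ (y2 - KK m) / 2 / KK m :=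
          Nat.div_le_div_right (by omega)
        omega
      rcases cy with ay | ay | ay
      · have := hsmallN y hyN ay; omega
      · rw [lam_K2 ay, hρ, ← lam_K2 a1, lc_K2 a1]
      · have e1 := kind_two_mod a1.2.2
        have e2 := kind_three_mod ay.2.2
        rw [hρ] at e2; omega
    · have := hdiv3 y2 a2; rw [← h] at this; omega
  · -- chain
    have d1 := hdiv3 y1 a1
    have hge : NN m * (RR m + 1) ≤ lc m occ E τ y1 := by
      obtain ⟨c', hc', he⟩ := band_K3 (τ := τ) hm hg a1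
      rw [he]
      have : NN m * (RR m + 1) ≤ NN m * (RR m + 1 + (y1 - KK m) / 2 / KK m / 5) :=
        Nat.mul_le_mul_left _ (by omega)
      omega
    have b1 := a1.1
    have b2 := a1.2.1
    rcases c2 with a2 | a2 | a2
    · have := hdiv y2 hy2 a2; rw [← h] at this; omega
    · have := hdiv2 y2 a2; rw [← h] at this; omega
    · have d2 := hdiv3 y2 a2
      rw [← h] at d2
      have b3 := a2.1
      have b4 := a2.2.1
      have hi : (y - KK m) / 2 / KK m / 5 = (y2 - KK m) / 2 / KK m / 5 := by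
        have e1 : (y1 - KK m) / 2 / KK m ≤ (y - KK m) / 2 / KK m :=
          Nat.div_le_div_right (by omega)
        have e2 : (y - KK m) / 2 / KK m ≤ (y2 - KK m) / 2 / KK m :=
          Nat.div_le_div_right (by omega)
        omega
      rcases cy with ay | ay | ay
      · have h5 := hsmallN y hyN ay
        have : NN m ≤ NN m * (RR m + 1) := Nat.le_mul_of_pos_right _ (by omega)
        omega
      · have h5 := (hdiv2 y ay).2
        rw [lam_K2 ay]
        have : NN m * ((y - KK m) / 2 / KK m + 1) ≤ NN m * (RR m + 1) :=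
          Nat.mul_le_mul_left _ (by omega)
        omega
      · have h6 : lam m occ y ≤ lam m occ y2 := by
          rw [lam_K3 ay, lam_K3 a2, hi]
          have := ev_mono (occ := occ) (show (y - KK m) / 2 ≤ (y2 - KK m) / 2 by omega) hi
          omega
        have h7 := lam_le_lc (τ := τ) hg y2
        omega

theorem lc_lt (hm : 0 < m) (hg : ChainEnum m occ E g) {y : ℕ} (hy : y < NN m) :
    lc m occ E τ y < NN m * (RR m + 3 * m + 2) := by
  have hN0 : 0 < NN m := by have := NN_gt hm; omega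
  have c1 := cases3 m occ y
  rcases c1 with h | h | h
  · have h1 := (lc_div_small (E := E) (τ := τ) hm hy h).1
    have : NN m ≤ NN m * (RR m + 3 * m + 2) := Nat.le_mul_of_pos_right _ (by omega)
    omega
  · have : (y - KK m) / 2 / KK m < RR m := div_lt_RR (by have := h.1; have := h.2.1; omega)
    rw [lc_K2 h, lam_K2 h]
    exact Nat.mul_lt_mul_of_pos_left (by omega) hN0
  · obtain ⟨c', hc', he⟩ := band_K3 (τ := τ) hm hg h
    obtain ⟨f1, f2, f3, f4, f5⟩ := facts_K3 hg h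
    rw [he]
    have : NN m * (RR m + 1 + (y - KK m) / 2 / KK m / 5 + 1) ≤ NN m * (RR m + 3 * m + 2) :=
      Nat.mul_le_mul_left _ (by omega)
    rw [mul_add, mul_one] at this
    omega

end helper528

theorem lc_props (m : ℕ) (hm : 0 < m) (occ : Bool → ℕ → ℕ → Bool) (E : ℕ → ℕ) (g : ℕ → ℕ → ℕ)
    (hg : ChainEnum m occ E g) (τ : ℕ → Bool) :
    (∀ y < NN m, lam m occ y ≤ lc m occ E τ y) ∧
    (∀ y < NN m, lc m occ E τ y < NN m * (RR m + 3 * m + 2)) ∧
    (∀ y < NN m, ∀ d, lam m occ y ≤ d → d < lc m occ E τ y →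
      ∃ y1 y2, y1 < y ∧ y < y2 ∧ y2 < NN m ∧ lc m occ E τ y1 = d ∧ lc m occ E τ y2 = d ∧
        ∀ y' < NN m, lc m occ E τ y' = d → y' = y1 ∨ y' = y2) ∧
    (∀ y1 y2, y2 < NN m → lc m occ E τ y1 = lc m occ E τ y2 →
      ∀ y, y1 ≤ y → y ≤ y2 → lam m occ y ≤ lc m occ E τ y1) := by
  exact ⟨fun y _ => lam_le_lc hg y, fun y hy => lc_lt hm hg hy,
    fun y _ d h1 h2 => lc_pairs hm hg h1 h2,
    fun y1 y2 hy2 h y h1 h2 => lc_run hm hg hy2 h h1 h2⟩

end Pool.Agent.Helper408_MT
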