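import Pool.Agent.Helper408_MT.Defs
import Pool.Agent.NPC.Dec
import Pool.Agent.NPC.Sat2

/-!
# The instance map is polynomial time computable
-/

set_option autoImplicit false

namespace Pool.Agent.Helper408_MT

open Pool.Agent.NPC

section PolyInst

variable {α : Type} [TEnc α]

/-- abbreviation for the input type -/
abbrev Fm := List (Lit ℕ × Lit ℕ × Lit ℕ)

lemma pi_KK {m : α → ℕ} (hm : Poly m) : Poly (fun a => KK (m a)) :=
  NPC.Poly.mul (NPC.Poly.const 4) (NPC.Poly.add hm (NPC.Poly.const 2))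

lemma pi_RR {m : α → ℕ} (hm : Poly m) : Poly (fun a => RR (m a)) :=
  NPC.Poly.add (NPC.Poly.mul (NPC.Poly.const 15) hm) (NPC.Poly.const 1)

lemma pi_SS {m : α → ℕ} (hm : Poly m) : Poly (fun a => SS (m a)) :=
  NPC.Poly.mul (pi_RR hm) (pi_KK hm)

lemma pi_NN {m : α → ℕ} (hm : Poly m) : Poly (fun a => NN (m a)) :=
  NPC.Poly.add (NPC.Poly.mul (NPC.Poly.const 2) (pi_SS hm)) (NPC.Poly.mul (NPC.Poly.const 2) (pi_KK hm))

lemma pi_MM {m : α → ℕ} (hm : Poly m) : Poly (fun a => MM (m a)) :=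
  NPC.Poly.mul (pi_NN hm) (NPC.Poly.add (NPC.Poly.add (pi_RR hm) (NPC.Poly.mul (NPC.Poly.const 3) hm)) (NPC.Poly.const 5))

lemma pi_uNN {φ : α → Fm} (hφ : Poly φ) : UPoly (fun a => NN (φ a).length) := by
  have hm : UPoly (fun a => (φ a).length) := UPoly.length hφ
  have hK : UPoly (fun a => KK (φ a).length) := UPoly.mul (UPoly.const 4) (UPoly.add hm (UPoly.const 2))
  have hR : UPoly (fun a => RR (φ a).length) := UPoly.add (UPoly.mul (UPoly.const 15) hm) (UPoly.const 1)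
  exact UPoly.add (UPoly.mul (UPoly.const 2) (UPoly.mul hR hK)) (UPoly.mul (UPoly.const 2) hK)

lemma pi_uMM {φ : α → Fm} (hφ : Poly φ) : UPoly (fun a => MM (φ a).length) := by
  have hm : UPoly (fun a => (φ a).length) := UPoly.length hφ
  have hR : UPoly (fun a => RR (φ a).length) := UPoly.add (UPoly.mul (UPoly.const 15) hm) (UPoly.const 1)
  exact UPoly.mul (pi_uNN hφ) (UPoly.add (UPoly.add hR (UPoly.mul (UPoly.const 3) hm)) (UPoly.const 5))

lemma pi_occ {φ : α → Fm} {b : α → Bool} {i j : α → ℕ} (hφ : Poly φ) (hb : Poly b) (hi : Poly i)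
    (hj : Poly j) : Poly (fun a => occOf (φ a) (b a) (i a) (j a)) := by
  have h1 : Poly (fun a => (φ a)[j a]?) := NPC.Poly.getElem? hφ hj
  have hbi : Poly (fun p : α × (Lit ℕ × Lit ℕ × Lit ℕ) => ((b p.1, i p.1) : Lit ℕ)) :=
    NPC.Poly.pair (hb.comp (NPC.Poly.fst NPC.Poly.id)) (hi.comp (NPC.Poly.fst NPC.Poly.id))
  refine (NPC.Poly.optCases (g := fun _ => false)
    (h := fun a (c : Lit ℕ × Lit ℕ × Lit ℕ) => decide (c.1 = (b a, i a)) ||
      (decide (c.2.1 = (b a, i a)) || decide (c.2.2 = (b a, i a)))) h1 (NPC.Poly.const _) ?_).congr ?_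
  · refine NPC.Poly.or (NPC.Poly.decide_eq (NPC.Poly.fst (NPC.Poly.snd NPC.Poly.id)) hbi)
      (NPC.Poly.or (NPC.Poly.decide_eq (NPC.Poly.fst (NPC.Poly.snd (NPC.Poly.snd NPC.Poly.id))) hbi)
        (NPC.Poly.decide_eq (NPC.Poly.snd (NPC.Poly.snd (NPC.Poly.snd NPC.Poly.id))) hbi))
  · intro a
    simp only [occOf]
    cases (φ a)[j a]? <;> rfl

lemma pi_kind {φ : α → Fm} {s : α → ℕ} (hφ : Poly φ) (hs : Poly s) :
    Poly (fun a => kind (φ a).length (occOf (φ a)) (s a)) := by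
  have hm : Poly (fun a => (φ a).length) := NPC.Poly.length hφ
  have hK := pi_KK hm
  have hsK : Poly (fun a => s a / KK (φ a).length) := NPC.Poly.div hs hK
  have hsK5 : Poly (fun a => s a / KK (φ a).length % 5) := NPC.Poly.mod hsK (NPC.Poly.const 5)
  have hs4 : Poly (fun a => s a / 4 % ((φ a).length + 2)) :=
    NPC.Poly.mod (NPC.Poly.div hs (NPC.Poly.const 4)) (NPC.Poly.add hm (NPC.Poly.const 2))
  have hsm4 : Poly (fun a => s a % 4) := NPC.Poly.mod hs (NPC.Poly.const 4)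
  have hm1 : Poly (fun a => (φ a).length + 1) := NPC.Poly.add hm (NPC.Poly.const 1)
  have hocc : ∀ b : Bool, Poly (fun a => decide (occOf (φ a) b (s a / KK (φ a).length / 5)
      (s a / 4 % ((φ a).length + 2) - 1) = true)) := fun b =>
    NPC.Poly.decide_bool (pi_occ hφ (NPC.Poly.const b) (NPC.Poly.div hsK (NPC.Poly.const 5)) (NPC.Poly.sub hs4 (NPC.Poly.const 1)))
  unfold kind
  refine NPC.Poly.ite (NPC.Poly.decide_or (NPC.Poly.decide_eq hsK5 (NPC.Poly.const 0)) (NPC.Poly.decide_eq hsK5 (NPC.Poly.const 3))) ?_ ?_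
  · exact NPC.Poly.ite (NPC.Poly.decide_or (NPC.Poly.decide_eq hs4 (NPC.Poly.const 0))
      (NPC.Poly.decide_or (NPC.Poly.decide_eq hs4 hm1) (NPC.Poly.decide_lt hsm4 (NPC.Poly.const 2)))) (NPC.Poly.const _) (NPC.Poly.const _)
  refine NPC.Poly.ite (NPC.Poly.decide_eq hsK5 (NPC.Poly.const 1)) ?_ ?_
  · refine NPC.Poly.ite (NPC.Poly.decide_eq hs4 (NPC.Poly.const 0)) (NPC.Poly.const _) ?_
    refine NPC.Poly.ite (NPC.Poly.decide_or (NPC.Poly.decide_eq hs4 hm1) (NPC.Poly.decide_eq hsm4 (NPC.Poly.const 3))) (NPC.Poly.const _) ?_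
    exact NPC.Poly.ite (hocc true) (NPC.Poly.const _) (NPC.Poly.const _)
  refine NPC.Poly.ite (NPC.Poly.decide_eq hsK5 (NPC.Poly.const 2)) ?_ ?_
  · exact NPC.Poly.ite (NPC.Poly.decide_or (NPC.Poly.decide_eq hs4 (NPC.Poly.const 0))
      (NPC.Poly.decide_or (NPC.Poly.decide_eq hs4 hm1) (NPC.Poly.decide_eq hsm4 (NPC.Poly.const 3)))) (NPC.Poly.const _) (NPC.Poly.const _)
  refine NPC.Poly.ite (NPC.Poly.decide_eq hs4 hm1) (NPC.Poly.const _) ?_
  refine NPC.Poly.ite (NPC.Poly.decide_or (NPC.Poly.decide_eq hs4 (NPC.Poly.const 0)) (NPC.Poly.decide_eq hsm4 (NPC.Poly.const 3)))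
    (NPC.Poly.const _) ?_
  exact NPC.Poly.ite (hocc false) (NPC.Poly.const _) (NPC.Poly.const _)

/-- `ev` with a fixed range -/
def ev' (φ : Fm) (s : ℕ) : ℕ :=
  ((List.range (NN φ.length)).filter
    (fun s' => decide (s' < s) && (decide (kind φ.length (occOf φ) s' = 3) &&
      decide (s' / KK φ.length / 5 = s / KK φ.length / 5)))).length

lemma ev'_eq (φ : Fm) (s : ℕ) (hs : s ≤ NN φ.length) : ev' φ s = ev φ.length (occOf φ) s := by
  unfold ev' ev
  congr 1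
  obtain ⟨d, hd⟩ := Nat.exists_eq_add_of_le hs
  rw [hd, List.range_add, List.filter_append]
  have h2 : ((List.range d).map (fun x => s + x)).filter (fun s' => decide (s' < s) &&
      (decide (kind φ.length (occOf φ) s' = 3) &&
      decide (s' / KK φ.length / 5 = s / KK φ.length / 5))) = [] := by
    rw [List.filter_eq_nil_iff]
    intro k hk
    simp only [List.mem_map] at hk
    obtain ⟨x, _, rfl⟩ := hk
    simp
  rw [h2, List.append_nil]
  apply List.filter_congr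
  intro x hx
  have : x < s := List.mem_range.1 hx
  simp [this]

lemma pi_ev {φ : α → Fm} {s : α → ℕ} (hφ : Poly φ) (hs : Poly s) : Poly (fun a => ev' (φ a) (s a)) := by
  unfold ev'
  refine NPC.Poly.length (NPC.Poly.filter (p := fun a s' => decide (s' < s a) &&
    (decide (kind (φ a).length (occOf (φ a)) s' = 3) &&
      decide (s' / KK (φ a).length / 5 = s a / KK (φ a).length / 5))) (pi_uNN hφ).range ?_)
  have hφ1 : Poly (fun p : α × ℕ => φ p.1) := hφ.comp (NPC.Poly.fst NPC.Poly.id)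
  have hs1 : Poly (fun p : α × ℕ => s p.1) := hs.comp (NPC.Poly.fst NPC.Poly.id)
  have h2 : Poly (fun p : α × ℕ => p.2) := NPC.Poly.snd NPC.Poly.id
  have hK : Poly (fun p : α × ℕ => KK (φ p.1).length) := pi_KK (NPC.Poly.length hφ1)
  exact NPC.Poly.and (NPC.Poly.decide_lt h2 hs1) (NPC.Poly.and (NPC.Poly.decide_eq (pi_kind hφ1 h2) (NPC.Poly.const 3))
    (NPC.Poly.decide_eq (NPC.Poly.div (NPC.Poly.div h2 hK) (NPC.Poly.const 5)) (NPC.Poly.div (NPC.Poly.div hs1 hK) (NPC.Poly.const 5))))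

/-- `lamStep` with `ev'` -/
def lamStep' (φ : Fm) (s y : ℕ) : ℕ :=
  if kind φ.length (occOf φ) s = 0 then y / 2 * 2 + 1
  else if kind φ.length (occOf φ) s = 1 then max y (2 * (KK φ.length + 8 * (s / 4)) + 5 - y)
  else if kind φ.length (occOf φ) s = 2 then NN φ.length * (s / KK φ.length + 1)
  else NN φ.length * (RR φ.length + 1 + s / KK φ.length / 5) + (ev' φ s - 1)

/-- `lam` with `lamStep'` -/
def lam' (φ : Fm) (y : ℕ) : ℕ :=
  if y < KK φ.length ∨ KK φ.length + 2 * SS φ.length ≤ y then y / 2 * 2 + 1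
  else lamStep' φ ((y - KK φ.length) / 2) y

lemma lam'_eq (φ : Fm) (y : ℕ) (hy : y < NN φ.length) : lam' φ y = lam φ.length (occOf φ) y := by
  unfold lam' lam lamStep' lamStep
  rw [ev'_eq φ ((y - KK φ.length) / 2) (by omega)]

lemma pi_lam {φ : α → Fm} {y : α → ℕ} (hφ : Poly φ) (hy : Poly y) : Poly (fun a => lam' (φ a) (y a)) := by
  have hm : Poly (fun a => (φ a).length) := NPC.Poly.length hφ
  have hK := pi_KK hm
  have hS := pi_SS hm
  have hN := pi_NN hm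
  have hR := pi_RR hm
  have hs : Poly (fun a => (y a - KK (φ a).length) / 2) := NPC.Poly.div (NPC.Poly.sub hy hK) (NPC.Poly.const 2)
  have hk := pi_kind hφ hs
  have he := pi_ev hφ hs
  have hyy : Poly (fun a => y a / 2 * 2 + 1) :=
    NPC.Poly.add (NPC.Poly.mul (NPC.Poly.div hy (NPC.Poly.const 2)) (NPC.Poly.const 2)) (NPC.Poly.const 1)
  unfold lam' lamStep'
  refine NPC.Poly.ite (NPC.Poly.decide_or (NPC.Poly.decide_lt hy hK)
    (NPC.Poly.decide_le (NPC.Poly.add hK (NPC.Poly.mul (NPC.Poly.const 2) hS)) hy)) hyy ?_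
  refine NPC.Poly.ite (NPC.Poly.decide_eq hk (NPC.Poly.const 0)) hyy ?_
  refine NPC.Poly.ite (NPC.Poly.decide_eq hk (NPC.Poly.const 1)) (NPC.Poly.max hy (NPC.Poly.sub (NPC.Poly.add (NPC.Poly.mul (NPC.Poly.const 2)
    (NPC.Poly.add hK (NPC.Poly.mul (NPC.Poly.const 8) (NPC.Poly.div hs (NPC.Poly.const 4))))) (NPC.Poly.const 5)) hy)) ?_
  refine NPC.Poly.ite (NPC.Poly.decide_eq hk (NPC.Poly.const 2)) (NPC.Poly.mul hN (NPC.Poly.add (NPC.Poly.div hs hK) (NPC.Poly.const 1))) ?_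
  exact NPC.Poly.add (NPC.Poly.mul hN (NPC.Poly.add (NPC.Poly.add hR (NPC.Poly.const 1)) (NPC.Poly.div (NPC.Poly.div hs hK) (NPC.Poly.const 5))))
    (NPC.Poly.sub he (NPC.Poly.const 1))

lemma pi_rho {m y : α → ℕ} (hm : Poly m) (hy : Poly y) : Poly (fun a => rho (m a) (y a)) := by
  have hK := pi_KK hm
  have hS := pi_SS hm
  unfold rho
  refine NPC.Poly.ite (NPC.Poly.decide_lt hy hK) (NPC.Poly.const 0) ?_
  refine NPC.Poly.ite (NPC.Poly.decide_lt hy (NPC.Poly.add hK (NPC.Poly.mul (NPC.Poly.const 2) hS)))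
    (NPC.Poly.div (NPC.Poly.sub hy hK) (NPC.Poly.const 2)) ?_
  exact NPC.Poly.sub (NPC.Poly.sub hy hK) hS

lemma pi_cast {n : α → ℕ} (hn : Poly n) : Poly (fun a => ((n a : ℕ) : ℤ)) := by
  apply NPC.Poly.of_toT
  have h : Poly (fun a => (false, n a)) := NPC.Poly.pair (NPC.Poly.const false) hn
  refine (NPC.Poly.toT' h).congr fun a => ?_
  change toT (false, n a) = toT (decide (((n a : ℕ) : ℤ) < 0), ((n a : ℕ) : ℤ).natAbs)
  have e1 : decide (((n a : ℕ) : ℤ) < 0) = false := by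
    rw [decide_eq_false_iff_not]; omega
  rw [e1, Int.natAbs_natCast]

/-- the map `inst` with `lam'` -/
def inst' (φ : Fm) : List (ℤ × ℤ) × ℕ :=
  ((List.range (NN φ.length)).flatMap (fun y : ℕ =>
    ((List.range (MM φ.length + 1)).filter (fun x : ℕ =>
      decide (lam' φ y ≤ x) && decide (x + rho φ.length y ≤ MM φ.length))).map
        (fun x : ℕ => ((x : ℤ), (y : ℤ)))), 2 * NN φ.length)

lemma inst'_eq (φ : Fm) : inst' φ = inst φ := by
  unfold inst' inst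
  congr 1
  apply List.flatMap_congr
  intro y hy
  rw [lam'_eq φ y (List.mem_range.1 hy)]

/-- the points of row `y` -/
def rowPts (φ : Fm) (y : ℕ) : List (ℤ × ℤ) :=
  ((List.range (MM φ.length + 1)).filter (fun x : ℕ =>
      decide (lam' φ y ≤ x) && decide (x + rho φ.length y ≤ MM φ.length))).map
        (fun x : ℕ => ((x : ℤ), (y : ℤ)))

lemma pi_row : NPC.Poly (fun p : Fm × ℕ => rowPts p.1 p.2) := by
  have h1 : NPC.Poly (fun p : Fm × ℕ => p.1) := NPC.Poly.fst NPC.Poly.id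
  have h11 : NPC.Poly (fun q : (Fm × ℕ) × ℕ => q.1.1) := NPC.Poly.fst (NPC.Poly.fst NPC.Poly.id)
  have h12 : NPC.Poly (fun q : (Fm × ℕ) × ℕ => q.1.2) := NPC.Poly.snd (NPC.Poly.fst NPC.Poly.id)
  have h22 : NPC.Poly (fun q : (Fm × ℕ) × ℕ => q.2) := NPC.Poly.snd NPC.Poly.id
  have h0 : NPC.Poly (fun p : Fm × ℕ => List.range (MM p.1.length + 1)) :=
    UPoly.range (UPoly.add (pi_uMM h1) (UPoly.const 1))
  have h3 : NPC.Poly (fun q : (Fm × ℕ) × ℕ => (decide (lam' q.1.1 q.1.2 ≤ q.2) &&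
      decide (q.2 + rho q.1.1.length q.1.2 ≤ MM q.1.1.length))) :=
    NPC.Poly.and (NPC.Poly.decide_le (pi_lam h11 h12) h22)
      (NPC.Poly.decide_le (NPC.Poly.add h22 (pi_rho (NPC.Poly.length h11) h12)) (pi_MM (NPC.Poly.length h11)))
  have h4 : NPC.Poly (fun p : Fm × ℕ => (List.range (MM p.1.length + 1)).filter (fun x : ℕ =>
      decide (lam' p.1 p.2 ≤ x) && decide (x + rho p.1.length p.2 ≤ MM p.1.length))) :=
    NPC.Poly.filter (p := fun (p : Fm × ℕ) (x : ℕ) => decide (lam' p.1 p.2 ≤ x) &&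
      decide (x + rho p.1.length p.2 ≤ MM p.1.length)) h0 h3
  have h5 : NPC.Poly (fun q : (Fm × ℕ) × ℕ => ((q.2 : ℤ), (q.1.2 : ℤ))) :=
    NPC.Poly.pair (pi_cast h22) (pi_cast h12)
  exact NPC.Poly.map (F := fun (p : Fm × ℕ) (x : ℕ) => ((x : ℤ), (p.2 : ℤ))) h4 h5

lemma pi_inst' : NPC.Poly inst' := by
  have hφ : NPC.Poly (fun φ : Fm => φ) := NPC.Poly.id
  have h1 : NPC.Poly (fun φ : Fm => List.range (NN φ.length)) := (pi_uNN hφ).range
  have h2 : NPC.Poly (fun φ : Fm => (List.range (NN φ.length)).flatMap (rowPts φ)) :=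
    NPC.Poly.flatMap (F := rowPts) h1 pi_row
  exact NPC.Poly.pair h2 (NPC.Poly.mul (NPC.Poly.const 2) (pi_NN (NPC.Poly.length hφ)))

end PolyInst

theorem poly_inst : Poly inst := pi_inst'.congr inst'_eq

end Pool.Agent.Helper408_MT
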