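import Pool.Agent.Helper408_MT.Turn

/-!
# From turn data to configurations
-/

set_option autoImplicit false

namespace Pool.Agent.Helper408_MT

section aux

variable {N M : ℕ} {lam rho : ℕ → ℕ} {t : ℤ × ℤ → ℕ}

theorem td_nat (h : TurnData (combF N M lam rho) (2 * N) t) {c : ℤ × ℤ} (hc : t c ≠ 0) :
    ∃ x y : ℕ, y < N ∧ lam y ≤ x ∧ x + rho y ≤ M ∧ c = ((x : ℤ), (y : ℤ)) := by
  by_contra hcon
  apply hc
  apply h.supp
  rw [mem_combF]
  exact hcon

theorem td_total (h : TurnData (combF N M lam rho) (2 * N) t) :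
    ∑ y ∈ Finset.range N, ∑ x ∈ Finset.range (M + 1), t ((x : ℤ), (y : ℤ)) ≤ 2 * N := by
  classical
  refine le_trans (le_of_eq ?_) h.sum_le
  have h1 : ∑ c ∈ combF N M lam rho, t c =
      ∑ c ∈ (Finset.range N ×ˢ Finset.range (M + 1)).image
        (fun p => ((p.2 : ℤ), (p.1 : ℤ))), t c := by
    apply Finset.sum_subset
    · exact Finset.image_subset_image (Finset.filter_subset _ _)
    · intro c _ hc
      exact h.supp c hc
  rw [h1, Finset.sum_image, Finset.sum_product]
  rintro ⟨a, b⟩ _ ⟨a', b'⟩ _ he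
  simp only [Prod.mk.injEq, Nat.cast_inj] at he
  exact Prod.ext he.2 he.1

theorem td_row (h : TurnData (combF N M lam rho) (2 * N) t) (y : ℕ) :
    Even (∑ x ∈ Finset.range (M + 1), t ((x : ℤ), (y : ℤ))) := by
  classical
  have h0 := h.row (y : ℤ)
  have h1 : ∑ c ∈ (combF N M lam rho).filter (fun c => c.2 = (y : ℤ)), t c =
      ∑ c ∈ (Finset.range (M + 1)).image (fun x : ℕ => ((x : ℤ), (y : ℤ))), t c := by
    apply Finset.sum_subset
    · intro c hc
      rw [Finset.mem_filter, mem_combF] at hc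
      obtain ⟨⟨x, y', h2, h3, h4, rfl⟩, h5⟩ := hc
      simp only at h5
      rw [Finset.mem_image]
      exact ⟨x, Finset.mem_range.2 (by omega), by rw [h5]⟩
    · intro c hc1 hc2
      by_contra hne
      apply hc2
      rw [Finset.mem_filter]
      obtain ⟨x, _, rfl⟩ := Finset.mem_image.1 hc1
      refine ⟨?_, rfl⟩
      by_contra hF
      exact hne (h.supp _ hF)
  rw [h1, Finset.sum_image] at h0
  · exact h0
  · intro a _ b _ he
    simpa using he

theorem td_col (h : TurnData (combF N M lam rho) (2 * N) t) (x : ℕ) :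
    Even (∑ y ∈ Finset.range N, t ((x : ℤ), (y : ℤ))) := by
  classical
  have h0 := h.col (x : ℤ)
  have h1 : ∑ c ∈ (combF N M lam rho).filter (fun c => c.1 = (x : ℤ)), t c =
      ∑ c ∈ (Finset.range N).image (fun y : ℕ => ((x : ℤ), (y : ℤ))), t c := by
    apply Finset.sum_subset
    · intro c hc
      rw [Finset.mem_filter, mem_combF] at hc
      obtain ⟨⟨x', y, h2, h3, h4, rfl⟩, h5⟩ := hc
      simp only at h5
      rw [Finset.mem_image]
      exact ⟨y, Finset.mem_range.2 h2, by rw [h5]⟩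
    · intro c hc1 hc2
      by_contra hne
      apply hc2
      rw [Finset.mem_filter]
      obtain ⟨y, _, rfl⟩ := Finset.mem_image.1 hc1
      refine ⟨?_, rfl⟩
      by_contra hF
      exact hne (h.supp _ hF)
  rw [h1, Finset.sum_image] at h0
  · exact h0
  · intro a _ b _ he
    simpa using he

/-- the column `x` has two turn cells outside the row `y`, on both sides -/
def VC (N : ℕ) (t : ℤ × ℤ → ℕ) (y x : ℕ) : Prop :=
  ∃ y1 y2 : ℕ, y1 < y ∧ y < y2 ∧ y2 < N ∧ t ((x : ℤ), (y1 : ℤ)) ≠ 0 ∧ t ((x : ℤ), (y2 : ℤ)) ≠ 0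

theorem td_count (h : TurnData (combF N M lam rho) (2 * N) t) {y : ℕ} (hy : y < N)
    (X : Finset ℕ) (hX : ∀ x ∈ X, x ≤ M ∧ VC N t y x) :
    2 * X.card + ∑ x ∈ Finset.range (M + 1), t ((x : ℤ), (y : ℤ)) ≤ 2 * N := by
  classical
  have h1 := td_total h
  rw [← Finset.add_sum_erase _ _ (Finset.mem_range.2 hy)] at h1
  have h2 : 2 * X.card ≤ ∑ y' ∈ (Finset.range N).erase y,
      ∑ x ∈ Finset.range (M + 1), t ((x : ℤ), (y' : ℤ)) := by
    rw [Finset.sum_comm]
    calc 2 * X.card = ∑ _x ∈ X, 2 := by rw [Finset.sum_const, smul_eq_mul, mul_comm]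
      _ ≤ ∑ x ∈ X, ∑ y' ∈ (Finset.range N).erase y, t ((x : ℤ), (y' : ℤ)) := by
        apply Finset.sum_le_sum
        intro x hx
        obtain ⟨-, y1, y2, a1, a2, a3, a4, a5⟩ := hX x hx
        have hsub : ({y1, y2} : Finset ℕ) ⊆ (Finset.range N).erase y := by
          intro v hv
          rw [Finset.mem_insert, Finset.mem_singleton] at hv
          rw [Finset.mem_erase, Finset.mem_range]
          omega
        calc 2 ≤ t ((x : ℤ), (y1 : ℤ)) + t ((x : ℤ), (y2 : ℤ)) := by omega
          _ = ∑ y' ∈ ({y1, y2} : Finset ℕ), t ((x : ℤ), (y' : ℤ)) := by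
            rw [Finset.sum_pair (by omega)]
          _ ≤ _ := Finset.sum_le_sum_of_subset hsub
      _ ≤ _ := by
        apply Finset.sum_le_sum_of_subset
        intro x hx
        rw [Finset.mem_range]
        have := (hX x hx).1
        omega
  omega

/-- a cell of a row is a turn cell, or has turn cells on both sides in its row, or is covered
vertically -/
theorem td_cov (h : TurnData (combF N M lam rho) (2 * N) t) {y x : ℕ} (hy : y < N)
    (h1 : lam y ≤ x) (h2 : x + rho y ≤ M) : t ((x : ℤ), (y : ℤ)) ≠ 0 ∨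
    (∃ a b : ℕ, a < x ∧ x < b ∧ b ≤ M ∧ t ((a : ℤ), (y : ℤ)) ≠ 0 ∧ t ((b : ℤ), (y : ℤ)) ≠ 0) ∨
    VC N t y x := by
  rcases h.cov ((x : ℤ), (y : ℤ)) (mem_combF.2 ⟨x, y, hy, h1, h2, rfl⟩) with h3 | h3 | h3
  · exact Or.inl h3
  · obtain ⟨a, b, ha, hb, hta, htb⟩ := h3
    obtain ⟨a', ya, -, -, ha4, ha5⟩ := td_nat h hta
    obtain ⟨b', yb, -, -, hb4, hb5⟩ := td_nat h htb
    simp only [Prod.mk.injEq] at ha5 hb5 ha hb
    rw [ha5.1] at hta ha
    rw [hb5.1] at htb hb
    exact Or.inr (Or.inl ⟨a', b', by omega, by omega, by omega, hta, htb⟩)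
  · obtain ⟨a, b, ha, hb, hta, htb⟩ := h3
    obtain ⟨xa, a', ha2, -, -, ha5⟩ := td_nat h hta
    obtain ⟨xb, b', hb2, -, -, hb5⟩ := td_nat h htb
    simp only [Prod.mk.injEq] at ha5 hb5 ha hb
    rw [ha5.2] at hta ha
    rw [hb5.2] at htb hb
    exact Or.inr (Or.inr ⟨a', b', by omega, by omega, by omega, hta, htb⟩)

theorem td_rowsum (hN : 0 < N) (ZL ZR : ℕ) (hlam : ∀ y < N, lam y ≤ ZL)
    (hrho : ∀ y < N, rho y ≤ ZR) (hM : ZL + ZR + 2 * N + 2 ≤ M)
    (h : TurnData (combF N M lam rho) (2 * N) t) {y : ℕ} (hy : y < N) :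
    ∑ x ∈ Finset.range (M + 1), t ((x : ℤ), (y : ℤ)) = 2 := by
  classical
  have hge : ∀ y < N, 2 ≤ ∑ x ∈ Finset.range (M + 1), t ((x : ℤ), (y : ℤ)) := by
    intro y hy
    by_contra hlt
    have hev := td_row h y
    have h0 : ∑ x ∈ Finset.range (M + 1), t ((x : ℤ), (y : ℤ)) = 0 := by
      obtain ⟨k, hk⟩ := hev
      omega
    have hz : ∀ x : ℕ, x ≤ M → t ((x : ℤ), (y : ℤ)) = 0 := by
      intro x hx
      rw [Finset.sum_eq_zero_iff] at h0
      exact h0 x (Finset.mem_range.2 (by omega))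
    have h1 := td_count h hy (Finset.Icc (lam y) (M - rho y)) (by
      intro x hx
      rw [Finset.mem_Icc] at hx
      have a1 := hlam y hy
      have a2 := hrho y hy
      refine ⟨by omega, ?_⟩
      rcases td_cov h hy hx.1 (by omega) with h3 | ⟨a, b, ha, _, _, hta, _⟩ | h3
      · exact absurd (hz x (by omega)) h3
      · exact absurd (hz a (by omega)) hta
      · exact h3)
    rw [Nat.card_Icc] at h1
    have a1 := hlam y hy
    have a2 := hrho y hy
    omega
  have htot := td_total h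
  by_contra hne
  have hgt : 3 ≤ ∑ x ∈ Finset.range (M + 1), t ((x : ℤ), (y : ℤ)) := by
    have := hge y hy
    omega
  rw [← Finset.add_sum_erase _ _ (Finset.mem_range.2 hy)] at htot
  have h2 : ∑ y' ∈ (Finset.range N).erase y, 2 ≤ ∑ y' ∈ (Finset.range N).erase y,
      ∑ x ∈ Finset.range (M + 1), t ((x : ℤ), (y' : ℤ)) := by
    apply Finset.sum_le_sum
    intro y' hy'
    exact hge y' (Finset.mem_range.1 (Finset.mem_of_mem_erase hy'))
  rw [Finset.sum_const, smul_eq_mul, Finset.card_erase_of_mem (Finset.mem_range.2 hy),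
    Finset.card_range] at h2
  omega

theorem td_data (hN : 0 < N) (ZL ZR : ℕ) (hlam : ∀ y < N, lam y ≤ ZL)
    (hrho : ∀ y < N, rho y ≤ ZR) (hM : ZL + ZR + 2 * N + 2 ≤ M)
    (h : TurnData (combF N M lam rho) (2 * N) t) (y : ℕ) (hy : y < N) :
    ∃ a r : ℕ, lam y ≤ a ∧ a ≤ ZL + (N - 1) ∧ rho y ≤ r ∧ r ≤ ZR + (N - 1) ∧
      t ((a : ℤ), (y : ℤ)) = 1 ∧ t (((M - r : ℕ) : ℤ), (y : ℤ)) = 1 ∧
      ∀ x : ℕ, t ((x : ℤ), (y : ℤ)) ≠ 0 → x = a ∨ x = M - r := by
  classical
  have hsum := td_rowsum hN ZL ZR hlam hrho hM h hy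
  have hL := hlam y hy
  have hR := hrho y hy
  set S := (Finset.range (M + 1)).filter (fun x : ℕ => t ((x : ℤ), (y : ℤ)) ≠ 0) with hS
  have hSne : S.Nonempty := by
    by_contra hcon
    rw [Finset.not_nonempty_iff_eq_empty, hS, Finset.filter_eq_empty_iff] at hcon
    have : ∑ x ∈ Finset.range (M + 1), t ((x : ℤ), (y : ℤ)) = 0 := by
      apply Finset.sum_eq_zero
      intro x hx
      have := hcon hx
      push Not at this
      exact this
    omega
  have hmemS : ∀ x : ℕ, t ((x : ℤ), (y : ℤ)) ≠ 0 → x ∈ S := by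
    intro x hx
    obtain ⟨x', y', _, _, h4, h5⟩ := td_nat h hx
    simp only [Prod.mk.injEq, Nat.cast_inj] at h5
    rw [hS, Finset.mem_filter, Finset.mem_range]
    exact ⟨by omega, hx⟩
  have hSval : ∀ x ∈ S, t ((x : ℤ), (y : ℤ)) ≠ 0 ∧ lam y ≤ x ∧ x + rho y ≤ M := by
    intro x hx
    rw [hS, Finset.mem_filter] at hx
    obtain ⟨x', y', _, h3, h4, h5⟩ := td_nat h hx.2
    simp only [Prod.mk.injEq, Nat.cast_inj] at h5
    obtain ⟨h6, h7⟩ := h5
    subst h6 h7
    exact ⟨hx.2, h3, h4⟩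
  obtain ⟨a, ha⟩ : ∃ a, a = S.min' hSne := ⟨_, rfl⟩
  obtain ⟨b, hb⟩ : ∃ b, b = S.max' hSne := ⟨_, rfl⟩
  have haS : a ∈ S := ha ▸ Finset.min'_mem S hSne
  have hbS : b ∈ S := hb ▸ Finset.max'_mem S hSne
  have hmin : ∀ x ∈ S, a ≤ x := fun x hx => ha ▸ Finset.min'_le S x hx
  have hmax : ∀ x ∈ S, x ≤ b := fun x hx => hb ▸ Finset.le_max' S x hx
  obtain ⟨ha1, ha2, ha3⟩ := hSval a haS
  obtain ⟨hb1, hb2, hb3⟩ := hSval b hbS
  have c1 := td_count h hy (Finset.Ico (lam y) a) (by
    intro x hx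
    rw [Finset.mem_Ico] at hx
    refine ⟨by omega, ?_⟩
    rcases td_cov h hy hx.1 (by omega) with h3 | ⟨a', b', h3, _, _, hta, _⟩ | h3
    · have := hmin x (hmemS x h3); omega
    · have := hmin a' (hmemS a' hta); omega
    · exact h3)
  have c2 := td_count h hy (Finset.Ioc b (M - rho y)) (by
    intro x hx
    rw [Finset.mem_Ioc] at hx
    refine ⟨by omega, ?_⟩
    rcases td_cov h hy (by omega) (by omega : x + rho y ≤ M) with
      h3 | ⟨a', b', _, h3, _, _, htb⟩ | h3
    · have := hmax x (hmemS x h3); omega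
    · have := hmax b' (hmemS b' htb); omega
    · exact h3)
  rw [Nat.card_Ico, hsum] at c1
  rw [Nat.card_Ioc, hsum] at c2
  have hab : a < b := by omega
  have haM : a ∈ Finset.range (M + 1) := Finset.mem_range.2 (by omega)
  have hbM : b ∈ (Finset.range (M + 1)).erase a := by
    rw [Finset.mem_erase, Finset.mem_range]; omega
  have hdec := hsum
  rw [← Finset.add_sum_erase _ _ haM, ← Finset.add_sum_erase _ _ hbM] at hdec
  have hta : t ((a : ℤ), (y : ℤ)) = 1 := by omega
  have htb : t ((b : ℤ), (y : ℤ)) = 1 := by omega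
  have hrest : ∑ x ∈ ((Finset.range (M + 1)).erase a).erase b, t ((x : ℤ), (y : ℤ)) = 0 := by
    omega
  refine ⟨a, M - b, ha2, by omega, by omega, by omega, hta, ?_, ?_⟩
  · rw [show M - (M - b) = b by omega]; exact htb
  · intro x hx
    rw [show M - (M - b) = b by omega]
    by_contra hcon
    push Not at hcon
    have hxS := hSval x (hmemS x hx)
    apply hx
    rw [Finset.sum_eq_zero_iff] at hrest
    apply hrest x
    rw [Finset.mem_erase, Finset.mem_erase, Finset.mem_range]
    exact ⟨hcon.2, hcon.1, by omega⟩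

end aux

theorem config_of_turnData (N M : ℕ) (lam rho : ℕ → ℕ) (ZL ZR : ℕ) (hN : 0 < N)
    (hlam : ∀ y < N, lam y ≤ ZL) (hrho : ∀ y < N, rho y ≤ ZR) (hM : ZL + ZR + 2 * N + 2 ≤ M)
    (t : ℤ × ℤ → ℕ) (h : TurnData (combF N M lam rho) (2 * N) t) :
    ∃ l r : ℕ → ℕ, Config N lam rho l r := by
  classical
  have hdata := td_data hN ZL ZR hlam hrho hM h
  choose! l r h1 h2 h3 h4 h5 h6 h7 using hdata
  have key : ∀ y < N, ∀ x : ℕ, t ((x : ℤ), (y : ℤ)) ≠ 0 → x = l y ∨ x = M - r y := h7
  refine ⟨l, r, h1, h3, ?_, ?_, ?_, ?_, ?_⟩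
  · -- covL
    intro y hy d hd1 hd2
    have a1 := h2 y hy
    have a2 := h4 y hy
    have a3 := hrho y hy
    rcases td_cov h hy hd1 (by omega) with e | ⟨a, b, e1, _, _, e2, _⟩ | ⟨y1, y2, e1, e2, e3, e4, e5⟩
    · rcases h7 y hy d e with e' | e' <;> omega
    · rcases h7 y hy a e2 with e' | e' <;> omega
    · have b1 := h4 y1 (by omega)
      have b2 := h4 y2 e3
      refine ⟨y1, y2, e1, e2, e3, ?_, ?_⟩
      · rcases h7 y1 (by omega) d e4 with e' | e' <;> omega
      · rcases h7 y2 e3 d e5 with e' | e' <;> omega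
  · -- covR
    intro y hy d hd1 hd2
    have a1 := h2 y hy
    have a2 := h4 y hy
    have a3 := hlam y hy
    rcases td_cov h hy (x := M - d) (by omega) (by omega) with
      e | ⟨a, b, _, e1, _, _, e2⟩ | ⟨y1, y2, e1, e2, e3, e4, e5⟩
    · rcases h7 y hy _ e with e' | e' <;> omega
    · rcases h7 y hy b e2 with e' | e' <;> omega
    · have b1 := h2 y1 (by omega)
      have b2 := h2 y2 e3
      have b3 := h4 y1 (by omega)
      have b4 := h4 y2 e3
      refine ⟨y1, y2, e1, e2, e3, ?_, ?_⟩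
      · rcases h7 y1 (by omega) _ e4 with e' | e' <;> omega
      · rcases h7 y2 e3 _ e5 with e' | e' <;> omega
  · -- evenL
    intro d
    by_cases hd : d ≤ ZL + (N - 1)
    · have e1 := td_col h d
      have e2 : ∑ y ∈ Finset.range N, t ((d : ℤ), (y : ℤ)) =
          ((Finset.range N).filter (fun y => l y = d)).card := by
        rw [Finset.card_filter]
        apply Finset.sum_congr rfl
        intro y hy
        rw [Finset.mem_range] at hy
        split_ifs with hl
        · rw [← hl]; exact h5 y hy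
        · by_contra hne
          have b3 := h4 y hy
          rcases h7 y hy d hne with e' | e' <;> omega
      rwa [e2] at e1
    · have e2 : (Finset.range N).filter (fun y => l y = d) = ∅ := by
        rw [Finset.filter_eq_empty_iff]
        intro y hy hl
        rw [Finset.mem_range] at hy
        have := h2 y hy
        omega
      rw [e2]; simp
  · -- evenR
    intro d
    by_cases hd : d ≤ ZR + (N - 1)
    · have e1 := td_col h (M - d)
      have e2 : ∑ y ∈ Finset.range N, t (((M - d : ℕ) : ℤ), (y : ℤ)) =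
          ((Finset.range N).filter (fun y => r y = d)).card := by
        rw [Finset.card_filter]
        apply Finset.sum_congr rfl
        intro y hy
        rw [Finset.mem_range] at hy
        split_ifs with hl
        · rw [← hl]; exact h6 y hy
        · by_contra hne
          have b2 := h2 y hy
          have b3 := h4 y hy
          rcases h7 y hy _ hne with e' | e' <;> omega
      rwa [e2] at e1
    · have e2 : (Finset.range N).filter (fun y => r y = d) = ∅ := by
        rw [Finset.filter_eq_empty_iff]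
        intro y hy hl
        rw [Finset.mem_range] at hy
        have := h4 y hy
        omega
      rw [e2]; simp
  · -- conn
    intro X hX hne y hy
    have hc := h.conn {z : ℤ | ∃ y ∈ X, y < N ∧ z = (y : ℤ)}
      {z : ℤ | ∃ y ∈ X, y < N ∧ (z = (l y : ℤ) ∨ z = ((M - r y : ℕ) : ℤ))} (by
        intro c hc
        obtain ⟨x, y, k1, -, -, rfl⟩ := td_nat h hc
        have b2 := h2 y k1
        have b3 := h4 y k1
        constructor
        · rintro ⟨y', k2, k3, k4⟩
          have k5 : y = y' := by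
            change (y : ℤ) = (y' : ℤ) at k4
            exact_mod_cast k4
          subst k5
          refine ⟨y, k2, k3, ?_⟩
          rcases h7 y k1 x hc with e | e
          · left; change (x : ℤ) = (l y : ℤ); exact_mod_cast e
          · right; change (x : ℤ) = ((M - r y : ℕ) : ℤ); exact_mod_cast e
        · rintro ⟨y', k2, k3, k4⟩
          have b2' := h2 y' k3
          have b3' := h4 y' k3
          have k5 : x = l y' ∨ x = M - r y' := by
            rcases k4 with k4 | k4
            · left; change (x : ℤ) = (l y' : ℤ) at k4; exact_mod_cast k4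
            · right; change (x : ℤ) = ((M - r y' : ℕ) : ℤ) at k4; exact_mod_cast k4
          refine ⟨y, ?_, k1, rfl⟩
          rcases h7 y k1 x hc with e | e <;> rcases k5 with k5 | k5
          · exact hX y' k3 y k1 (Or.inl (by omega)) k2
          · omega
          · omega
          · exact hX y' k3 y k1 (Or.inr (by omega)) k2) (by
        obtain ⟨y0, k1, k2⟩ := hne
        refine ⟨((l y0 : ℤ), (y0 : ℤ)), ?_, y0, k2, k1, rfl⟩
        rw [h5 y0 k1]; exact one_ne_zero)
    obtain ⟨y', k1, k2, k3⟩ := hc ((l y : ℤ), (y : ℤ)) (by rw [h5 y hy]; exact one_ne_zero)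
    have k4 : y = y' := by
      change (y : ℤ) = (y' : ℤ) at k3
      exact_mod_cast k3
    rw [k4]; exact k1

end Pool.Agent.Helper408_MT
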