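import Pool.Agent.Helper408_MT.Turn

/-!
# Turn data of a tour
-/

set_option autoImplicit false

namespace Pool.Agent.Helper408_MT

/-- the turn cost of two directions -/
def tau (a b : ℤ × ℤ) : ℕ := if b = a then 0 else if b = -a then 2 else 1

/-- unit directions -/
def Unit4 (a : ℤ × ℤ) : Prop := a = (1, 0) ∨ a = (-1, 0) ∨ a = (0, 1) ∨ a = (0, -1)

theorem sum_shift {M : Type*} [AddCommMonoid M] (n : ℕ) (f : ℤ → M) (hper : ∀ i : ℤ, f (i + n) = f i) :
    ∑ i ∈ Finset.range n, f ((i : ℤ) + 1) = ∑ i ∈ Finset.range n, f (i : ℤ) := by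
  cases n with
  | zero => simp
  | succ m =>
    have h1 : ∑ i ∈ Finset.range (m + 1), f ((i : ℤ) + 1) = ∑ i ∈ Finset.range m, f ((i : ℤ) + 1) + f ((m : ℤ) + 1) :=
      Finset.sum_range_succ _ _
    have h2 : ∑ i ∈ Finset.range (m + 1), f (i : ℤ) = ∑ i ∈ Finset.range m, f ((i : ℤ) + 1) + f 0 := by
      rw [Finset.sum_range_succ']
      simp
    rw [h1, h2]
    congr 1
    have := hper 0
    simp only [zero_add] at this
    rw [← this]
    push_cast
    rfl

theorem abs_main (F : Finset (ℤ × ℤ)) (n : ℕ) (hn : 0 < n) (P : ℤ → ℤ × ℤ) (hper : ∀ i : ℤ, P (i + n) = P i)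
    (hstep : ∀ i : ℤ, Unit4 (P (i + 1) - P i)) (hF : ∀ i, P i ∈ F) (hcov : ∀ c ∈ F, ∃ i, P i = c) (k : ℕ)
    (hk : ∑ i ∈ Finset.range n, tau (P ((i : ℤ) + 1) - P i) (P ((i : ℤ) + 2) - P ((i : ℤ) + 1)) ≤ k) :
    ∃ t : ℤ × ℤ → ℕ, TurnData F k t := by
  classical
  obtain ⟨δ, hδ⟩ : ∃ δ : ℤ → ℤ × ℤ, ∀ i, δ i = P (i + 1) - P i := ⟨_, fun _ => rfl⟩
  have hδper : ∀ i : ℤ, δ (i + n) = δ i := by
    intro i
    rw [hδ, hδ, hper, show i + n + 1 = (i + 1) + n by ring, hper]
  have hδu : ∀ i, Unit4 (δ i) := fun i => by rw [hδ]; exact hstep i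
  have hPs : ∀ i, P (i + 1) = P i + δ i := fun i => by rw [hδ]; abel
  obtain ⟨T, hT⟩ : ∃ T : ℤ → ℕ, ∀ i, T i = tau (δ (i - 1)) (δ i) := ⟨_, fun _ => rfl⟩
  have hTper : ∀ i : ℤ, T (i + n) = T i := by
    intro i
    rw [hT, hT, hδper, show i + n - 1 = (i - 1) + n by ring, hδper]
  have hTsum : ∑ i ∈ Finset.range n, T (i : ℤ) ≤ k := by
    rw [← sum_shift n T hTper]
    refine le_trans (le_of_eq ?_) hk
    refine Finset.sum_congr rfl fun i _ => ?_
    have e1 : (i : ℤ) + 1 - 1 = i := by ring
    have e2 : (i : ℤ) + 1 + 1 = i + 2 := by ring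
    rw [hT, hδ, hδ, e1, e2]
  -- T values
  have hT0 : ∀ i, T i = 0 → δ i = δ (i - 1) := by
    intro i hi
    rw [hT, tau] at hi
    by_contra h
    rw [if_neg h] at hi
    split_ifs at hi
  obtain ⟨t, ht⟩ : ∃ t : ℤ × ℤ → ℕ, ∀ c, t c = ∑ i ∈ Finset.range n, if P (i : ℤ) = c then T (i : ℤ) else 0 :=
    ⟨_, fun _ => rfl⟩
  have htne : ∀ c, t c ≠ 0 ↔ ∃ i : ℤ, P i = c ∧ T i ≠ 0 := by
    intro c
    constructor
    · intro h
      rw [ht] at h
      obtain ⟨i, _, hi⟩ := Finset.exists_ne_zero_of_sum_ne_zero h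
      by_cases hc : P (i : ℤ) = c
      · rw [if_pos hc] at hi
        exact ⟨i, hc, hi⟩
      · rw [if_neg hc] at hi
        exact absurd rfl hi
    · rintro ⟨i, hi, hi'⟩ h
      rw [ht, Finset.sum_eq_zero_iff] at h
      have hmod : ∀ m : ℤ, P (i + m * n) = P i ∧ T (i + m * n) = T i := by
        intro m
        induction m using Int.induction_on with
        | zero => simp
        | succ m ih =>
          have e : i + ((m : ℤ) + 1) * n = (i + (m : ℤ) * n) + n := by ring
          rw [e, hper, hTper]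
          exact ih
        | pred m ih =>
          have e : i + (-(m : ℤ)) * n = (i + (-(m : ℤ) - 1) * n) + n := by ring
          rw [e, hper, hTper] at ih
          exact ih
      have hi0 : 0 ≤ i % n := Int.emod_nonneg _ (by omega)
      have hin : i % n < n := Int.emod_lt_of_pos _ (by omega)
      have e2 : i + (-(i / n)) * n = i % n := by
        have := Int.emod_add_mul_ediv i n
        linarith
      obtain ⟨h1, h2⟩ := hmod (-(i / n))
      rw [e2] at h1 h2
      have h3 := h (i % n).toNat (by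
        rw [Finset.mem_range]
        omega)
      have e3 : (((i % n).toNat : ℕ) : ℤ) = i % n := Int.toNat_of_nonneg hi0
      rw [e3, h1, h2, if_pos hi] at h3
      exact hi' h3
  -- sums over classes of cells
  have hsumcls : ∀ p : ℤ × ℤ → Prop, ∀ _ : DecidablePred p, ∑ c ∈ F.filter p, t c =
      ∑ i ∈ Finset.range n, if p (P (i : ℤ)) then T (i : ℤ) else 0 := by
    intro p _
    rw [Finset.sum_congr rfl (fun c _ => ht c), Finset.sum_comm]
    refine Finset.sum_congr rfl fun i _ => ?_
    rw [Finset.sum_ite_eq]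
    simp [hF]
  have heven : ∀ (p : ℤ × ℤ → Prop) (_ : DecidablePred p) (h : ℤ → ℕ), (∀ i : ℤ, h (i + n) = h i) →
      (∀ i : ℤ, ((if p (P i) then T i else 0 : ℕ) : ZMod 2) = (h (i - 1) : ZMod 2) + h i) →
      Even (∑ c ∈ F.filter p, t c) := by
    intro p _ h hh h2
    rw [hsumcls p _, ← ZMod.natCast_eq_zero_iff_even]
    rw [Nat.cast_sum]
    refine (Finset.sum_congr rfl (fun (i : ℕ) _ => h2 (i : ℤ))).trans ?_
    rw [Finset.sum_add_distrib]
    have h3 : ∑ i ∈ Finset.range n, ((h ((i : ℤ) - 1) : ℕ) : ZMod 2) = ∑ i ∈ Finset.range n, ((h (i : ℤ) : ℕ) : ZMod 2) := by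
      rw [← sum_shift n (fun i => ((h (i - 1) : ℕ) : ZMod 2)) (fun i => by
        rw [show i + n - 1 = (i - 1) + n by ring, hh])]
      simp
    rw [h3]
    exact CharTwo.add_self_eq_zero _
  have htau : ∀ a b : ℤ × ℤ, Unit4 a → Unit4 b → ((tau a b : ℕ) : ZMod 2) =
      ((if a.2 = 0 then 1 else 0 : ℕ) : ZMod 2) + ((if b.2 = 0 then 1 else 0 : ℕ) : ZMod 2) := by
    intro a b ha hb
    rcases ha with rfl | rfl | rfl | rfl <;> rcases hb with rfl | rfl | rfl | rfl <;> decide
  have htau' : ∀ a b : ℤ × ℤ, Unit4 a → Unit4 b → ((tau a b : ℕ) : ZMod 2) =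
      ((if a.1 = 0 then 1 else 0 : ℕ) : ZMod 2) + ((if b.1 = 0 then 1 else 0 : ℕ) : ZMod 2) := by
    intro a b ha hb
    rcases ha with rfl | rfl | rfl | rfl <;> rcases hb with rfl | rfl | rfl | rfl <;> decide
  refine ⟨t, ?_, ?_, ?_, ?_, ?_, ?_⟩
  · intro c hc
    rw [ht]
    refine Finset.sum_eq_zero fun i _ => ?_
    rw [if_neg]
    intro h
    exact hc (h ▸ hF i)
  · have := hsumcls (fun _ => True) (fun _ => inferInstance)
    rw [Finset.filter_true_of_mem (fun _ _ => trivial)] at this
    rw [this]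
    simpa using hTsum
  · intro y
    refine heven (fun c => c.2 = y) _ (fun i => if (δ i).2 = 0 ∧ (P i).2 = y then 1 else 0) ?_ ?_
    · intro i
      simp only [hδper, hper]
    · intro i
      have e1 : P i = P (i - 1) + δ (i - 1) := by
        have := hPs (i - 1)
        rwa [sub_add_cancel] at this
      by_cases hy : (P i).2 = y
      · rw [if_pos hy, hT, htau _ _ (hδu _) (hδu _)]
        have e2 : ((δ (i - 1)).2 = 0 ∧ (P (i - 1)).2 = y) ↔ (δ (i - 1)).2 = 0 := by
          constructor
          · exact fun h => h.1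
          · intro h
            refine ⟨h, ?_⟩
            have := congrArg Prod.snd e1
            simp only [Prod.snd_add] at this
            omega
        have e3 : ((δ i).2 = 0 ∧ (P i).2 = y) ↔ (δ i).2 = 0 := by simp [hy]
        simp only [e2, e3]
      · rw [if_neg hy]
        have e2 : ¬ ((δ (i - 1)).2 = 0 ∧ (P (i - 1)).2 = y) := by
          rintro ⟨h1, h2⟩
          have := congrArg Prod.snd e1
          simp only [Prod.snd_add] at this
          omega
        have e3 : ¬ ((δ i).2 = 0 ∧ (P i).2 = y) := fun h => hy h.2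
        rw [if_neg e2, if_neg e3]
        simp
  · intro y
    refine heven (fun c => c.1 = y) _ (fun i => if (δ i).1 = 0 ∧ (P i).1 = y then 1 else 0) ?_ ?_
    · intro i
      simp only [hδper, hper]
    · intro i
      have e1 : P i = P (i - 1) + δ (i - 1) := by
        have := hPs (i - 1)
        rwa [sub_add_cancel] at this
      by_cases hy : (P i).1 = y
      · rw [if_pos hy, hT, htau' _ _ (hδu _) (hδu _)]
        have e2 : ((δ (i - 1)).1 = 0 ∧ (P (i - 1)).1 = y) ↔ (δ (i - 1)).1 = 0 := by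
          constructor
          · exact fun h => h.1
          · intro h
            refine ⟨h, ?_⟩
            have := congrArg Prod.fst e1
            simp only [Prod.fst_add] at this
            omega
        have e3 : ((δ i).1 = 0 ∧ (P i).1 = y) ↔ (δ i).1 = 0 := by simp [hy]
        simp only [e2, e3]
      · rw [if_neg hy]
        have e2 : ¬ ((δ (i - 1)).1 = 0 ∧ (P (i - 1)).1 = y) := by
          rintro ⟨h1, h2⟩
          have := congrArg Prod.fst e1
          simp only [Prod.fst_add] at this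
          omega
        have e3 : ¬ ((δ i).1 = 0 ∧ (P i).1 = y) := fun h => hy h.2
        rw [if_neg e2, if_neg e3]
        simp
  · -- coverage
    intro c hc
    by_cases htc : t c ≠ 0
    · exact Or.inl htc
    right
    push Not at htc
    obtain ⟨i, hi⟩ := hcov c hc
    have hTi : T i = 0 := by
      by_contra h
      exact (htne c).mpr ⟨i, hi, h⟩ htc
    have hδi : δ i = δ (i - 1) := hT0 i hTi
    -- forward
    have hfor : ∃ m : ℕ, 1 ≤ m ∧ T (i + m) ≠ 0 := by
      by_contra hcon
      push Not at hcon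
      have h1 : ∀ m : ℕ, δ (i + m) = δ i ∧ P (i + m) = P i + (m : ℤ) • δ i := by
        intro m
        induction m with
        | zero => simp
        | succ m ih =>
          have h2 := hT0 _ (hcon (m + 1) (by omega))
          have e : i + ((m + 1 : ℕ) : ℤ) - 1 = i + m := by push_cast; ring
          rw [e, ih.1] at h2
          refine ⟨h2, ?_⟩
          have e' : i + ((m + 1 : ℕ) : ℤ) = (i + m) + 1 := by push_cast; ring
          rw [e', hPs, ih.1, ih.2, add_assoc]
          congr 1
          push_cast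
          rw [add_smul, one_smul]
      have h2 := (h1 n).2
      rw [hper] at h2
      have h3 : (n : ℤ) • δ i = 0 := by
        have : P i = P i + (n : ℤ) • δ i := h2
        simpa using this.symm
      have h4 := hδu i
      rcases h4 with h | h | h | h <;> rw [h] at h3 <;> simp [Prod.ext_iff] at h3 <;> omega
    have hback : ∃ m : ℕ, 1 ≤ m ∧ T (i - m) ≠ 0 := by
      obtain ⟨m, hm, hm'⟩ := hfor
      -- shift by multiples of n
      have hs : ∀ s : ℕ, T (i + m - s * n) = T (i + m) := by
        intro s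
        induction s with
        | zero => simp
        | succ s ih =>
          rw [← ih, ← hTper (i + m - ((s + 1 : ℕ) : ℤ) * n)]
          congr 1
          push_cast
          ring
      have hge : (m : ℤ) + 1 ≤ ((m + 1 : ℕ) : ℤ) * n := by
        push_cast
        nlinarith [Int.ofNat_lt.mpr hn]
      refine ⟨((m + 1) * n - m), ?_, ?_⟩
      · have : m + 1 ≤ (m + 1) * n := Nat.le_mul_of_pos_right _ hn
        omega
      · have h := hs (m + 1)
        rw [← h] at hm'
        have e : i - (((m + 1) * n - m : ℕ) : ℤ) = i + m - ((m + 1 : ℕ) : ℤ) * n := by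
          have : m ≤ (m + 1) * n := by
            have : m + 1 ≤ (m + 1) * n := Nat.le_mul_of_pos_right _ hn
            omega
          rw [Nat.cast_sub this]
          push_cast
          ring
        rw [e]
        exact hm'
    -- minimal ones
    have hcell : ∀ m : ℕ, (∀ s : ℕ, 1 ≤ s → s < m → T (i + s) = 0) → P (i + m) = c + (m : ℤ) • δ i := by
      intro m hm
      have h1 : ∀ s : ℕ, s ≤ m → (s < m → δ (i + s) = δ i) ∧ P (i + s) = P i + (s : ℤ) • δ i := by
        intro s
        induction s with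
        | zero => intro _; simp
        | succ s ih =>
          intro hs
          have ih' := ih (by omega)
          have hd := ih'.1 (by omega)
          constructor
          · intro hlt
            have h2 := hT0 _ (hm (s + 1) (by omega) hlt)
            have e : i + ((s + 1 : ℕ) : ℤ) - 1 = i + s := by push_cast; ring
            rw [e, hd] at h2
            exact h2
          · have e' : i + ((s + 1 : ℕ) : ℤ) = (i + s) + 1 := by push_cast; ring
            rw [e', hPs, hd, ih'.2, add_assoc]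
            congr 1
            push_cast
            rw [add_smul, one_smul]
      rw [(h1 m le_rfl).2, hi]
    have hcell' : ∀ m : ℕ, (∀ s : ℕ, 1 ≤ s → s < m → T (i - s) = 0) → P (i - m) = c - (m : ℤ) • δ i := by
      intro m hm
      have h1 : ∀ s : ℕ, s ≤ m → (s < m → δ (i - s - 1) = δ i) ∧ P (i - s) = P i - (s : ℤ) • δ i := by
        intro s
        induction s with
        | zero => intro _; simp [← hδi]
        | succ s ih =>
          intro hs
          have ih' := ih (by omega)
          have hd := ih'.1 (by omega)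
          have e : i - ((s + 1 : ℕ) : ℤ) = i - s - 1 := by push_cast; ring
          constructor
          · intro hlt
            have h2 := hT0 _ (hm (s + 1) (by omega) hlt)
            rw [e, hd] at h2
            rw [e]
            exact h2.symm
          · rw [e]
            have h3 := hPs (i - s - 1)
            rw [sub_add_cancel, hd, ih'.2] at h3
            have : P (i - s - 1) = P i - (s : ℤ) • δ i - δ i := by rw [h3]; abel
            rw [this]
            push_cast
            rw [add_smul, one_smul]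
            abel
      rw [(h1 m le_rfl).2, hi]
    obtain ⟨m, ⟨hm1, hmT⟩, hmmin⟩ : ∃ m : ℕ, (1 ≤ m ∧ T (i + m) ≠ 0) ∧ ∀ s : ℕ, s < m → ¬ (1 ≤ s ∧ T (i + s) ≠ 0) :=
      ⟨Nat.find hfor, Nat.find_spec hfor, fun s hs => Nat.find_min hfor hs⟩
    obtain ⟨m', ⟨hm1', hmT'⟩, hmmin'⟩ : ∃ m : ℕ, (1 ≤ m ∧ T (i - m) ≠ 0) ∧ ∀ s : ℕ, s < m → ¬ (1 ≤ s ∧ T (i - s) ≠ 0) :=
      ⟨Nat.find hback, Nat.find_spec hback, fun s hs => Nat.find_min hback hs⟩
    have hA : t (c + (m : ℤ) • δ i) ≠ 0 := by
      rw [htne]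
      refine ⟨i + m, hcell m ?_, hmT⟩
      intro s hs1 hs2
      by_contra h
      exact hmmin s hs2 ⟨hs1, h⟩
    have hB : t (c - (m' : ℤ) • δ i) ≠ 0 := by
      rw [htne]
      refine ⟨i - m', hcell' m' ?_, hmT'⟩
      intro s hs1 hs2
      by_contra h
      exact hmmin' s hs2 ⟨hs1, h⟩
    obtain ⟨c1, c2⟩ := c
    rcases hδu i with h | h | h | h <;> rw [h] at hA hB <;> simp at hA hB ⊢
    · left
      exact ⟨c1 - m', by omega, c1 + m, by omega, hB, hA⟩
    · left
      exact ⟨c1 + -m, by omega, c1 + m', by omega, hA, hB⟩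
    · right
      exact ⟨c2 - m', by omega, c2 + m, by omega, hB, hA⟩
    · right
      exact ⟨c2 + -m, by omega, c2 + m', by omega, hA, hB⟩
  · -- connectivity
    intro A B hAB hex c hc
    obtain ⟨good, hgood⟩ : ∃ good : ℤ → Prop, ∀ i, good i ↔ (((δ i).2 = 0 ∧ (P i).2 ∈ A) ∨ ((δ i).1 = 0 ∧ (P i).1 ∈ B)) :=
      ⟨_, fun _ => Iff.rfl⟩
    have hx : ∀ i, ((δ i).2 = 0 ∧ (δ i).1 ≠ 0) ∨ ((δ i).1 = 0 ∧ (δ i).2 ≠ 0) := by
      intro i
      rcases hδu i with h | h | h | h <;> rw [h] <;> simp
    have hstepg : ∀ i, good (i - 1) ↔ good i := by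
      intro i
      have e1 : P i = P (i - 1) + δ (i - 1) := by
        have := hPs (i - 1)
        rwa [sub_add_cancel] at this
      have e2 : (P i).1 = (P (i - 1)).1 + (δ (i - 1)).1 := congrArg Prod.fst e1
      have e3 : (P i).2 = (P (i - 1)).2 + (δ (i - 1)).2 := congrArg Prod.snd e1
      rw [hgood, hgood]
      by_cases hTi : T i = 0
      · have h := hT0 i hTi
        rw [h]
        rcases hx (i - 1) with ⟨ha, hb⟩ | ⟨ha, hb⟩
        · rw [e3, ha]
          simp [hb]
        · rw [e2, ha]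
          simp [hb]
      · have h1 := hAB (P i) ((htne _).mpr ⟨i, rfl, hTi⟩)
        rcases hx (i - 1) with ⟨ha, hb⟩ | ⟨ha, hb⟩ <;> rcases hx i with ⟨ha', hb'⟩ | ⟨ha', hb'⟩
        · rw [ha, add_zero] at e3
          simp [ha, hb, ha', hb', ← e3]
        · rw [ha, add_zero] at e3
          simp [ha, hb, ha', hb', ← e3, h1]
        · rw [ha, add_zero] at e2
          simp [ha, hb, ha', hb', ← e2, h1]
        · rw [ha, add_zero] at e2
          simp [ha, hb, ha', hb', ← e2]
    have hall : ∀ i, good i ↔ good 0 := by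
      intro i
      induction i using Int.induction_on with
      | zero => rfl
      | succ m ih =>
        have := hstepg ((m : ℤ) + 1)
        rw [add_sub_cancel_right] at this
        rw [← this]; exact ih
      | pred m ih =>
        have := hstepg (-(m : ℤ))
        rw [this]; exact ih
    have hturn : ∀ i, T i ≠ 0 → (good i ↔ (P i).2 ∈ A) := by
      intro i hTi
      have h1 := hAB (P i) ((htne _).mpr ⟨i, rfl, hTi⟩)
      rw [hgood]
      rcases hx i with ⟨ha, hb⟩ | ⟨ha, hb⟩
      · simp [ha, hb]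
      · simp [ha, hb, h1]
    obtain ⟨c0, hc0, hc0A⟩ := hex
    obtain ⟨i0, hi0, hTi0⟩ := (htne c0).mp hc0
    obtain ⟨i1, hi1, hTi1⟩ := (htne c).mp hc
    rw [← hi1, ← hturn i1 hTi1, hall, ← hall i0, hturn i0 hTi0, hi0]
    exact hc0A

theorem unit4_of (a b : ℤ × ℤ) (h : (a.1 - b.1) ^ 2 + (a.2 - b.2) ^ 2 = 1) : Unit4 (b - a) := by
  obtain ⟨a1, a2⟩ := a
  obtain ⟨b1, b2⟩ := b
  simp only at h
  obtain ⟨x, hx⟩ : ∃ x, x = b1 - a1 := ⟨_, rfl⟩
  obtain ⟨y, hy⟩ : ∃ y, y = b2 - a2 := ⟨_, rfl⟩
  have h' : x ^ 2 + y ^ 2 = 1 := by rw [hx, hy, ← h]; ring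
  have hx1 : x ≤ 1 := by nlinarith [sq_nonneg y]
  have hx2 : -1 ≤ x := by nlinarith [sq_nonneg y]
  have hy1 : y ≤ 1 := by nlinarith [sq_nonneg x]
  have hy2 : -1 ≤ y := by nlinarith [sq_nonneg x]
  have e : ((b1, b2) : ℤ × ℤ) - (a1, a2) = (x, y) := by rw [hx, hy]; rfl
  rw [e]
  clear e hx hy h
  unfold Unit4
  interval_cases x <;> interval_cases y <;> simp_all

theorem sum_getD (l : List ℕ) : ∑ i ∈ Finset.range l.length, l.getD i 0 = l.sum := by
  induction l with
  | nil => simp
  | cons a l ih =>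
    rw [List.length_cons, Finset.sum_range_succ', List.sum_cons, add_comm]
    simp only [List.getD_cons_zero, List.getD_cons_succ]
    rw [ih]

theorem turnData_of_tour (F : Finset (ℤ × ℤ)) (hF : 2 ≤ F.card) (k : ℕ)
    (h : HasTour (F : Set (ℤ × ℤ)) k) : ∃ t : ℤ × ℤ → ℕ, TurnData F k t := by
  obtain ⟨v, p, hsupp, hcost⟩ := h
  have hn : 0 < p.length := by
    by_contra hcon
    have h0 : p.length = 0 := by omega
    have hall : ∀ u : (F : Set (ℤ × ℤ)), u = v := by
      intro u
      have := hsupp u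
      rw [SimpleGraph.Walk.mem_support_iff_exists_getVert] at this
      obtain ⟨m, hm, hm'⟩ := this
      have : m = 0 := by omega
      subst this
      simpa using hm.symm
    have : F.card ≤ 1 := by
      rw [Finset.card_le_one]
      intro a ha b hb
      have h1 := hall ⟨a, ha⟩
      have h2 := hall ⟨b, hb⟩
      exact congrArg Subtype.val (h1.trans h2.symm)
    omega
  obtain ⟨n, hnn⟩ : ∃ n, n = p.length := ⟨_, rfl⟩
  have hnZ : (0 : ℤ) < n := by omega
  obtain ⟨P, hP⟩ : ∃ P : ℤ → ℤ × ℤ, ∀ i, P i = (p.getVert (i % n).toNat).1 := ⟨_, fun _ => rfl⟩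
  have hPnat : ∀ i : ℕ, i ≤ n → P (i : ℤ) = (p.getVert i).1 := by
    intro i hi
    rw [hP]
    rcases Nat.lt_or_ge i n with h | h
    · have : (i : ℤ) % n = i := Int.emod_eq_of_lt (by omega) (by omega)
      rw [this, Int.toNat_natCast]
    · have : i = n := by omega
      subst this
      rw [Int.emod_self, Int.toNat_zero, SimpleGraph.Walk.getVert_zero, hnn, SimpleGraph.Walk.getVert_length]
  have hper : ∀ i : ℤ, P (i + n) = P i := by
    intro i
    rw [hP, hP, Int.add_emod_right]
  have hperm : ∀ i : ℤ, P (i % n) = P i := by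
    intro i
    rw [hP, hP, Int.emod_emod_of_dvd _ dvd_rfl]
  have hP1 : ∀ i : ℤ, P (i + 1) = (p.getVert ((i % n).toNat + 1)).1 := by
    intro i
    have h0 := Int.emod_nonneg i (ne_of_gt hnZ)
    have h1 := Int.emod_lt_of_pos i hnZ
    have h2 : ((i % n).toNat : ℤ) = i % n := Int.toNat_of_nonneg h0
    rw [← hPnat ((i % n).toNat + 1) (by omega)]
    push_cast
    rw [h2, ← hperm (i + 1), ← hperm (i % n + 1)]
    congr 1
    rw [Int.emod_add_emod]
  have hstep : ∀ i : ℤ, Unit4 (P (i + 1) - P i) := by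
    intro i
    have h0 := Int.emod_nonneg i (ne_of_gt hnZ)
    have h1 := Int.emod_lt_of_pos i hnZ
    rw [hP1, hP]
    have hadj := p.adj_getVert_succ (i := (i % n).toNat) (by omega)
    exact unit4_of _ _ hadj
  have hPF : ∀ i, P i ∈ F := by
    intro i
    rw [hP]
    exact (p.getVert _).2
  have hcov : ∀ c ∈ F, ∃ i, P i = c := by
    intro c hc
    have := hsupp ⟨c, hc⟩
    rw [SimpleGraph.Walk.mem_support_iff_exists_getVert] at this
    obtain ⟨m, hm, hm'⟩ := this
    refine ⟨m, ?_⟩
    rw [hPnat m (by omega), hm]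
  refine abs_main F n (by omega) P hper hstep hPF hcov k ?_
  refine le_trans (le_of_eq ?_) hcost
  unfold turnCost
  rw [← sum_getD]
  have hlen : ((p.darts.zip (p.darts.rotate 1)).map fun x => turn x.1 x.2).length = n := by
    rw [List.length_map, List.length_zip, List.length_rotate, SimpleGraph.Walk.length_darts, hnn, min_self]
  rw [hlen]
  refine Finset.sum_congr rfl fun i hi => ?_
  rw [Finset.mem_range] at hi
  have hi' : i < ((p.darts.zip (p.darts.rotate 1)).map fun x => turn x.1 x.2).length := by rw [hlen]; exact hi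
  have hdl : p.darts.length = n := by rw [SimpleGraph.Walk.length_darts, hnn]
  rw [List.getD_eq_getElem _ _ hi', List.getElem_map, List.getElem_zip, List.getElem_rotate]
  have hj : (i + 1) % n < n := Nat.mod_lt _ (by omega)
  simp only [SimpleGraph.Walk.darts_getElem_eq_getVert, turn, dir, tau]
  have e1 : P (i : ℤ) = (p.getVert i).1 := hPnat i (by omega)
  have e2 : P ((i : ℤ) + 1) = (p.getVert (i + 1)).1 := by
    rw [← hPnat (i + 1) (by omega)]; push_cast; rfl
  have e3 : P ((i : ℤ) + 1) = (p.getVert ((i + 1) % p.darts.length)).1 := by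
    rw [hdl, ← hPnat ((i + 1) % n) (by omega)]
    push_cast
    exact (hperm _).symm
  have e4 : P ((i : ℤ) + 2) = (p.getVert ((i + 1) % p.darts.length + 1)).1 := by
    rw [hdl, ← hPnat ((i + 1) % n + 1) (by omega)]
    push_cast
    rw [← hperm (((i : ℤ) + 1) % n + 1), Int.emod_add_emod, hperm]
    ring_nf
  have e5 : P ((i : ℤ) + 2) - P ((i : ℤ) + 1) = (p.getVert ((i + 1) % p.darts.length + 1)).1 -
      (p.getVert ((i + 1) % p.darts.length)).1 := by rw [← e4, ← e3]
  rw [e5, e2, e1]

end Pool.Agent.Helper408_MT
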