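import Pool.Agent.Helper408_MT.Sound
import Pool.Agent.Helper408_MT.LeftEven
import Pool.Agent.Helper408_MT.LeftProps
import Pool.Agent.Helper408_MT.LeftConn
import Pool.Agent.Helper408_MT.TurnData
import Pool.Agent.Helper408_MT.TurnConfig
import Pool.Agent.Helper408_MT.EulerTour
import Pool.Agent.Helper408_MT.CombSolid
import Pool.Agent.Helper408_MT.PolyInst

/-!
# Assembly of the reduction
-/

set_option autoImplicit false

namespace Pool.Agent.Helper408_MT

open Pool.Agent.NPC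

variable {m : ℕ} {occ : Bool → ℕ → ℕ → Bool}

/-- Completeness: a satisfying assignment gives a strong configuration. -/
theorem complete (hm : 0 < m) (occ : Bool → ℕ → ℕ → Bool) {τ : ℕ → Bool}
    (hτ : ∀ j < m, ∃ i < 3 * m, occ (τ i) i j = true) :
    ∃ l r, SConfig (NN m) (lam m occ) (rho m) l r ∧
      ∀ y < NN m, ∀ y' < NN m, l y + r y' < MM m := by
  have hen : ∀ i, ∃ E c g, i < 3 * m → EnumOK m occ i E c g := by
    intro i
    by_cases hi : i < 3 * m
    · obtain ⟨E, c, g, hg⟩ := exists_enum hm occ hi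
      exact ⟨E, c, g, fun _ => hg⟩
    · exact ⟨0, 0, fun _ => 0, fun h => absurd h hi⟩
  choose E c g hg using hen
  have hE : ChainEnum m occ E g := by
    refine ⟨fun i hi => ?_, fun i hi => (hg i hi).spec, fun i hi => (hg i hi).mono,
      fun i hi => (hg i hi).surj⟩
    have h1 := (hg i hi).c4
    have h2 := (hg i hi).cE
    have h3 := (hg i hi).EK
    omega
  obtain ⟨a1, a2, a3, a4⟩ := lc_props m hm occ E g hE τ
  obtain ⟨b1, b2, b3, b4, b5⟩ := rr_props m
  refine ⟨lc m occ E τ, rr m, ⟨a1, b1, a3, b3, a4, b4, lc_even m hm occ E g hE τ, b5,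
    lc_conn m hm occ E g hE τ hτ⟩, ?_⟩
  intro y hy y' hy'
  have h1 := a2 y hy
  have h2 := b2 y' hy'
  have h3 : NN m = 2 * SS m + 2 * KK m := rfl
  have h4 : MM m = NN m * (RR m + 3 * m + 2) + NN m * 3 := by unfold MM; ring
  omega

theorem lam_lt (hm : 0 < m) {y : ℕ} (hy : y < NN m) :
    lam m occ y < NN m * (RR m + 3 * m + 2) := by
  have hN2 := two_KK_lt hm
  rcases lam_cases (occ := occ) hy with h | ⟨s, hs, hk, h4, h5⟩ | ⟨s, hs, hk, h4, h5⟩
  · have : NN m * 1 ≤ NN m * (RR m + 3 * m + 2) := Nat.mul_le_mul_left _ (by omega)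
    omega
  · rw [h5]
    have := div_lt_RR hs
    exact Nat.mul_lt_mul_of_pos_left (by omega) (by omega)
  · obtain ⟨E, c, g, hg⟩ := exists_enum hm occ (kind3_var hk hs)
    have h6 := (hg.surj s hs hk rfl).1
    have h7 := hg.EK
    have h8 := kind3_var hk hs
    have h9 : NN m * (RR m + 1 + s / KK m / 5 + 1) ≤ NN m * (RR m + 3 * m + 2) :=
      Nat.mul_le_mul_left _ (by omega)
    rw [Nat.mul_add, Nat.mul_one] at h9
    omega

theorem rho_le {y : ℕ} (hy : y < NN m) : rho m y ≤ SS m + KK m :=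
  ((rr_props m).1 y hy).trans ((rr_props m).2.1 y hy).le

/-- The comb region of the construction has a tour of turn cost at most `2 * NN m` exactly when
the clauses can be satisfied. -/
theorem comb_iff (hm : 0 < m) (occ : Bool → ℕ → ℕ → Bool) :
    HasTour (combF (NN m) (MM m) (lam m occ) (rho m) : Set (ℤ × ℤ)) (2 * NN m) ↔
      ∃ τ : ℕ → Bool, ∀ j < m, ∃ i < 3 * m, occ (τ i) i j = true := by
  have hN2 := two_KK_lt hm
  have hK := KK_pos m
  have h3 : NN m = 2 * SS m + 2 * KK m := rfl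
  have h4 : MM m = NN m * (RR m + 3 * m + 2) + NN m * 3 := by unfold MM; ring
  constructor
  · intro h
    have hcard : 2 ≤ (combF (NN m) (MM m) (lam m occ) (rho m)).card := by
      have h5 := lam_lt (occ := occ) hm (show 0 < NN m by omega)
      have h6 := rho_le (m := m) (show 0 < NN m by omega)
      have h7 : (((NN m * (RR m + 3 * m + 2) : ℕ) : ℤ), ((0 : ℕ) : ℤ)) ∈
          combF (NN m) (MM m) (lam m occ) (rho m) :=
        mem_combF.2 ⟨NN m * (RR m + 3 * m + 2), 0, by omega, by omega, by omega, rfl⟩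
      have h8 : (((NN m * (RR m + 3 * m + 2) + 1 : ℕ) : ℤ), ((0 : ℕ) : ℤ)) ∈
          combF (NN m) (MM m) (lam m occ) (rho m) :=
        mem_combF.2 ⟨NN m * (RR m + 3 * m + 2) + 1, 0, by omega, by omega, by omega, rfl⟩
      refine Finset.one_lt_card.2 ⟨_, h7, _, h8, ?_⟩
      intro he
      have := congrArg Prod.fst he
      simp only [Nat.cast_inj] at this
      omega
    obtain ⟨t, ht⟩ := turnData_of_tour _ hcard _ h
    obtain ⟨l, r, hc⟩ := config_of_turnData (NN m) (MM m) (lam m occ) (rho m)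
      (NN m * (RR m + 3 * m + 2)) (SS m + KK m) (by omega)
      (fun y hy => (lam_lt hm hy).le) (fun y hy => rho_le hy) (by omega) t ht
    exact sound hm occ hc
  · rintro ⟨τ, hτ⟩
    obtain ⟨l, r, h1, h2⟩ := complete hm occ hτ
    exact tour_of_sconfig _ _ _ _ _ _ (by omega) h1 h2

theorem comb_nice (hm : 0 < m) (occ : Bool → ℕ → ℕ → Bool) :
    (gridGraph (combF (NN m) (MM m) (lam m occ) (rho m) : Set (ℤ × ℤ))).Connected ∧
      Solid (combF (NN m) (MM m) (lam m occ) (rho m) : Set (ℤ × ℤ)) := by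
  have hN2 := two_KK_lt hm
  have h3 : NN m = 2 * SS m + 2 * KK m := rfl
  have h4 : MM m = NN m * (RR m + 3 * m + 2) + NN m * 3 := by unfold MM; ring
  have hx : ∀ y < NN m, lam m occ y ≤ NN m * (RR m + 3 * m + 2) ∧
      NN m * (RR m + 3 * m + 2) + rho m y ≤ MM m := by
    intro y hy
    have h5 := lam_lt (occ := occ) hm hy
    have h6 := rho_le (m := m) hy
    omega
  exact ⟨comb_connected _ _ _ _ _ (by omega) hx, comb_solid _ _ _ _ _ hx⟩

theorem occOf_iff (φ : List (Lit ℕ × Lit ℕ × Lit ℕ)) (b : Bool) (i j : ℕ) (hj : j < φ.length) :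
    occOf φ b i j = true ↔ φ[j].1 = (b, i) ∨ φ[j].2.1 = (b, i) ∨ φ[j].2.2 = (b, i) := by
  unfold occOf
  rw [List.getElem?_eq_getElem hj]
  simp

theorem sat_iff (φ : List (Lit ℕ × Lit ℕ × Lit ℕ)) (hb : Bounded3 φ) :
    SAT3 φ ↔ ∃ τ : ℕ → Bool, ∀ j < φ.length, ∃ i < 3 * φ.length,
      occOf φ (τ i) i j = true := by
  constructor
  · rintro ⟨τ, hτ⟩
    refine ⟨τ, fun j hj => ?_⟩
    obtain ⟨h1, h2, h3⟩ := hb _ (List.getElem_mem hj)
    rcases hτ _ (List.getElem_mem hj) with h | h | h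
    · exact ⟨_, h1, (occOf_iff φ _ _ _ hj).2 (Or.inl (by rw [h]))⟩
    · exact ⟨_, h2, (occOf_iff φ _ _ _ hj).2 (Or.inr (Or.inl (by rw [h])))⟩
    · exact ⟨_, h3, (occOf_iff φ _ _ _ hj).2 (Or.inr (Or.inr (by rw [h])))⟩
  · rintro ⟨τ, hτ⟩
    refine ⟨τ, fun c hc => ?_⟩
    obtain ⟨j, hj, rfl⟩ := List.getElem_of_mem hc
    obtain ⟨i, hi, h⟩ := hτ j hj
    rcases (occOf_iff φ _ _ _ hj).1 h with h | h | h
    · left; rw [h]
    · right; left; rw [h]
    · right; right; rw [h]

/-- Hardness of the tour problem on connected solid grid graphs, as a promise problem. -/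
theorem hardPr_tour : HardPr
    (fun I : List (ℤ × ℤ) × ℕ => (gridGraph (verts I)).Connected ∧ Solid (verts I))
    (fun I => HasTour (verts I) I.2) := by
  refine hardPr_SAT3b.trans poly_inst ?_ ?_
  · rintro φ ⟨-, hb, hne⟩
    have hm : 0 < φ.length := List.length_pos_iff.2 hne
    rw [verts_inst]
    exact comb_nice hm _
  · rintro φ ⟨-, hb, hne⟩
    have hm : 0 < φ.length := List.length_pos_iff.2 hne
    rw [verts_inst, sat_iff φ hb]
    exact (comb_iff hm _).symm

end Pool.Agent.Helper408_MT
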