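import Pool.Agent.Helper408_MT.Rows

/-!
# The right side is forced
-/

set_option autoImplicit false

namespace Pool.Agent.Helper408_MT

/-! Auxiliary: the same functions with `K` and `S` as free variables. -/

theorem rho_eq (m y : ℕ) : rho m y =
    if y < KK m then 0 else if y < KK m + 2 * SS m then (y - KK m) / 2 else y - KK m - SS m := rfl

theorem rr_eq (m y : ℕ) : rr m y =
  if y < KK m then y
  else if y < KK m + 2 * SS m then
    (y - KK m) / 2 + (if (y - KK m) % 2 = 0 then KK m else 0)
  else y - KK m - SS m := rfl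

/-- The smaller row of class `c`. -/
def qq (m c : ℕ) : ℕ := if c < KK m then c else 2 * c - KK m

/-- The larger row of class `c`. -/
def dd (m c : ℕ) : ℕ := if c < SS m then KK m + 2 * c + 1 else KK m + SS m + c

theorem rr_eq_iff (m c y : ℕ) (hc : c < SS m + KK m) (hy : y < NN m) :
    rr m y = c ↔ y = qq m c ∨ y = dd m c := by
  have hK := KK_pos m
  unfold NN at hy
  rw [rr_eq]; unfold qq dd
  generalize KK m = K at *
  generalize SS m = S at *
  split_ifs <;> omega

theorem qq_lt_dd (m c : ℕ) (hc : c < SS m + KK m) : qq m c < dd m c := by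
  have hK := KK_pos m
  unfold qq dd
  generalize KK m = K at *
  generalize SS m = S at *
  split_ifs <;> omega

theorem dd_lt (m c : ℕ) (hc : c < SS m + KK m) : dd m c < NN m := by
  have hK := KK_pos m
  unfold dd NN
  generalize KK m = K at *
  generalize SS m = S at *
  split_ifs <;> omega

theorem qq_lt (m c : ℕ) (hc : c < SS m + KK m) : qq m c < NN m :=
  (qq_lt_dd m c hc).trans (dd_lt m c hc)

theorem rho_le_rr (m y : ℕ) (hy : y < NN m) : rho m y ≤ rr m y := by
  have hK := KK_pos m
  unfold NN at hy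
  rw [rr_eq, rho_eq]
  generalize KK m = K at *
  generalize SS m = S at *
  split_ifs <;> omega

theorem rr_lt (m y : ℕ) (hy : y < NN m) : rr m y < SS m + KK m := by
  have hK := KK_pos m
  unfold NN at hy
  rw [rr_eq]
  generalize KK m = K at *
  generalize SS m = S at *
  split_ifs <;> omega

theorem rho_mono (m y y' : ℕ) (h : y ≤ y') : rho m y ≤ rho m y' := by
  rw [rho_eq, rho_eq]
  generalize KK m = K at *
  generalize SS m = S at *
  split_ifs <;> omega

theorem qq_min (m c y : ℕ) (hc : c < SS m + KK m) (h : c ≤ rr m y) (hy : y < NN m) :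
    qq m c ≤ y := by
  have hK := KK_pos m
  unfold NN at hy
  rw [rr_eq] at h; unfold qq
  generalize KK m = K at *
  generalize SS m = S at *
  split_ifs at * <;> omega

theorem dd_max (m c y : ℕ) (hc : c < SS m + KK m) (h : rho m y ≤ c) (hy : y < NN m) :
    y ≤ dd m c := by
  have hK := KK_pos m
  unfold NN at hy
  rw [rho_eq] at h; unfold dd
  generalize KK m = K at *
  generalize SS m = S at *
  split_ifs at * <;> omega

theorem card_class (m c : ℕ) (hc : c < SS m + KK m) :
    (Finset.range (NN m)).filter (fun y => rr m y = c) = {qq m c, dd m c} := by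
  ext y
  simp only [Finset.mem_filter, Finset.mem_range, Finset.mem_insert, Finset.mem_singleton]
  constructor
  · rintro ⟨hy, h⟩
    exact (rr_eq_iff m c y hc hy).1 h
  · rintro (h | h)
    · subst h
      exact ⟨qq_lt m c hc, (rr_eq_iff m c _ hc (qq_lt m c hc)).2 (Or.inl rfl)⟩
    · subst h
      exact ⟨dd_lt m c hc, (rr_eq_iff m c _ hc (dd_lt m c hc)).2 (Or.inr rfl)⟩

theorem rr_qq (m c : ℕ) (hc : c < SS m + KK m) : rr m (qq m c) = c :=
  (rr_eq_iff m c _ hc (qq_lt m c hc)).2 (Or.inl rfl)

theorem rr_dd (m c : ℕ) (hc : c < SS m + KK m) : rr m (dd m c) = c :=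
  (rr_eq_iff m c _ hc (dd_lt m c hc)).2 (Or.inr rfl)

theorem exists_rho (m c : ℕ) (hc : c < SS m + KK m) : ∃ y < NN m, rho m y = c := by
  by_cases h : c < SS m
  · refine ⟨KK m + 2 * c, ?_, ?_⟩
    · unfold NN; omega
    · rw [rho_eq, if_neg (by omega), if_pos (by omega)]; omega
  · refine ⟨KK m + SS m + c, ?_, ?_⟩
    · unfold NN; omega
    · rw [rho_eq, if_neg (by omega), if_neg (by omega)]; omega

theorem side_min {N : ℕ} {lam r : ℕ → ℕ} (h : Side N lam r) (c y : ℕ) (hy : y < N)
    (h1 : lam y ≤ c) (h2 : c ≤ r y) (hmin : ∀ z < N, lam z ≤ c → c ≤ r z → y ≤ z) : r y = c := by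
  by_contra hne
  obtain ⟨y1, y2, hy1, hy2, hy2N, e1, e2⟩ := h.cov y hy c h1 (lt_of_le_of_ne h2 (Ne.symm hne))
  have hy1N : y1 < N := hy1.trans hy
  have := hmin y1 hy1N (e1 ▸ h.lam_le y1 hy1N) (le_of_eq e1.symm)
  omega

theorem side_max {N : ℕ} {lam r : ℕ → ℕ} (h : Side N lam r) (c y : ℕ) (hy : y < N)
    (h1 : lam y ≤ c) (h2 : c ≤ r y) (hmax : ∀ z < N, lam z ≤ c → c ≤ r z → z ≤ y) : r y = c := by
  by_contra hne
  obtain ⟨y1, y2, hy1, hy2, hy2N, e1, e2⟩ := h.cov y hy c h1 (lt_of_le_of_ne h2 (Ne.symm hne))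
  have := hmax y2 hy2N (e2 ▸ h.lam_le y2 hy2N) (le_of_eq e2.symm)
  omega

theorem side_two {m : ℕ} {r : ℕ → ℕ} (h : Side (NN m) (rho m) r) (c : ℕ)
    (hc : c < SS m + KK m) : 2 ≤ ((Finset.range (NN m)).filter (fun y => r y = c)).card := by
  obtain ⟨y0, hy0, e0⟩ := exists_rho m c hc
  have hex : ∃ y, y < NN m ∧ rho m y ≤ c ∧ c ≤ r y :=
    ⟨y0, hy0, le_of_eq e0, e0 ▸ h.lam_le y0 hy0⟩
  classical
  obtain ⟨k1, k2, k3⟩ := Nat.find_spec hex
  have hr : r (Nat.find hex) = c := by
    apply side_min h c _ k1 k2 k3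
    intro z hz hz1 hz2
    exact Nat.find_min' hex ⟨hz, hz1, hz2⟩
  have hpos : 0 < ((Finset.range (NN m)).filter (fun y => r y = c)).card := by
    apply Finset.card_pos.2
    exact ⟨Nat.find hex, by simp only [Finset.mem_filter, Finset.mem_range]; exact ⟨k1, hr⟩⟩
  obtain ⟨k, hk⟩ := h.even c
  omega

theorem side_card {m : ℕ} {r : ℕ → ℕ} (h : Side (NN m) (rho m) r) :
    (∀ c < SS m + KK m, ((Finset.range (NN m)).filter (fun y => r y = c)).card = 2) ∧
    ∀ y < NN m, r y < SS m + KK m := by
  classical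
  set A : Finset ℕ := (Finset.range (NN m)).filter (fun y => r y < SS m + KK m) with hA
  have hAcard : A.card = ∑ c ∈ Finset.range (SS m + KK m),
      ((Finset.range (NN m)).filter (fun y => r y = c)).card := by
    rw [Finset.card_eq_sum_card_fiberwise (f := r) (t := Finset.range (SS m + KK m))]
    · apply Finset.sum_congr rfl
      intro c hc
      congr 1
      ext y
      simp only [hA, Finset.mem_filter, Finset.mem_range] at *
      constructor
      · rintro ⟨⟨a, b⟩, e⟩; exact ⟨a, e⟩
      · rintro ⟨a, e⟩; exact ⟨⟨a, by omega⟩, e⟩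
    · intro y hy
      simp only [hA, Finset.coe_filter, Finset.mem_range, Set.mem_setOf_eq] at hy
      simp only [Finset.coe_range, Set.mem_Iio]
      exact hy.2
  have hAle : A.card ≤ 2 * (SS m + KK m) := by
    have h1 : A.card ≤ (Finset.range (NN m)).card := Finset.card_filter_le _ _
    rw [Finset.card_range] at h1
    have h2 : NN m = 2 * (SS m + KK m) := by unfold NN; ring
    omega
  have hge : ∀ c ∈ Finset.range (SS m + KK m),
      2 ≤ ((Finset.range (NN m)).filter (fun y => r y = c)).card := by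
    intro c hc
    exact side_two h c (Finset.mem_range.1 hc)
  have hsum : ∑ c ∈ Finset.range (SS m + KK m), 2 = 2 * (SS m + KK m) := by
    rw [Finset.sum_const, Finset.card_range, smul_eq_mul]; ring
  have hle := Finset.sum_le_sum hge
  have heq : ∑ c ∈ Finset.range (SS m + KK m), 2 =
      ∑ c ∈ Finset.range (SS m + KK m),
      ((Finset.range (NN m)).filter (fun y => r y = c)).card := by
    apply le_antisymm hle
    rw [← hAcard, hsum]; exact hAle
  refine ⟨?_, ?_⟩
  · intro c hc
    exact (((Finset.sum_eq_sum_iff_of_le hge).1 heq) c (Finset.mem_range.2 hc)).symm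
  · intro y hy
    by_contra hcon
    have hlt : A.card < (Finset.range (NN m)).card := by
      apply Finset.card_lt_card
      rw [Finset.ssubset_iff_of_subset (Finset.filter_subset _ _)]
      exact ⟨y, Finset.mem_range.2 hy, by simp only [hA, Finset.mem_filter, not_and]; exact fun _ => hcon⟩
    rw [Finset.card_range] at hlt
    have h2 : NN m = 2 * (SS m + KK m) := by unfold NN; ring
    omega

theorem side_class {m : ℕ} {r : ℕ → ℕ} (h : Side (NN m) (rho m) r) :
    ∀ c, c < SS m + KK m → ∀ y < NN m, r y = c ↔ rr m y = c := by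
  intro c
  induction c using Nat.strong_induction_on with
  | _ c ih =>
    intro hc
    have hge : ∀ y < NN m, (c ≤ r y ↔ c ≤ rr m y) := by
      intro y hy
      constructor
      · intro h1
        by_contra h2
        push Not at h2
        have := (ih (rr m y) h2 (by omega) y hy).2 rfl
        omega
      · intro h1
        by_contra h2
        push Not at h2
        have := (ih (r y) h2 (by omega) y hy).1 rfl
        omega
    have hq : r (qq m c) = c := by
      have e := rr_qq m c hc
      apply side_min h c _ (qq_lt m c hc)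
      · have := rho_le_rr m _ (qq_lt m c hc)
        omega
      · exact (hge _ (qq_lt m c hc)).2 (le_of_eq e.symm)
      · intro z hz hz1 hz2
        exact qq_min m c z hc ((hge z hz).1 hz2) hz
    have hd : r (dd m c) = c := by
      have e := rr_dd m c hc
      apply side_max h c _ (dd_lt m c hc)
      · have := rho_le_rr m _ (dd_lt m c hc)
        omega
      · exact (hge _ (dd_lt m c hc)).2 (le_of_eq e.symm)
      · intro z hz hz1 hz2
        exact dd_max m c z hc hz1 hz
    have hsub : ({qq m c, dd m c} : Finset ℕ) ⊆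
        (Finset.range (NN m)).filter (fun y => r y = c) := by
      intro y hy
      simp only [Finset.mem_insert, Finset.mem_singleton] at hy
      simp only [Finset.mem_filter, Finset.mem_range]
      rcases hy with hy | hy
      · subst hy; exact ⟨qq_lt m c hc, hq⟩
      · subst hy; exact ⟨dd_lt m c hc, hd⟩
    have hcard : ({qq m c, dd m c} : Finset ℕ).card = 2 :=
      Finset.card_pair (ne_of_lt (qq_lt_dd m c hc))
    have heq := Finset.eq_of_subset_of_card_le hsub
      (by rw [hcard, (side_card h).1 c hc])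
    intro y hy
    rw [rr_eq_iff m c y hc hy]
    have hm : y ∈ ({qq m c, dd m c} : Finset ℕ) ↔
        y ∈ (Finset.range (NN m)).filter (fun y => r y = c) := by rw [heq]
    simp only [Finset.mem_insert, Finset.mem_singleton, Finset.mem_filter, Finset.mem_range] at hm
    rw [hm]
    exact ⟨fun e => ⟨hy, e⟩, fun e => e.2⟩

theorem Side.right_forced {m : ℕ} {r : ℕ → ℕ} (h : Side (NN m) (rho m) r) :
    ∀ y < NN m, r y = rr m y := by
  intro y hy
  exact ((side_class h (r y) ((side_card h).2 y hy) y hy).1 rfl).symm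

theorem rr_props (m : ℕ) :
    (∀ y < NN m, rho m y ≤ rr m y) ∧
    (∀ y < NN m, rr m y < SS m + KK m) ∧
    (∀ y < NN m, ∀ d, rho m y ≤ d → d < rr m y →
      ∃ y1 y2, y1 < y ∧ y < y2 ∧ y2 < NN m ∧ rr m y1 = d ∧ rr m y2 = d ∧
        ∀ y' < NN m, rr m y' = d → y' = y1 ∨ y' = y2) ∧
    (∀ y1 y2, y2 < NN m → rr m y1 = rr m y2 → ∀ y, y1 ≤ y → y ≤ y2 → rho m y ≤ rr m y1) ∧
    (∀ d, Even ((Finset.range (NN m)).filter (fun y => rr m y = d)).card) := by
  refine ⟨fun y hy => rho_le_rr m y hy, fun y hy => rr_lt m y hy, ?_, ?_, ?_⟩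
  · intro y hy d h1 h2
    have hd : d < SS m + KK m := h2.trans (rr_lt m y hy)
    have eq1 := rr_qq m d hd
    have eq2 := rr_dd m d hd
    have g1 := qq_min m d y hd h2.le hy
    have g2 := dd_max m d y hd h1 hy
    refine ⟨qq m d, dd m d, ?_, ?_, dd_lt m d hd, eq1, eq2, ?_⟩
    · refine lt_of_le_of_ne g1 ?_
      intro e; rw [e] at eq1; omega
    · refine lt_of_le_of_ne g2 ?_
      intro e; rw [← e] at eq2; omega
    · intro y' hy' e
      exact (rr_eq_iff m d y' hd hy').1 e
  · intro y1 y2 hy2 e y _ h2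
    rw [e]
    exact (rho_mono m y y2 h2).trans (rho_le_rr m y2 hy2)
  · intro d
    by_cases hd : d < SS m + KK m
    · rw [card_class m d hd, Finset.card_pair (ne_of_lt (qq_lt_dd m d hd))]
      exact even_two
    · have : (Finset.range (NN m)).filter (fun y => rr m y = d) = ∅ := by
        rw [Finset.filter_eq_empty_iff]
        intro y hy e
        have := rr_lt m y (Finset.mem_range.1 hy)
        omega
      rw [this]
      simp

end Pool.Agent.Helper408_MT
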