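import Pool.Agent.Helper408_MT.LeftSmall
import Pool.Agent.Helper408_MT.RightSide
import Pool.Agent.Helper408_MT.ChainEnum

/-!
# The segments that belong to a clause
-/

set_option autoImplicit false

namespace Pool.Agent.Helper408_MT

variable {m : ℕ} {occ : Bool → ℕ → ℕ → Bool}

/-- Segment `c` belongs to clause `j`. -/
def InC (m j c : ℕ) : Prop :=
  c / 4 % (m + 2) = j + 1 ∧
    (c % 4 = 3 ∨ (c / KK m % 5 = 2 ∧ c % 4 = 0) ∨ (c / KK m % 5 ≠ 2 ∧ c % 4 = 2))

theorem add_K_div (c : ℕ) : (c + KK m) / KK m = c / KK m + 1 := Nat.add_div_right _ (KK_pos m)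

theorem add_K_blk (c : ℕ) : (c + KK m) / 4 % (m + 2) = c / 4 % (m + 2) := by
  have : (c + KK m) / 4 = c / 4 + (m + 2) := by unfold KK; omega
  rw [this, Nat.add_mod_right]

theorem add_K_mod (c : ℕ) : (c + KK m) % 4 = c % 4 := by unfold KK; omega

theorem inC_add (j c : ℕ) : InC m j (c + KK m) ↔ c / 4 % (m + 2) = j + 1 ∧
    (c % 4 = 3 ∨ (c / KK m % 5 = 1 ∧ c % 4 = 0) ∨ (c / KK m % 5 ≠ 1 ∧ c % 4 = 2)) := by
  unfold InC
  rw [add_K_div, add_K_blk, add_K_mod]
  generalize c / KK m = ρ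
  omega

/-- The kind of a step of an inner block. -/
theorem kind_inner {s j : ℕ} (hj : j < m) (hb : s / 4 % (m + 2) = j + 1) : kind m occ s =
    if s / KK m % 5 = 0 ∨ s / KK m % 5 = 3 then (if s % 4 < 2 then 2 else 0)
    else if s / KK m % 5 = 1 then
      (if s % 4 = 3 then 0 else if occ true (s / KK m / 5) j = true then 3 else 1)
    else if s / KK m % 5 = 2 then (if s % 4 = 3 then 0 else 1)
    else (if s % 4 = 3 then 0 else if occ false (s / KK m / 5) j = true then 3 else 0) := by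
  unfold kind
  rw [hb]
  have h1 : ¬ (j + 1 = 0) := by omega
  have h2 : ¬ (j + 1 = m + 1) := by omega
  simp only [h1, h2, false_or, if_false, add_tsub_cancel_right]

theorem inC_plain {s j : ℕ} (hj : j < m) (h : kind m occ s = 0) :
    InC m j s ↔ InC m j (s + KK m) := by
  rw [inC_add]
  unfold InC
  by_cases hb : s / 4 % (m + 2) = j + 1
  · rw [kind_inner hj hb] at h
    generalize s / KK m = ρ at *
    split_ifs at h <;> omega
  · simp only [hb, false_and]

theorem inC_hub {s j : ℕ} (hj : j < m) (h : kind m occ s = 2) :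
    ¬ InC m j s ∧ ¬ InC m j (s + KK m) := by
  rw [inC_add]
  unfold InC
  by_cases hb : s / 4 % (m + 2) = j + 1
  · rw [kind_inner hj hb] at h
    generalize s / KK m = ρ at *
    split_ifs at h <;> omega
  · simp only [hb, false_and, not_false_eq_true, and_self]

theorem div_KK (m x : ℕ) : x / KK m = x / 4 / (m + 2) := by
  unfold KK; rw [Nat.div_div_eq_div_mul]

/-- The six segments of a rainbow. -/
theorem inC_rainbow {s j : ℕ} (hj : j < m) (h : kind m occ s = 1) :
    (InC m j (s / 4 * 4 + KK m) ↔ InC m j (s / 4 * 4 + 2)) ∧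
    (InC m j (s / 4 * 4) ↔ InC m j (s / 4 * 4 + 2 + KK m)) ∧
    ¬ InC m j (s / 4 * 4 + 1) ∧ ¬ InC m j (s / 4 * 4 + 1 + KK m) := by
  have h3 := kind_one h
  simp only [inC_add]
  unfold InC
  have e0 : s / 4 * 4 / 4 = s / 4 := by omega
  have e1 : (s / 4 * 4 + 1) / 4 = s / 4 := by omega
  have e2 : (s / 4 * 4 + 2) / 4 = s / 4 := by omega
  have f0 : s / 4 * 4 % 4 = 0 := by omega
  have f1 : (s / 4 * 4 + 1) % 4 = 1 := by omega
  have f2 : (s / 4 * 4 + 2) % 4 = 2 := by omega
  have g0 : s / 4 * 4 / KK m = s / KK m := by rw [div_KK, e0, ← div_KK]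
  have g1 : (s / 4 * 4 + 1) / KK m = s / KK m := by rw [div_KK, e1, ← div_KK]
  have g2 : (s / 4 * 4 + 2) / KK m = s / KK m := by rw [div_KK, e2, ← div_KK]
  rw [g0, g1, g2, e0, e1, e2, f0, f1, f2]
  by_cases hb : s / 4 % (m + 2) = j + 1
  · rw [kind_inner hj hb] at h
    generalize s / KK m = ρ at *
    split_ifs at h <;> omega
  · simp only [hb, false_and, not_false_eq_true, and_self]

theorem inC_lt {j p : ℕ} (hp : p < KK m) :
    InC m j p ↔ p / 4 = j + 1 ∧ (p % 4 = 3 ∨ p % 4 = 2) := by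
  unfold InC
  rw [Nat.div_eq_of_lt hp]
  have : p / 4 % (m + 2) = p / 4 := Nat.mod_eq_of_lt (by unfold KK at hp; omega)
  rw [this]
  omega

theorem inC_final {j p : ℕ} (hp : p < KK m) :
    InC m j (SS m + p) ↔ p / 4 = j + 1 ∧ (p % 4 = 3 ∨ p % 4 = 2) := by
  obtain ⟨b, t, hb, ht, rfl⟩ : ∃ b t, b < m + 2 ∧ t < 4 ∧ p = 4 * b + t :=
    ⟨p / 4, p % 4, by unfold KK at hp; omega, by omega, by omega⟩
  unfold InC SS
  rw [coord_div m _ b t hb ht, coord_mod4 m _ b t ht, coord_blk m _ b t hb ht]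
  unfold RR
  omega

theorem small_inC {y j : ℕ} (hj : j < m) (hy : y < NN m) (h : lam m occ y < NN m)
    (hc : InC m j (rr m y)) : InC m j (rr m (partner m occ y)) := by
  have hK := KK_even m
  have hK0 := KK_pos m
  have hK4 : KK m % 4 = 0 := by unfold KK; omega
  have hN : NN m = 2 * SS m + 2 * KK m := rfl
  have hS4 : SS m % 4 = 0 := by
    unfold SS KK
    rw [show RR m * (4 * (m + 2)) = 4 * (RR m * (m + 2)) by ring]
    omega
  rcases lam_small_cases hy h with (h1 | h1) | ⟨h1, h2, h3 | h3⟩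
  · have e1 : partner m occ y = y / 2 * 2 + (1 - y % 2) := by
      rw [partner_eq, if_neg (by omega)]
    have h4 : partner m occ y < KK m := by omega
    rw [rr_init h1, inC_lt h1] at hc
    rw [rr_init h4, inC_lt h4, e1]
    omega
  · have e1 : partner m occ y = y / 2 * 2 + (1 - y % 2) := by
      rw [partner_eq, if_neg (by omega)]
    obtain ⟨p, rfl⟩ : ∃ p, y = KK m + 2 * SS m + p := ⟨y - KK m - 2 * SS m, by omega⟩
    rw [rr_fin, inC_final (by omega)] at hc
    have e2 : partner m occ (KK m + 2 * SS m + p) =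
        KK m + 2 * SS m + (p / 2 * 2 + (1 - p % 2)) := by
      rw [e1]; omega
    rw [e2, rr_fin, inC_final (by omega)]
    omega
  · have e1 : partner m occ y = y / 2 * 2 + (1 - y % 2) := by
      rw [partner_eq, if_neg (by omega)]
    have h5 := inC_plain hj h3
    rcases Nat.mod_two_eq_zero_or_one y with h4 | h4
    · have e2 : y = KK m + 2 * ((y - KK m) / 2) := by omega
      have e3 : partner m occ y = KK m + 2 * ((y - KK m) / 2) + 1 := by rw [e1]; omega
      have h6 : (y - KK m) / 2 < SS m := by omega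
      rw [e2, rr_W h6] at hc
      rw [e3, rr_T h6]
      exact h5.2 hc
    · have e2 : y = KK m + 2 * ((y - KK m) / 2) + 1 := by omega
      have e3 : partner m occ y = KK m + 2 * ((y - KK m) / 2) := by rw [e1]; omega
      have h6 : (y - KK m) / 2 < SS m := by omega
      rw [e2, rr_T h6] at hc
      rw [e3, rr_W h6]
      exact h5.1 hc
  · have h5 := kind_one h3
    obtain ⟨r1, r2, r3, r4⟩ := inC_rainbow hj h3
    have e1 : partner m occ y = 2 * (KK m + 8 * ((y - KK m) / 8)) + 5 - y := by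
      rw [partner_eq, if_pos ⟨h1, h2, h3⟩]
    obtain ⟨q, a, ha, rfl⟩ : ∃ q a, a < 6 ∧ y = KK m + 8 * q + a :=
      ⟨(y - KK m) / 8, (y - KK m) % 8, by omega, by omega⟩
    have e2 : (KK m + 8 * q + a - KK m) / 2 / 4 * 4 = 4 * q := by omega
    rw [e2] at r1 r2 r3 r4
    have hq : 4 * q + 3 < SS m := by omega
    have e3 : partner m occ (KK m + 8 * q + a) = KK m + 8 * q + (5 - a) := by
      rw [e1]; omega
    rw [e3]
    have w0 : rr m (KK m + 8 * q + 0) = 4 * q + KK m := by
      rw [show KK m + 8 * q + 0 = KK m + 2 * (4 * q) by ring, rr_W (by omega)]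
    have w1 : rr m (KK m + 8 * q + 1) = 4 * q := by
      rw [show KK m + 8 * q + 1 = KK m + 2 * (4 * q) + 1 by ring, rr_T (by omega)]
    have w2 : rr m (KK m + 8 * q + 2) = 4 * q + 1 + KK m := by
      rw [show KK m + 8 * q + 2 = KK m + 2 * (4 * q + 1) by ring, rr_W (by omega)]
    have w3 : rr m (KK m + 8 * q + 3) = 4 * q + 1 := by
      rw [show KK m + 8 * q + 3 = KK m + 2 * (4 * q + 1) + 1 by ring, rr_T (by omega)]
    have w4 : rr m (KK m + 8 * q + 4) = 4 * q + 2 + KK m := by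
      rw [show KK m + 8 * q + 4 = KK m + 2 * (4 * q + 2) by ring, rr_W (by omega)]
    have w5 : rr m (KK m + 8 * q + 5) = 4 * q + 2 := by
      rw [show KK m + 8 * q + 5 = KK m + 2 * (4 * q + 2) + 1 by ring, rr_T (by omega)]
    interval_cases a
    · rw [w0] at hc; simp only [Nat.sub_zero]; rw [w5]; exact r1.1 hc
    · rw [w1] at hc; simp only [Nat.reduceSub]; rw [w4]; exact r2.1 hc
    · rw [w2] at hc; exact absurd hc r4
    · rw [w3] at hc; exact absurd hc r3
    · rw [w4] at hc; simp only [Nat.reduceSub]; rw [w1]; exact r2.2 hc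
    · rw [w5] at hc; simp only [Nat.sub_self]; rw [w0]; exact r1.2 hc

end Pool.Agent.Helper408_MT
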