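import Pool.Agent.Helper408_MT.Rows

/-!
# The left side of the constructed configuration: definition
-/

set_option autoImplicit false

namespace Pool.Agent.Helper408_MT

/-- `g i 0 < … < g i (E i)` are the chain steps of variable `i`. -/
structure ChainEnum (m : ℕ) (occ : Bool → ℕ → ℕ → Bool) (E : ℕ → ℕ) (g : ℕ → ℕ → ℕ) : Prop where
  le : ∀ i < 3 * m, 7 ≤ E i ∧ E i + 1 ≤ 2 * KK m
  spec : ∀ i < 3 * m, ∀ e ≤ E i, g i e < SS m ∧ kind m occ (g i e) = 3 ∧
    g i e / KK m / 5 = i ∧ ev m occ (g i e) = e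
  mono : ∀ i < 3 * m, ∀ e < E i, g i e < g i (e + 1)
  surj : ∀ i < 3 * m, ∀ s < SS m, kind m occ s = 3 → s / KK m / 5 = i →
    ev m occ s ≤ E i ∧ g i (ev m occ s) = s

/-- Left depth of the departure row of step `s` in the constructed configuration. -/
def lcW (m : ℕ) (occ : Bool → ℕ → ℕ → Bool) (E : ℕ → ℕ) (τ : ℕ → Bool) (s : ℕ) : ℕ :=
  if kind m occ s = 3 ∧ τ (s / KK m / 5) = false then
    NN m * (RR m + 1 + s / KK m / 5) +
      (if ev m occ s = 0 then 0 else min (ev m occ s + 1) (E (s / KK m / 5)))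
  else lamStep m occ s (KK m + 2 * s)

/-- Left depth of the arrival row of step `s` in the constructed configuration. -/
def lcT (m : ℕ) (occ : Bool → ℕ → ℕ → Bool) (τ : ℕ → Bool) (s : ℕ) : ℕ :=
  if kind m occ s = 3 ∧ τ (s / KK m / 5) = false then
    NN m * (RR m + 1 + s / KK m / 5) + (if ev m occ s = 0 then 1 else ev m occ s - 1)
  else lamStep m occ s (KK m + 2 * s + 1)

/-- The left side of the configuration constructed from the assignment `τ`. -/
def lc (m : ℕ) (occ : Bool → ℕ → ℕ → Bool) (E : ℕ → ℕ) (τ : ℕ → Bool) (y : ℕ) : ℕ :=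
  if y < KK m ∨ KK m + 2 * SS m ≤ y then y / 2 * 2 + 1
  else if (y - KK m) % 2 = 0 then lcW m occ E τ ((y - KK m) / 2)
  else lcT m occ τ ((y - KK m) / 2)

theorem lc_init (m : ℕ) (occ : Bool → ℕ → ℕ → Bool) (E : ℕ → ℕ) (τ : ℕ → Bool) {y : ℕ}
    (hy : y < KK m) : lc m occ E τ y = y / 2 * 2 + 1 := by
  unfold lc; rw [if_pos (Or.inl hy)]

theorem lc_fin (m : ℕ) (occ : Bool → ℕ → ℕ → Bool) (E : ℕ → ℕ) (τ : ℕ → Bool) {y : ℕ}
    (hy : KK m + 2 * SS m ≤ y) : lc m occ E τ y = y / 2 * 2 + 1 := by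
  unfold lc; rw [if_pos (Or.inr hy)]

theorem lc_W (m : ℕ) (occ : Bool → ℕ → ℕ → Bool) (E : ℕ → ℕ) (τ : ℕ → Bool) {s : ℕ}
    (hs : s < SS m) : lc m occ E τ (KK m + 2 * s) = lcW m occ E τ s := by
  unfold lc
  rw [if_neg (by omega), if_pos (by omega)]
  congr 1
  omega

theorem lc_T (m : ℕ) (occ : Bool → ℕ → ℕ → Bool) (E : ℕ → ℕ) (τ : ℕ → Bool) {s : ℕ}
    (hs : s < SS m) : lc m occ E τ (KK m + 2 * s + 1) = lcT m occ τ s := by
  unfold lc
  rw [if_neg (by omega), if_neg (by omega)]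
  congr 1
  omega

end Pool.Agent.Helper408_MT
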