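import Pool.Agent.Helper408_MT.SideChain

/-!
# Small rows on the left
-/

set_option autoImplicit false

namespace Pool.Agent.Helper408_MT

variable {m : ℕ} {occ : Bool → ℕ → ℕ → Bool}

theorem kind_one {s : ℕ} (h : kind m occ s = 1) : s % 4 ≠ 3 := by
  intro h3
  unfold kind at h
  split_ifs at h <;> omega

theorem kind_one_congr {s s' : ℕ} (h : kind m occ s = 1) (hs : s' / 4 = s / 4) (h3 : s' % 4 ≠ 3) :
    kind m occ s' = 1 := by
  have h1 : ∀ x, x / KK m = x / 4 / (m + 2) := fun x => by
    unfold KK; rw [Nat.div_div_eq_div_mul]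
  have h2 := kind_one h
  unfold kind at h ⊢
  rw [h1, hs]
  rw [h1] at h
  split_ifs at h ⊢ <;> first | rfl | omega

/-- The partner of a small row on the left. -/
def partner (m : ℕ) (occ : Bool → ℕ → ℕ → Bool) (y : ℕ) : ℕ :=
  if KK m ≤ y ∧ y < KK m + 2 * SS m ∧ kind m occ ((y - KK m) / 2) = 1 then
    2 * (KK m + 8 * ((y - KK m) / 8)) + 5 - y
  else y / 2 * 2 + (1 - y % 2)

theorem partner_eq (m : ℕ) (occ : Bool → ℕ → ℕ → Bool) (y : ℕ) : partner m occ y =
    if KK m ≤ y ∧ y < KK m + 2 * SS m ∧ kind m occ ((y - KK m) / 2) = 1 then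
      2 * (KK m + 8 * ((y - KK m) / 8)) + 5 - y
    else y / 2 * 2 + (1 - y % 2) := rfl

theorem lam_small_cases {y : ℕ} (hy : y < NN m) (h : lam m occ y < NN m) :
    (y < KK m ∨ KK m + 2 * SS m ≤ y) ∨
    (KK m ≤ y ∧ y < KK m + 2 * SS m ∧
      (kind m occ ((y - KK m) / 2) = 0 ∨ kind m occ ((y - KK m) / 2) = 1)) := by
  by_cases h1 : y < KK m ∨ KK m + 2 * SS m ≤ y
  · exact Or.inl h1
  · refine Or.inr ⟨by omega, by omega, ?_⟩
    unfold lam lamStep at h
    rw [if_neg h1] at h
    split_ifs at h with h2 h3 h4
    · exact Or.inl h2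
    · exact Or.inr h3
    · exfalso
      have : NN m * 1 ≤ NN m * ((y - KK m) / 2 / KK m + 1) :=
        Nat.mul_le_mul_left _ (Nat.le_add_left _ _)
      omega
    · exfalso
      have : NN m * 1 ≤ NN m * (RR m + 1 + (y - KK m) / 2 / KK m / 5) :=
        Nat.mul_le_mul_left _ (le_trans (Nat.le_add_left 1 (RR m)) (Nat.le_add_right _ _))
      omega

/-- Everything about the partner of a small row. -/
theorem partner_props {y : ℕ} (hy : y < NN m) (h : lam m occ y < NN m) :
    lam m occ y = max y (partner m occ y) ∧ partner m occ y < NN m ∧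
      partner m occ (partner m occ y) = y ∧
      lam m occ (partner m occ y) = max y (partner m occ y) := by
  have hK := KK_even m
  have hK0 := KK_pos m
  have hN : NN m = 2 * SS m + 2 * KK m := rfl
  rcases lam_small_cases hy h with h1 | ⟨h1, h2, h3 | h3⟩
  · -- initial or final
    have e1 : partner m occ y = y / 2 * 2 + (1 - y % 2) := by
      unfold partner; rw [if_neg (by omega)]
    have e2 : lam m occ y = y / 2 * 2 + 1 := by unfold lam; rw [if_pos h1]
    have h4 : partner m occ y < KK m ∨ KK m + 2 * SS m ≤ partner m occ y := by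
      rw [e1]; omega
    have e3 : partner m occ (partner m occ y) =
        partner m occ y / 2 * 2 + (1 - partner m occ y % 2) := by
      rw [partner_eq m occ (partner m occ y), if_neg (by omega)]
    have e4 : lam m occ (partner m occ y) = partner m occ y / 2 * 2 + 1 := by
      unfold lam; rw [if_pos h4]
    rw [e3, e4, e2, e1]
    refine ⟨by omega, by omega, by omega, by omega⟩
  · -- plain
    have e1 : partner m occ y = y / 2 * 2 + (1 - y % 2) := by
      unfold partner; rw [if_neg (by omega)]
    have e2 : lam m occ y = y / 2 * 2 + 1 := by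
      unfold lam lamStep; rw [if_neg (by omega), if_pos h3]
    have h4 : (partner m occ y - KK m) / 2 = (y - KK m) / 2 := by rw [e1]; omega
    have e3 : partner m occ (partner m occ y) =
        partner m occ y / 2 * 2 + (1 - partner m occ y % 2) := by
      rw [partner_eq m occ (partner m occ y), h4, if_neg (by omega)]
    have e4 : lam m occ (partner m occ y) = partner m occ y / 2 * 2 + 1 := by
      unfold lam lamStep
      rw [if_neg (by rw [e1]; omega), h4, if_pos h3]
    rw [e3, e4, e2, e1]
    refine ⟨by omega, by omega, by omega, by omega⟩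
  · -- rainbow
    have h5 := kind_one h3
    have e1 : partner m occ y = 2 * (KK m + 8 * ((y - KK m) / 8)) + 5 - y := by
      unfold partner; rw [if_pos ⟨h1, h2, h3⟩]
    have e2 : lam m occ y = max y (2 * (KK m + 8 * ((y - KK m) / 8)) + 5 - y) := by
      unfold lam lamStep
      rw [if_neg (by omega), if_neg (by omega), if_pos h3]
      congr 2
      omega
    have h6 : (partner m occ y - KK m) / 8 = (y - KK m) / 8 := by rw [e1]; omega
    have h6' : (partner m occ y - KK m) / 2 / 4 = (y - KK m) / 2 / 4 := by rw [e1]; omega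
    have h7 : kind m occ ((partner m occ y - KK m) / 2) = 1 := by
      refine kind_one_congr h3 (by rw [e1]; omega) (by rw [e1]; omega)
    have h8 : KK m ≤ partner m occ y := by rw [e1]; omega
    have h9 : partner m occ y < KK m + 2 * SS m := by
      have : SS m % 4 = 0 := by
        unfold SS KK
        rw [show RR m * (4 * (m + 2)) = 4 * (RR m * (m + 2)) by ring]
        omega
      rw [e1]; omega
    have e3 : partner m occ (partner m occ y) =
        2 * (KK m + 8 * ((y - KK m) / 8)) + 5 - partner m occ y := by
      rw [partner_eq m occ (partner m occ y), if_pos ⟨h8, h9, h7⟩, h6]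
    have e4 : lam m occ (partner m occ y) =
        max (partner m occ y) (2 * (KK m + 8 * ((y - KK m) / 8)) + 5 - partner m occ y) := by
      unfold lam lamStep
      rw [if_neg (by omega), if_neg (by omega), if_pos h7]
      congr 2
      omega
    refine ⟨by rw [e2, e1], by omega, ?_, ?_⟩
    · rw [e3, e1]; omega
    · rw [e4, e1]; omega

/-- Two small rows that start in the same column are equal or partners. -/
theorem small_class {y y' : ℕ} (hy : y < NN m) (hy' : y' < NN m) (h : lam m occ y < NN m)
    (he : lam m occ y' = lam m occ y) : y' = y ∨ y' = partner m occ y := by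
  obtain ⟨a1, a2, a3, a4⟩ := partner_props hy h
  obtain ⟨b1, b2, b3, b4⟩ := partner_props hy' (he ▸ h)
  rw [a1, b1] at he
  rcases le_total y (partner m occ y) with h1 | h1 <;>
    rcases le_total y' (partner m occ y') with h2 | h2
  · rw [max_eq_right h1, max_eq_right h2] at he
    left
    rw [← a3, ← b3, he]
  · rw [max_eq_right h1, max_eq_left h2] at he
    exact Or.inr he
  · rw [max_eq_left h1, max_eq_right h2] at he
    right
    rw [← he, b3]
  · rw [max_eq_left h1, max_eq_left h2] at he
    exact Or.inl he

/-- Small rows turn at their first cell. -/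
theorem Side.left_small {l : ℕ → ℕ} (h : Side (NN m) (lam m occ) l) :
    ∀ y < NN m, lam m occ y < NN m → l y = lam m occ y := by
  have key : ∀ D, D < NN m → ∀ y < NN m, lam m occ y = D → l y = D := by
    intro D
    induction D using Nat.strong_induction_on with
    | _ D ih =>
      intro hD y hy hlam
      have h0 : ∀ y1 < NN m, l y1 = D → lam m occ y1 = D := by
        intro y1 hy1 hl
        have h1 := h.lam_le y1 hy1
        rcases lt_or_eq_of_le (hl ▸ h1) with h2 | h2
        · have := ih _ h2 (by omega) y1 hy1 rfl
          omega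
        · exact h2
      obtain ⟨y1, y2, h12, hy1, hy2, hy2N, e1, e2, _⟩ :=
        h.exists_pair D y hy hlam.le (hlam ▸ h.lam_le y hy)
      have l1 := h0 y1 (by omega) e1
      have l2 := h0 y2 hy2N e2
      rcases small_class hy (by omega : y1 < NN m) (by omega) (l1.trans hlam.symm) with h3 | h3
      · rw [← h3]; exact e1
      rcases small_class hy hy2N (by omega) (l2.trans hlam.symm) with h4 | h4
      · rw [← h4]; exact e2
      · omega
  intro y hy hlt
  exact key _ hlt y hy rfl

end Pool.Agent.Helper408_MT
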