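import Pool.Agent.Helper408_MT.Defs

/-!
# Tours from closed polylines
-/

set_option autoImplicit false

namespace Pool.Agent.Helper408_MT

/-- auxiliary: turn cost of two directions -/
def tour_of_polyline_tD (a b : ℤ × ℤ) : ℕ := if b = a then 0 else if b = -a then 2 else 1

/-- auxiliary: open cost of a list -/
def tour_of_polyline_oc {α : Type} (f : α → α → ℕ) : List α → ℕ
  | [] => 0
  | [_] => 0
  | a :: b :: l => f a b + tour_of_polyline_oc f (b :: l)

theorem tour_of_polyline_zip {α : Type} (f : α → α → ℕ) (c : α) (t : List α) : ∀ (a z : α),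
    (a :: t).getLast? = some z →
    (((a :: t).zip (t ++ [c])).map fun x => f x.1 x.2).sum = tour_of_polyline_oc f (a :: t) + f z c := by
  induction t with
  | nil =>
    intro a z h
    simp only [List.getLast?_singleton, Option.some.injEq] at h
    subst h
    simp [tour_of_polyline_oc]
  | cons b t ih =>
    intro a z h
    have h' : (b :: t).getLast? = some z := by
      rw [List.getLast?_cons_cons] at h
      exact h
    have := ih b z h'
    simp only [List.cons_append, List.zip_cons_cons, List.map_cons, List.sum_cons, tour_of_polyline_oc]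
    rw [this]
    ring

theorem tour_of_polyline_cyc {α : Type} (f : α → α → ℕ) (L : List α) (a z : α) (ha : L.head? = some a)
    (hz : L.getLast? = some z) :
    ((L.zip (L.rotate 1)).map fun x => f x.1 x.2).sum = tour_of_polyline_oc f L + f z a := by
  cases L with
  | nil => simp at ha
  | cons b t =>
    simp only [List.head?_cons, Option.some.injEq] at ha
    subst ha
    have : (b :: t).rotate 1 = t ++ [b] := by
      rw [List.rotate_cons_succ, List.rotate_zero]
    rw [this]
    exact tour_of_polyline_zip f b t b z hz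

theorem tour_of_polyline_oc_append {α : Type} (f : α → α → ℕ) (b : α) (l₂ : List α) (hb : l₂.head? = some b)
    (l₁ : List α) : ∀ a : α, l₁.getLast? = some a →
    tour_of_polyline_oc f (l₁ ++ l₂) = tour_of_polyline_oc f l₁ + f a b + tour_of_polyline_oc f l₂ := by
  induction l₁ with
  | nil => intro a h; simp at h
  | cons c t ih =>
    intro a h
    cases t with
    | nil =>
      simp only [List.getLast?_singleton, Option.some.injEq] at h
      subst h
      cases l₂ with
      | nil => simp at hb
      | cons d l₂ =>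
        simp only [List.head?_cons, Option.some.injEq] at hb
        subst hb
        simp [tour_of_polyline_oc]
    | cons d t =>
      rw [List.getLast?_cons_cons] at h
      have := ih a h
      simp only [List.cons_append, tour_of_polyline_oc] at this ⊢
      rw [this]
      ring

theorem tour_of_polyline_oc_replicate (a : ℤ × ℤ) (m : ℕ) :
    tour_of_polyline_oc tour_of_polyline_tD (List.replicate m a) = 0 := by
  induction m with
  | zero => simp [tour_of_polyline_oc]
  | succ m ih =>
    cases m with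
    | zero => simp [tour_of_polyline_oc]
    | succ m =>
      rw [List.replicate_succ, List.replicate_succ, tour_of_polyline_oc, ← List.replicate_succ, ih]
      simp [tour_of_polyline_tD]

theorem tour_of_polyline_oc_map {V : Set (ℤ × ℤ)} (L : List (gridGraph V).Dart) :
    tour_of_polyline_oc turn L = tour_of_polyline_oc tour_of_polyline_tD (L.map dir) := by
  induction L with
  | nil => simp [tour_of_polyline_oc]
  | cons a L ih =>
    cases L with
    | nil => simp [tour_of_polyline_oc]
    | cons b L =>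
      simp only [List.map_cons, tour_of_polyline_oc] at ih ⊢
      rw [ih]
      rfl

/-- straight walks -/
theorem tour_of_polyline_straight {V : Set (ℤ × ℤ)} (d : ℤ × ℤ) (hd : d.1 ^ 2 + d.2 ^ 2 = 1) (m : ℕ) :
    ∀ (u b : V), b.1 = (u.1.1 + m * d.1, u.1.2 + m * d.2) →
    (∀ j : ℕ, j ≤ m → ((u.1.1 + j * d.1, u.1.2 + j * d.2) : ℤ × ℤ) ∈ V) →
    ∃ w : (gridGraph V).Walk u b, w.darts.map dir = List.replicate m d ∧
      ∀ x : V, (∃ j : ℕ, j ≤ m ∧ x.1 = (u.1.1 + j * d.1, u.1.2 + j * d.2)) → x ∈ w.support := by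
  induction m with
  | zero =>
    intro u b hb _
    have hub : u = b := by
      apply Subtype.ext
      rw [hb]
      ext <;> simp
    subst hub
    refine ⟨SimpleGraph.Walk.nil, by simp, ?_⟩
    rintro x ⟨j, hj, hx⟩
    have hj0 : j = 0 := by omega
    subst hj0
    have : x = u := by
      apply Subtype.ext
      rw [hx]
      ext <;> simp
    subst this
    simp
  | succ m ih =>
    intro u b hb hV
    have h1 : ((u.1.1 + d.1, u.1.2 + d.2) : ℤ × ℤ) ∈ V := by
      have := hV 1 (by omega)
      simpa using this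
    obtain ⟨w, hw, hs⟩ := ih ⟨(u.1.1 + d.1, u.1.2 + d.2), h1⟩ b (by
      rw [hb]
      ext
      · push_cast; ring
      · push_cast; ring) (by
      intro j hj
      have := hV (j + 1) (by omega)
      convert this using 2
      · push_cast; ring
      · push_cast; ring)
    have hadj : (gridGraph V).Adj u ⟨(u.1.1 + d.1, u.1.2 + d.2), h1⟩ := by
      change (u.1.1 - (u.1.1 + d.1)) ^ 2 + (u.1.2 - (u.1.2 + d.2)) ^ 2 = 1
      have : (u.1.1 - (u.1.1 + d.1)) ^ 2 + (u.1.2 - (u.1.2 + d.2)) ^ 2 = d.1 ^ 2 + d.2 ^ 2 := by ring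
      rw [this, hd]
    refine ⟨SimpleGraph.Walk.cons hadj w, ?_, ?_⟩
    · rw [SimpleGraph.Walk.darts_cons, List.map_cons, hw, List.replicate_succ]
      congr 1
      unfold dir
      ext <;> simp
    · rintro x ⟨j, hj, hx⟩
      rw [SimpleGraph.Walk.support_cons, List.mem_cons]
      rcases Nat.eq_zero_or_pos j with h0 | h0
      · left
        subst h0
        apply Subtype.ext
        rw [hx]
        ext <;> simp
      · right
        obtain ⟨j, rfl⟩ : ∃ i, j = i + 1 := ⟨j - 1, by omega⟩
        apply hs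
        refine ⟨j, by omega, ?_⟩
        rw [hx]
        ext
        · push_cast; ring
        · push_cast; ring

/-- horizontal segments -/
theorem tour_of_polyline_hor {V : Set (ℤ × ℤ)} (u b : V) (h2 : u.1.2 = b.1.2) (h1 : u.1.1 ≠ b.1.1)
    (hV : ∀ x : ℤ, min u.1.1 b.1.1 ≤ x → x ≤ max u.1.1 b.1.1 → (x, u.1.2) ∈ V) :
    ∃ (w : (gridGraph V).Walk u b) (m : ℕ) (d : ℤ × ℤ), 0 < m ∧ d.2 = 0 ∧ d.1 ≠ 0 ∧
      w.darts.map dir = List.replicate m d ∧
      ∀ x : V, x.1.2 = u.1.2 → min u.1.1 b.1.1 ≤ x.1.1 → x.1.1 ≤ max u.1.1 b.1.1 → x ∈ w.support := by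
  rcases lt_or_gt_of_ne h1 with h | h
  · obtain ⟨w, hw, hs⟩ := tour_of_polyline_straight (V := V) (1, 0) (by norm_num) (b.1.1 - u.1.1).toNat u b (by
        ext
        · simp only [mul_one]
          rw [Int.toNat_of_nonneg (by omega)]
          ring
        · simp [h2]) (by
        intro j hj
        have := hV (u.1.1 + j * 1) (by omega) (by omega)
        simpa using this)
    refine ⟨w, (b.1.1 - u.1.1).toNat, (1, 0), by omega, rfl, by norm_num, hw, ?_⟩
    intro x hx2 hx1 hx3
    apply hs
    refine ⟨(x.1.1 - u.1.1).toNat, by omega, ?_⟩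
    ext
    · simp only [mul_one]
      rw [Int.toNat_of_nonneg (by omega)]
      ring
    · simp [hx2]
  · obtain ⟨w, hw, hs⟩ := tour_of_polyline_straight (V := V) (-1, 0) (by norm_num) (u.1.1 - b.1.1).toNat u b (by
        ext
        · simp only [mul_neg, mul_one]
          rw [Int.toNat_of_nonneg (by omega)]
          ring
        · simp [h2]) (by
        intro j hj
        have := hV (u.1.1 + j * (-1)) (by omega) (by omega)
        simpa using this)
    refine ⟨w, (u.1.1 - b.1.1).toNat, (-1, 0), by omega, rfl, by norm_num, hw, ?_⟩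
    intro x hx2 hx1 hx3
    apply hs
    refine ⟨(u.1.1 - x.1.1).toNat, by omega, ?_⟩
    ext
    · simp only [mul_neg, mul_one]
      rw [Int.toNat_of_nonneg (by omega)]
      ring
    · simp [hx2]

/-- vertical segments -/
theorem tour_of_polyline_ver {V : Set (ℤ × ℤ)} (u b : V) (h2 : u.1.1 = b.1.1) (h1 : u.1.2 ≠ b.1.2)
    (hV : ∀ x : ℤ, min u.1.2 b.1.2 ≤ x → x ≤ max u.1.2 b.1.2 → (u.1.1, x) ∈ V) :
    ∃ (w : (gridGraph V).Walk u b) (m : ℕ) (d : ℤ × ℤ), 0 < m ∧ d.1 = 0 ∧ d.2 ≠ 0 ∧
      w.darts.map dir = List.replicate m d ∧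
      ∀ x : V, x.1.1 = u.1.1 → min u.1.2 b.1.2 ≤ x.1.2 → x.1.2 ≤ max u.1.2 b.1.2 → x ∈ w.support := by
  rcases lt_or_gt_of_ne h1 with h | h
  · obtain ⟨w, hw, hs⟩ := tour_of_polyline_straight (V := V) (0, 1) (by norm_num) (b.1.2 - u.1.2).toNat u b (by
        ext
        · simp [h2]
        · simp only [mul_one]
          rw [Int.toNat_of_nonneg (by omega)]
          ring) (by
        intro j hj
        have := hV (u.1.2 + j * 1) (by omega) (by omega)
        simpa using this)
    refine ⟨w, (b.1.2 - u.1.2).toNat, (0, 1), by omega, rfl, by norm_num, hw, ?_⟩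
    intro x hx2 hx1 hx3
    apply hs
    refine ⟨(x.1.2 - u.1.2).toNat, by omega, ?_⟩
    ext
    · simp [hx2]
    · simp only [mul_one]
      rw [Int.toNat_of_nonneg (by omega)]
      ring
  · obtain ⟨w, hw, hs⟩ := tour_of_polyline_straight (V := V) (0, -1) (by norm_num) (u.1.2 - b.1.2).toNat u b (by
        ext
        · simp [h2]
        · simp only [mul_neg, mul_one]
          rw [Int.toNat_of_nonneg (by omega)]
          ring) (by
        intro j hj
        have := hV (u.1.2 + j * (-1)) (by omega) (by omega)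
        simpa using this)
    refine ⟨w, (u.1.2 - b.1.2).toNat, (0, -1), by omega, rfl, by norm_num, hw, ?_⟩
    intro x hx2 hx1 hx3
    apply hs
    refine ⟨(u.1.2 - x.1.2).toNat, by omega, ?_⟩
    ext
    · simp [hx2]
    · simp only [mul_neg, mul_one]
      rw [Int.toNat_of_nonneg (by omega)]
      ring

theorem tour_of_polyline_tD_hv {a b : ℤ × ℤ} (ha2 : a.2 = 0) (ha1 : a.1 ≠ 0) (hb1 : b.1 = 0) :
    tour_of_polyline_tD a b = 1 := by
  unfold tour_of_polyline_tD
  rw [if_neg, if_neg]
  · intro h
    apply ha1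
    have := congrArg Prod.fst h
    simp only [Prod.fst_neg] at this
    omega
  · intro h
    apply ha1
    have := congrArg Prod.fst h
    omega

theorem tour_of_polyline_tD_vh {a b : ℤ × ℤ} (ha2 : a.1 = 0) (ha1 : a.2 ≠ 0) (hb1 : b.2 = 0) :
    tour_of_polyline_tD a b = 1 := by
  unfold tour_of_polyline_tD
  rw [if_neg, if_neg]
  · intro h
    apply ha1
    have := congrArg Prod.snd h
    simp only [Prod.snd_neg] at this
    omega
  · intro h
    apply ha1
    have := congrArg Prod.snd h
    omega

theorem tour_of_polyline_head_replicate {α : Type} (m : ℕ) (hm : 0 < m) (d : α) :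
    (List.replicate m d).head? = some d := by
  obtain ⟨m, rfl⟩ : ∃ i, m = i + 1 := ⟨m - 1, by omega⟩
  simp [List.replicate_succ]

theorem tour_of_polyline_last_replicate {α : Type} (m : ℕ) (hm : 0 < m) (d : α) :
    (List.replicate m d).getLast? = some d := by
  obtain ⟨m, rfl⟩ : ∃ i, m = i + 1 := ⟨m - 1, by omega⟩
  rw [List.replicate_succ', List.getLast?_append]
  simp

/- TARGET.  A closed polyline with alternating horizontal and vertical segments gives a tour.
`p 0, p 1, …, p (2 * n) = p 0` are the corners; the segments `p (2 i) p (2 i + 1)` are horizontal, the segments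
`p (2 i + 1) p (2 i + 2)` are vertical, all of positive length, all their lattice points are in `V`, and every point of `V`
is on one of the segments. Then there is a closed walk along the segments, visiting all points, with one 90 degree turn at
each of the `2 n` corners and no other turns.
Suggested proof. First a straight walk from `a` to `b` on a line inside `V` (induction on the distance): all darts have the same
direction, the support contains all lattice points between. For open walks put `cost p = (p.darts.zip p.darts.tail)` summed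
over `turn`; show `cost (p.append q) ≤ cost p + cost q + 1` when the last dart of `p` and the first dart of `q` are
perpendicular (turn = 1), both nonempty. Build the walk `p 0 → p (2 i)` by induction on `i` with cost `≤ 2 i - 1` (i ≥ 1), first
dart horizontal and last dart vertical; closing up adds 1. Alternatively describe the whole walk by its list of darts or of
directions. -/
theorem tour_of_polyline (V : Set (ℤ × ℤ)) (n : ℕ) (hn : 0 < n) (p : ℕ → ℤ × ℤ)
    (hper : p (2 * n) = p 0)
    (hh : ∀ i < n, (p (2 * i)).2 = (p (2 * i + 1)).2 ∧ (p (2 * i)).1 ≠ (p (2 * i + 1)).1)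
    (hv : ∀ i < n, (p (2 * i + 1)).1 = (p (2 * i + 2)).1 ∧ (p (2 * i + 1)).2 ≠ (p (2 * i + 2)).2)
    (hH : ∀ i < n, ∀ x : ℤ, min (p (2 * i)).1 (p (2 * i + 1)).1 ≤ x →
      x ≤ max (p (2 * i)).1 (p (2 * i + 1)).1 → (x, (p (2 * i)).2) ∈ V)
    (hV : ∀ i < n, ∀ y : ℤ, min (p (2 * i + 1)).2 (p (2 * i + 2)).2 ≤ y →
      y ≤ max (p (2 * i + 1)).2 (p (2 * i + 2)).2 → ((p (2 * i + 1)).1, y) ∈ V)
    (hcov : ∀ v ∈ V, ∃ i < n,
      (v.2 = (p (2 * i)).2 ∧ min (p (2 * i)).1 (p (2 * i + 1)).1 ≤ v.1 ∧
        v.1 ≤ max (p (2 * i)).1 (p (2 * i + 1)).1) ∨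
      (v.1 = (p (2 * i + 1)).1 ∧ min (p (2 * i + 1)).2 (p (2 * i + 2)).2 ≤ v.2 ∧
        v.2 ≤ max (p (2 * i + 1)).2 (p (2 * i + 2)).2)) :
    HasTour V (2 * n) := by
  have hmem : ∀ k, k ≤ 2 * n → p k ∈ V := by
    have hlt : ∀ k, k < 2 * n → p k ∈ V := by
      intro k hk
      rcases Nat.even_or_odd' k with ⟨i, rfl | rfl⟩
      · have := hH i (by omega) (p (2 * i)).1 (min_le_left _ _) (le_max_left _ _)
        simpa using this
      · have := hV i (by omega) (p (2 * i + 1)).2 (min_le_left _ _) (le_max_left _ _)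
        simpa using this
    intro k hk
    rcases Nat.lt_or_ge k (2 * n) with h | h
    · exact hlt k h
    · have : k = 2 * n := by omega
      rw [this, hper]
      exact hlt 0 (by omega)
  -- main induction over pairs of segments
  have main : ∀ i, i + 1 ≤ n → ∀ (h0 : p 0 ∈ V) (hk : p (2 * (i + 1)) ∈ V),
      ∃ (w : (gridGraph V).Walk ⟨p 0, h0⟩ ⟨p (2 * (i + 1)), hk⟩) (a z : ℤ × ℤ),
        (w.darts.map dir).head? = some a ∧ (w.darts.map dir).getLast? = some z ∧ a.2 = 0 ∧ a.1 ≠ 0 ∧
        z.1 = 0 ∧ z.2 ≠ 0 ∧ tour_of_polyline_oc tour_of_polyline_tD (w.darts.map dir) + 1 ≤ 2 * (i + 1) ∧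
        ∀ v : V, ∀ j, j < i + 1 →
          ((v.1.2 = (p (2 * j)).2 ∧ min (p (2 * j)).1 (p (2 * j + 1)).1 ≤ v.1.1 ∧
            v.1.1 ≤ max (p (2 * j)).1 (p (2 * j + 1)).1) ∨
          (v.1.1 = (p (2 * j + 1)).1 ∧ min (p (2 * j + 1)).2 (p (2 * j + 2)).2 ≤ v.1.2 ∧
            v.1.2 ≤ max (p (2 * j + 1)).2 (p (2 * j + 2)).2)) → v ∈ w.support := by
    -- one pair of segments
    have pair : ∀ i, i < n → ∀ (h0 : p (2 * i) ∈ V) (hk : p (2 * (i + 1)) ∈ V),
      ∃ (w : (gridGraph V).Walk ⟨p (2 * i), h0⟩ ⟨p (2 * (i + 1)), hk⟩) (a z : ℤ × ℤ),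
        (w.darts.map dir).head? = some a ∧ (w.darts.map dir).getLast? = some z ∧ a.2 = 0 ∧ a.1 ≠ 0 ∧
        z.1 = 0 ∧ z.2 ≠ 0 ∧ tour_of_polyline_oc tour_of_polyline_tD (w.darts.map dir) ≤ 1 ∧
        ∀ v : V,
          ((v.1.2 = (p (2 * i)).2 ∧ min (p (2 * i)).1 (p (2 * i + 1)).1 ≤ v.1.1 ∧
            v.1.1 ≤ max (p (2 * i)).1 (p (2 * i + 1)).1) ∨
          (v.1.1 = (p (2 * i + 1)).1 ∧ min (p (2 * i + 1)).2 (p (2 * i + 2)).2 ≤ v.1.2 ∧
            v.1.2 ≤ max (p (2 * i + 1)).2 (p (2 * i + 2)).2)) → v ∈ w.support := by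
      intro i hi h0 hk
      have hm : p (2 * i + 1) ∈ V := hmem _ (by omega)
      obtain ⟨w₁, m₁, d₁, hm₁, hd₁, hd₁', hw₁, hs₁⟩ := tour_of_polyline_hor (V := V) ⟨p (2 * i), h0⟩
        ⟨p (2 * i + 1), hm⟩ (hh i hi).1 (hh i hi).2 (hH i hi)
      obtain ⟨w₂, m₂, d₂, hm₂, hd₂, hd₂', hw₂, hs₂⟩ := tour_of_polyline_ver (V := V) ⟨p (2 * i + 1), hm⟩
        ⟨p (2 * (i + 1)), hk⟩ (hv i hi).1 (hv i hi).2 (hV i hi)
      have hdl : (w₁.append w₂).darts.map dir = List.replicate m₁ d₁ ++ List.replicate m₂ d₂ := by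
        rw [SimpleGraph.Walk.darts_append, List.map_append, hw₁, hw₂]
      refine ⟨w₁.append w₂, d₁, d₂, ?_, ?_, hd₁, hd₁', hd₂, hd₂', ?_, ?_⟩
      · rw [hdl, List.head?_append, tour_of_polyline_head_replicate m₁ hm₁]
        rfl
      · rw [hdl, List.getLast?_append, tour_of_polyline_last_replicate m₂ hm₂]
        rfl
      · rw [hdl, tour_of_polyline_oc_append tour_of_polyline_tD d₂ _ (tour_of_polyline_head_replicate m₂ hm₂ _) _ d₁
          (tour_of_polyline_last_replicate m₁ hm₁ _), tour_of_polyline_oc_replicate, tour_of_polyline_oc_replicate,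
          tour_of_polyline_tD_hv hd₁ hd₁' hd₂]
      · intro v hvv
        rw [SimpleGraph.Walk.mem_support_append_iff]
        rcases hvv with ⟨ha, hb, hc⟩ | ⟨ha, hb, hc⟩
        · left
          exact hs₁ v ha hb hc
        · right
          exact hs₂ v ha hb hc
    intro i
    induction i with
    | zero =>
      intro hi h0 hk
      obtain ⟨w, a, z, ha, hz, ha2, ha1, hz1, hz2, hoc, hs⟩ := pair 0 (by omega) h0 hk
      refine ⟨w, a, z, ha, hz, ha2, ha1, hz1, hz2, by omega, ?_⟩
      intro v j hj hvj
      have hj0 : j = 0 := by omega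
      subst hj0
      exact hs v hvj
    | succ i ih =>
      intro hi h0 hk
      have hm : p (2 * (i + 1)) ∈ V := hmem _ (by omega)
      obtain ⟨w, a, z, ha, hz, ha2, ha1, hz1, hz2, hoc, hs⟩ := ih (by omega) h0 hm
      obtain ⟨w', a', z', ha', hz', ha2', ha1', hz1', hz2', hoc', hs'⟩ := pair (i + 1) (by omega) hm hk
      have hdl : (w.append w').darts.map dir = w.darts.map dir ++ w'.darts.map dir := by
        rw [SimpleGraph.Walk.darts_append, List.map_append]
      refine ⟨w.append w', a, z', ?_, ?_, ha2, ha1, hz1', hz2', ?_, ?_⟩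
      · rw [hdl, List.head?_append, ha]
        rfl
      · rw [hdl, List.getLast?_append, hz']
        rfl
      · rw [hdl, tour_of_polyline_oc_append tour_of_polyline_tD a' _ ha' _ z hz,
          tour_of_polyline_tD_vh hz1 hz2 ha2']
        omega
      · intro v j hj hvj
        rw [SimpleGraph.Walk.mem_support_append_iff]
        rcases Nat.lt_or_ge j (i + 1) with h | h
        · left
          exact hs v j h hvj
        · right
          have hji : j = i + 1 := by omega
          subst hji
          exact hs' v hvj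
  have h0 : p 0 ∈ V := hmem 0 (by omega)
  have hk : p (2 * (n - 1 + 1)) ∈ V := hmem _ (by omega)
  obtain ⟨w, a, z, ha, hz, ha2, ha1, hz1, hz2, hoc, hs⟩ := main (n - 1) (by omega) h0 hk
  have hend : (⟨p (2 * (n - 1 + 1)), hk⟩ : V) = ⟨p 0, h0⟩ := by
    apply Subtype.ext
    change p (2 * (n - 1 + 1)) = p 0
    have : n - 1 + 1 = n := by omega
    rw [this, hper]
  refine ⟨⟨p 0, h0⟩, w.copy rfl hend, ?_, ?_⟩
  · intro u
    rw [SimpleGraph.Walk.support_copy]
    obtain ⟨i, hi, h⟩ := hcov u.1 u.2
    exact hs u i (by omega) h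
  · unfold turnCost
    rw [SimpleGraph.Walk.darts_copy]
    have hL : (w.darts.map dir).head? = some a := ha
    cases hw : w.darts with
    | nil =>
      rw [hw] at ha
      simp at ha
    | cons d t =>
      obtain ⟨e, he⟩ : ∃ e, (d :: t).getLast? = some e := by
        rw [List.getLast?_cons]
        exact ⟨_, rfl⟩
      rw [tour_of_polyline_cyc turn (d :: t) d e rfl he, tour_of_polyline_oc_map]
      have hda : dir d = a := by
        rw [hw] at ha
        simpa using ha
      have hez : dir e = z := by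
        rw [hw, List.getLast?_map, he] at hz
        simpa using hz
      have hturn : turn e d = 1 := by
        have : turn e d = tour_of_polyline_tD (dir e) (dir d) := rfl
        rw [this, hda, hez]
        exact tour_of_polyline_tD_vh hz1 hz2 ha2
      rw [hturn, ← hw]
      omega

end Pool.Agent.Helper408_MT
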