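import Mathlib

/-!
# Minimum-turn covering tours in solid grid graphs: the problem

* `gridGraph V`: the grid graph with vertex set `V`.
* `drawing V`, `face V p`, `Solid V`: the drawing with straight unit edges, its faces, and the
  property that every bounded face is a unit square.
* `turnCost p`: the turn cost of a closed walk; `HasTour V k`: there is a tour of turn cost at
  most `k`.
* `verts I`: the vertex set given by a list of lattice points.
-/

set_option autoImplicit false

namespace Pool.Agent.Helper408_MT

/-- The grid graph with vertex set `V`: two lattice points are adjacent exactly when their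
Euclidean distance is `1`. -/
def gridGraph (V : Set (ℤ × ℤ)) : SimpleGraph V where
  Adj a b := (a.1.1 - b.1.1) ^ 2 + (a.1.2 - b.1.2) ^ 2 = 1
  symm := ⟨fun a b h => by nlinarith [h]⟩
  loopless := ⟨fun a h => by simp at h⟩

/-- A lattice point as a point of the plane. -/
def pt (a : ℤ × ℤ) : ℝ × ℝ := ((a.1 : ℝ), (a.2 : ℝ))

/-- The drawing of the grid graph on `V`: the vertices and the straight unit edges. -/
def drawing (V : Set (ℤ × ℤ)) : Set (ℝ × ℝ) :=
  {p | (∃ a ∈ V, p = pt a) ∨
    ∃ a b : V, (gridGraph V).Adj a b ∧ p ∈ segment ℝ (pt a.1) (pt b.1)}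

/-- The face of the drawing that contains the point `p`: the connected component of `p` in the
complement of the drawing. -/
def face (V : Set (ℤ × ℤ)) (p : ℝ × ℝ) : Set (ℝ × ℝ) := connectedComponentIn (drawing V)ᶜ p

/-- The grid graph on `V` is solid: every bounded face of its drawing is a unit square. -/
def Solid (V : Set (ℤ × ℤ)) : Prop :=
  ∀ p ∉ drawing V, Bornology.IsBounded (face V p) →
    ∃ i j : ℤ, face V p = Set.Ioo (i : ℝ) (i + 1) ×ˢ Set.Ioo (j : ℝ) (j + 1)

/-- The direction of an edge traversed by a walk. -/
def dir {V : Set (ℤ × ℤ)} (d : (gridGraph V).Dart) : ℤ × ℤ := d.snd.1 - d.fst.1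

/-- The turn cost incurred between two consecutive edges of a walk: `0` for going straight on,
`2` for a reversal and `1` otherwise (a turn by 90 degrees). -/
def turn {V : Set (ℤ × ℤ)} (d e : (gridGraph V).Dart) : ℕ :=
  if dir e = dir d then 0 else if dir e = -dir d then 2 else 1

/-- The turn cost of a closed walk: the sum of the turn costs at all its vertices, including the
point where it closes up. -/
def turnCost {V : Set (ℤ × ℤ)} {v : V} (p : (gridGraph V).Walk v v) : ℕ :=
  ((p.darts.zip (p.darts.rotate 1)).map fun x => turn x.1 x.2).sum

/-- The grid graph on `V` has a tour (a closed walk that visits every vertex) of turn cost at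
most `k`. -/
def HasTour (V : Set (ℤ × ℤ)) (k : ℕ) : Prop :=
  ∃ (v : V) (p : (gridGraph V).Walk v v), (∀ u : V, u ∈ p.support) ∧ turnCost p ≤ k

/-- The vertex set of an instance: a list of lattice points and a bound. -/
def verts (I : List (ℤ × ℤ) × ℕ) : Set (ℤ × ℤ) := {a | a ∈ I.1}

end Pool.Agent.Helper408_MT
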