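import Pool.Agent.Helper408_MT.Defs

/-!
# Rows, steps and their coordinates
-/

set_option autoImplicit false

namespace Pool.Agent.Helper408_MT

/-- One side (left or right) of a configuration: row `y` starts at depth `lam y` and is finished at
depth `l y`. -/
structure Side (N : ℕ) (lam l : ℕ → ℕ) : Prop where
  lam_le : ∀ y < N, lam y ≤ l y
  cov : ∀ y < N, ∀ d, lam y ≤ d → d < l y →
    ∃ y1 y2, y1 < y ∧ y < y2 ∧ y2 < N ∧ l y1 = d ∧ l y2 = d
  even : ∀ d, Even ((Finset.range N).filter (fun y => l y = d)).card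

/-- All rows that start before depth `D` are finished before depth `D`. -/
def Clean (N : ℕ) (lam l : ℕ → ℕ) (D : ℕ) : Prop := ∀ y < N, lam y < D → l y < D

/-- The forced right side: row `y` ends at depth `rr m y`. -/
def rr (m y : ℕ) : ℕ :=
  if y < KK m then y
  else if y < KK m + 2 * SS m then
    (y - KK m) / 2 + (if (y - KK m) % 2 = 0 then KK m else 0)
  else y - KK m - SS m

theorem KK_pos (m : ℕ) : 0 < KK m := by unfold KK; omega

theorem KK_mod (m : ℕ) : KK m % 8 = 4 * (m % 2) := by unfold KK; omega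

theorem KK_even (m : ℕ) : KK m % 2 = 0 := by unfold KK; omega

theorem coord_lt (m b t : ℕ) (hb : b < m + 2) (ht : t < 4) : 4 * b + t < KK m := by
  unfold KK; omega

theorem coord_div (m ρ b t : ℕ) (hb : b < m + 2) (ht : t < 4) :
    (ρ * KK m + (4 * b + t)) / KK m = ρ := by
  rw [mul_comm, Nat.mul_add_div (KK_pos m), Nat.div_eq_of_lt (coord_lt m b t hb ht), add_zero]

theorem coord_mod4 (m ρ b t : ℕ) (ht : t < 4) : (ρ * KK m + (4 * b + t)) % 4 = t := by
  have : ρ * KK m + (4 * b + t) = 4 * (ρ * (m + 2) + b) + t := by unfold KK; ring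
  omega

theorem coord_blk (m ρ b t : ℕ) (hb : b < m + 2) (ht : t < 4) :
    (ρ * KK m + (4 * b + t)) / 4 % (m + 2) = b := by
  have h1 : ρ * KK m + (4 * b + t) = 4 * (ρ * (m + 2) + b) + t := by unfold KK; ring
  have h2 : (ρ * KK m + (4 * b + t)) / 4 = b + (m + 2) * ρ := by
    rw [h1]
    have : (4 * (ρ * (m + 2) + b) + t) / 4 = ρ * (m + 2) + b := by omega
    rw [this]; ring
  rw [h2, Nat.add_mul_mod_self_left, Nat.mod_eq_of_lt hb]

/-- Every step has coordinates: round, block and position in the block. -/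
theorem exists_coord (m s : ℕ) :
    ∃ b t, b < m + 2 ∧ t < 4 ∧ s = s / KK m * KK m + (4 * b + t) := by
  have h1 := Nat.div_add_mod s (KK m)
  have h2 := Nat.mod_lt s (KK_pos m)
  have h3 : KK m = 4 * (m + 2) := rfl
  refine ⟨s % KK m / 4, s % KK m % 4, by omega, by omega, ?_⟩
  have h4 : 4 * (s % KK m / 4) + s % KK m % 4 = s % KK m := by omega
  rw [h4, mul_comm]
  exact h1.symm

theorem coord_lt_SS (m ρ b t : ℕ) (hρ : ρ < RR m) (hb : b < m + 2) (ht : t < 4) :
    ρ * KK m + (4 * b + t) < SS m := by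
  have h1 := coord_lt m b t hb ht
  have h2 : (ρ + 1) * KK m ≤ RR m * KK m := Nat.mul_le_mul_right _ hρ
  unfold SS
  rw [add_mul, one_mul] at h2
  omega

theorem div_lt_RR {m s : ℕ} (hs : s < SS m) : s / KK m < RR m :=
  (Nat.div_lt_iff_lt_mul (KK_pos m)).2 hs

theorem row_cases {m y : ℕ} (hy : y < NN m) :
    y < KK m ∨ (∃ s < SS m, y = KK m + 2 * s ∨ y = KK m + 2 * s + 1) ∨
      (∃ p < KK m, y = KK m + 2 * SS m + p) := by
  unfold NN at hy
  rcases lt_or_ge y (KK m) with h | h
  · exact Or.inl h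
  rcases lt_or_ge y (KK m + 2 * SS m) with h' | h'
  · exact Or.inr (Or.inl ⟨(y - KK m) / 2, by omega, by omega⟩)
  · exact Or.inr (Or.inr ⟨y - KK m - 2 * SS m, by omega, by omega⟩)

section lam

variable (m : ℕ) (occ : Bool → ℕ → ℕ → Bool)

theorem lam_init {y : ℕ} (hy : y < KK m) : lam m occ y = y / 2 * 2 + 1 := by
  unfold lam; rw [if_pos (Or.inl hy)]

theorem lam_fin {y : ℕ} (hy : KK m + 2 * SS m ≤ y) : lam m occ y = y / 2 * 2 + 1 := by
  unfold lam; rw [if_pos (Or.inr hy)]

theorem lam_W {s : ℕ} (hs : s < SS m) :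
    lam m occ (KK m + 2 * s) = lamStep m occ s (KK m + 2 * s) := by
  unfold lam
  rw [if_neg (by omega)]
  congr 1
  omega

theorem lam_T {s : ℕ} (hs : s < SS m) :
    lam m occ (KK m + 2 * s + 1) = lamStep m occ s (KK m + 2 * s + 1) := by
  unfold lam
  rw [if_neg (by omega)]
  congr 1
  omega

theorem kind_coord (ρ b t : ℕ) (hb : b < m + 2) (ht : t < 4) :
    kind m occ (ρ * KK m + (4 * b + t)) =
  if ρ % 5 = 0 ∨ ρ % 5 = 3 then
    if b = 0 ∨ b = m + 1 ∨ t < 2 then 2 else 0
  else if ρ % 5 = 1 then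
    if b = 0 then 3
    else if b = m + 1 ∨ t = 3 then 0
    else if occ true (ρ / 5) (b - 1) = true then 3 else 1
  else if ρ % 5 = 2 then
    if b = 0 ∨ b = m + 1 ∨ t = 3 then 0 else 1
  else
    if b = m + 1 then 3
    else if b = 0 ∨ t = 3 then 0
    else if occ false (ρ / 5) (b - 1) = true then 3 else 0 := by
  unfold kind
  rw [coord_div m ρ b t hb ht, coord_mod4 m ρ b t ht, coord_blk m ρ b t hb ht]

theorem kind_le (s : ℕ) : kind m occ s ≤ 3 := by
  unfold kind
  split_ifs <;> omega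

end lam

section rr

variable {m : ℕ}

theorem rr_init {y : ℕ} (hy : y < KK m) : rr m y = y := by
  unfold rr; rw [if_pos hy]

theorem rr_W {s : ℕ} (hs : s < SS m) : rr m (KK m + 2 * s) = s + KK m := by
  unfold rr
  rw [if_neg (by omega), if_pos (by omega), if_pos (by omega)]
  omega

theorem rr_T {s : ℕ} (hs : s < SS m) : rr m (KK m + 2 * s + 1) = s := by
  unfold rr
  rw [if_neg (by omega), if_pos (by omega), if_neg (by omega)]
  omega

theorem rr_fin {p : ℕ} : rr m (KK m + 2 * SS m + p) = SS m + p := by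
  unfold rr
  rw [if_neg (by omega), if_neg (by omega)]
  omega

end rr

end Pool.Agent.Helper408_MT
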