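import Pool.Agent.Helper408_MT.Rows

/-!
# One side of a configuration: chains
-/

set_option autoImplicit false

namespace Pool.Agent.Helper408_MT

/- TARGET (three theorems).
Let `P d = {y < N | lam y ≤ d ≤ l y}`. If `P d` is not empty then its least element `y` has `l y = d` (otherwise
`d < l y`, and `cov` gives `y1 < y` with `l y1 = d`, so `lam y1 ≤ d` and `y1 ∈ P d`), likewise its greatest element; and the number
of rows with `l = d` is even, so `≥ 2`.
lt_add: for `lam y ≤ d ≤ l y` the set `P d` contains `y`, so `d` is a value of `l` on `range N`; so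
`l y - lam y + 1 ≤ N`.
chain: `w e`, `w e + 1` (`e ≤ E`) are pairs of rows, starting at depth `B + (e - 1)` (so at depth `B` the four rows of
`e = 0, 1`).  Put `u 1 = w 0 + 1`, `u e = w (e - 1)` for `e ≥ 2`. By induction on `e`, `1 ≤ e ≤ E`: either `Clean (B + e)` or
`{y < N | lam y < B + e ≤ l y} = {u e, w e}`.
`e = 1`: as `Clean B`, the set `P B` is `{w 0, w 0 + 1, w 1, w 1 + 1}`, so `w 0` and `w 1 + 1` have `l = B`, and the number of rows
with `l = B` is 2 or 4 (even): the other two `w 0 + 1 = u 1`, `w 1` both have `l = B` (then clean) or both have `l > B`.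
`e ≥ 2`, depth `D = B + (e - 1)`. If `Clean D` then `P D = {w e, w e + 1}`, both are extreme, so both have `l = D`, nobody
else has, and `Clean (D + 1)`. Otherwise `P D = {u (e-1), w (e-1), w e, w e + 1}` in increasing order (`u (e-1) < w (e-1)`
since `w 0 + 1 < w 1`, resp. `w (e-2) < w (e-1)`); the extreme ones `u (e-1)`, `w e + 1` have `l = D`, the other two both or
neither (parity). Both: `Clean (B + e)`. Neither: the rest is `{w (e-1), w e} = {u e, w e}`, and the rows with `l = D` are
exactly `u (e-1)`, `w e + 1`.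
At depth `B + E` no row starts; `P (B + E)` is empty or `{u E, w E}`, both extreme, so `Clean (B + (E + 1))`. -/
theorem Side.exists_pair {N : ℕ} {lam l : ℕ → ℕ} (h : Side N lam l) (d y : ℕ) (hy : y < N)
    (h1 : lam y ≤ d) (h2 : d ≤ l y) :
    ∃ y1 y2, y1 < y2 ∧ y1 ≤ y ∧ y ≤ y2 ∧ y2 < N ∧ l y1 = d ∧ l y2 = d ∧
      (∀ y' < N, lam y' ≤ d → d ≤ l y' → y1 ≤ y' ∧ y' ≤ y2) := by
  classical
  set P := (Finset.range N).filter (fun y => lam y ≤ d ∧ d ≤ l y) with hP
  have hmem : ∀ z, z ∈ P ↔ z < N ∧ lam z ≤ d ∧ d ≤ l z := fun z => by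
    rw [hP, Finset.mem_filter, Finset.mem_range]
  have hne : P.Nonempty := ⟨y, (hmem y).2 ⟨hy, h1, h2⟩⟩
  have hmin := Finset.min'_mem P hne
  have hmax := Finset.max'_mem P hne
  obtain ⟨a1, a2, a3⟩ := (hmem _).1 hmin
  obtain ⟨b1, b2, b3⟩ := (hmem _).1 hmax
  have hl1 : l (P.min' hne) = d := by
    by_contra hc
    obtain ⟨z1, z2, hz1, hz2, hz3, hz4, hz5⟩ := h.cov _ a1 d a2 (lt_of_le_of_ne a3 (Ne.symm hc))
    have hz : z1 ∈ P := (hmem z1).2 ⟨by omega, by have := h.lam_le z1 (by omega); omega, hz4.ge⟩
    have := Finset.min'_le P z1 hz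
    omega
  have hl2 : l (P.max' hne) = d := by
    by_contra hc
    obtain ⟨z1, z2, hz1, hz2, hz3, hz4, hz5⟩ := h.cov _ b1 d b2 (lt_of_le_of_ne b3 (Ne.symm hc))
    have hz : z2 ∈ P := (hmem z2).2 ⟨hz3, by have := h.lam_le z2 hz3; omega, hz5.ge⟩
    have := Finset.le_max' P z2 hz
    omega
  have hall : ∀ y' < N, lam y' ≤ d → d ≤ l y' → P.min' hne ≤ y' ∧ y' ≤ P.max' hne :=
    fun y' c1 c2 c3 => ⟨Finset.min'_le P y' ((hmem y').2 ⟨c1, c2, c3⟩),
      Finset.le_max' P y' ((hmem y').2 ⟨c1, c2, c3⟩)⟩
  -- a second row with `l = d`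
  obtain ⟨z, hz1, hz2, hz3⟩ : ∃ z < N, l z = d ∧ z ≠ P.min' hne := by
    by_contra hc
    push Not at hc
    have h3 : (Finset.range N).filter (fun y => l y = d) = {P.min' hne} := by
      ext z
      rw [Finset.mem_filter, Finset.mem_range, Finset.mem_singleton]
      constructor
      · rintro ⟨c1, c2⟩
        exact hc z c1 c2
      · rintro rfl
        exact ⟨a1, hl1⟩
    have h4 := h.even d
    rw [h3, Finset.card_singleton] at h4
    exact absurd h4 (by decide)
  have h5 := hall z hz1 (by have := h.lam_le z hz1; omega) hz2.ge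
  exact ⟨P.min' hne, P.max' hne, by omega, (hall y hy h1 h2).1, (hall y hy h1 h2).2, b1, hl1, hl2,
    hall⟩

theorem Side.lt_add {N : ℕ} {lam l : ℕ → ℕ} (h : Side N lam l) : ∀ y < N, l y < lam y + N := by
  classical
  intro y hy
  have h1 : Finset.Icc (lam y) (l y) ⊆ (Finset.range N).image l := by
    intro d hd
    rw [Finset.mem_Icc] at hd
    obtain ⟨y1, y2, c1, c2, c3, c4, c5, c6, -⟩ := h.exists_pair d y hy hd.1 hd.2
    rw [Finset.mem_image]
    exact ⟨y2, Finset.mem_range.2 c4, c6⟩
  have h2 := (Finset.card_le_card h1).trans Finset.card_image_le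
  rw [Nat.card_Icc, Finset.card_range] at h2
  have h3 := h.lam_le y hy
  omega

theorem Side.chain_two {N : ℕ} {lam l : ℕ → ℕ} (h : Side N lam l) (D a b : ℕ) (hab : a < b)
    (hb : b < N) (hP : ∀ y < N, (lam y ≤ D ∧ D ≤ l y) ↔ (y = a ∨ y = b)) :
    (∀ y < N, l y = D ↔ y = a ∨ y = b) ∧ Clean N lam l (D + 1) := by
  have ha := (hP a (by omega)).2 (Or.inl rfl)
  have hb' := (hP b hb).2 (Or.inr rfl)
  obtain ⟨y1, y2, c1, c2, c3, c4, c5, c6, c7⟩ := h.exists_pair D a (by omega) ha.1 ha.2
  have h1 := (hP y1 (by omega)).1 ⟨by have := h.lam_le y1 (by omega); omega, c5.ge⟩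
  have h2 := (hP y2 c4).1 ⟨by have := h.lam_le y2 c4; omega, c6.ge⟩
  have h3 := c7 b hb hb'.1 hb'.2
  have e1 : y1 = a := by omega
  have e2 : y2 = b := by omega
  subst e1
  subst e2
  have key : ∀ y < N, l y = D ↔ y = y1 ∨ y = y2 := by
    intro y hy
    constructor
    · intro hl
      exact (hP y hy).1 ⟨by have := h.lam_le y hy; omega, hl.ge⟩
    · rintro (rfl | rfl)
      · exact c5
      · exact c6
  refine ⟨key, fun y hy hlam => ?_⟩
  by_contra hc
  have h4 := (hP y hy).1 ⟨by omega, by omega⟩
  have h5 := (key y hy).2 h4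
  omega

theorem Side.chain_four {N : ℕ} {lam l : ℕ → ℕ} (h : Side N lam l) (D a b c d : ℕ) (hab : a < b)
    (hbc : b < c) (hcd : c < d) (hd : d < N)
    (hP : ∀ y < N, (lam y ≤ D ∧ D ≤ l y) ↔ (y = a ∨ y = b ∨ y = c ∨ y = d)) :
    Clean N lam l (D + 1) ∨ ((∀ y < N, l y = D ↔ y = a ∨ y = d) ∧
      ∀ y < N, (lam y < D + 1 ∧ D + 1 ≤ l y) ↔ (y = b ∨ y = c)) := by
  classical
  have ha := (hP a (by omega)).2 (Or.inl rfl)
  have hb := (hP b (by omega)).2 (Or.inr (Or.inl rfl))
  have hc := (hP c (by omega)).2 (Or.inr (Or.inr (Or.inl rfl)))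
  have hd' := (hP d hd).2 (Or.inr (Or.inr (Or.inr rfl)))
  obtain ⟨y1, y2, c1, c2, c3, c4, c5, c6, c7⟩ := h.exists_pair D a (by omega) ha.1 ha.2
  have h1 := (hP y1 (by omega)).1 ⟨by have := h.lam_le y1 (by omega); omega, c5.ge⟩
  have h2 := (hP y2 c4).1 ⟨by have := h.lam_le y2 c4; omega, c6.ge⟩
  have h3 := c7 d hd hd'.1 hd'.2
  have e1 : y1 = a := by omega
  have e2 : y2 = d := by omega
  subst e1
  subst e2
  have hsub : ∀ y < N, l y = D → (y = y1 ∨ y = b ∨ y = c ∨ y = y2) := fun y hy hl =>
    (hP y hy).1 ⟨by have := h.lam_le y hy; omega, hl.ge⟩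
  have heven := h.even D
  by_cases hlb : l b = D
  · by_cases hlc : l c = D
    · left
      intro y hy hlam
      by_contra hcc
      have h4 := (hP y hy).1 ⟨by omega, by omega⟩
      rcases h4 with rfl | rfl | rfl | rfl <;> omega
    · exfalso
      have h4 : (Finset.range N).filter (fun y => l y = D) = {y1, b, y2} := by
        ext y
        simp only [Finset.mem_filter, Finset.mem_range, Finset.mem_insert, Finset.mem_singleton]
        constructor
        · rintro ⟨d1, d2⟩
          rcases hsub y d1 d2 with rfl | rfl | rfl | rfl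
          · exact Or.inl rfl
          · exact Or.inr (Or.inl rfl)
          · exact absurd d2 hlc
          · exact Or.inr (Or.inr rfl)
        · rintro (rfl | rfl | rfl)
          · exact ⟨by omega, c5⟩
          · exact ⟨by omega, hlb⟩
          · exact ⟨by omega, c6⟩
      rw [h4, Finset.card_insert_of_notMem (by simp; omega), Finset.card_pair (by omega)] at heven
      exact absurd heven (by decide)
  · by_cases hlc : l c = D
    · exfalso
      have h4 : (Finset.range N).filter (fun y => l y = D) = {y1, c, y2} := by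
        ext y
        simp only [Finset.mem_filter, Finset.mem_range, Finset.mem_insert, Finset.mem_singleton]
        constructor
        · rintro ⟨d1, d2⟩
          rcases hsub y d1 d2 with rfl | rfl | rfl | rfl
          · exact Or.inl rfl
          · exact absurd d2 hlb
          · exact Or.inr (Or.inl rfl)
          · exact Or.inr (Or.inr rfl)
        · rintro (rfl | rfl | rfl)
          · exact ⟨by omega, c5⟩
          · exact ⟨by omega, hlc⟩
          · exact ⟨by omega, c6⟩
      rw [h4, Finset.card_insert_of_notMem (by simp; omega), Finset.card_pair (by omega)] at heven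
      exact absurd heven (by decide)
    · right
      constructor
      · intro y hy
        constructor
        · intro hl
          rcases hsub y hy hl with rfl | rfl | rfl | rfl
          · exact Or.inl rfl
          · exact absurd hl hlb
          · exact absurd hl hlc
          · exact Or.inr rfl
        · rintro (rfl | rfl)
          · exact c5
          · exact c6
      · intro y hy
        constructor
        · rintro ⟨d1, d2⟩
          rcases (hP y hy).1 ⟨by omega, by omega⟩ with rfl | rfl | rfl | rfl
          · omega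
          · exact Or.inl rfl
          · exact Or.inr rfl
          · omega
        · rintro (rfl | rfl)
          · omega
          · omega

theorem Side.chain {N : ℕ} {lam l : ℕ → ℕ} (h : Side N lam l) (B E : ℕ) (w : ℕ → ℕ) (hE : 3 ≤ E)
    (hw : ∀ e < E, w e + 1 < w (e + 1)) (hwN : w E + 1 < N)
    (hlam : ∀ e ≤ E, lam (w e) = B + (e - 1) ∧ lam (w e + 1) = B + (e - 1))
    (honly : ∀ y < N, B ≤ lam y → lam y ≤ B + E → ∃ e ≤ E, y = w e ∨ y = w e + 1)
    (hB : Clean N lam l B) :
    (∀ e, 2 ≤ e → e ≤ E → Clean N lam l (B + (e - 1)) →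
      Clean N lam l (B + e) ∧ ∀ y < N, l y = B + (e - 1) ↔ y = w e ∨ y = w e + 1) ∧
    (∀ e, 3 ≤ e → e ≤ E → ¬ Clean N lam l (B + e) →
      ∀ y < N, l y = B + (e - 1) ↔ y = w (e - 2) ∨ y = w e + 1) ∧
    Clean N lam l (B + (E + 1)) := by
  -- monotonicity
  have hwN' : ∀ e ≤ E, w e + 1 < N := by
    intro e he
    induction hk : E - e generalizing e with
    | zero =>
      have : e = E := by omega
      subst this
      exact hwN
    | succ k ih =>
      have h1 := ih (e + 1) (by omega) (by omega)
      have h2 := hw e (by omega)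
      omega
  -- rows starting at a given depth
  have hnew : ∀ e, 2 ≤ e → e ≤ E → ∀ y < N, lam y = B + (e - 1) ↔ (y = w e ∨ y = w e + 1) := by
    intro e he heE y hy
    constructor
    · intro hl
      obtain ⟨e', he', h1⟩ := honly y hy (by omega) (by omega)
      have h2 := hlam e' he'
      have h3 : e' = e := by
        rcases h1 with rfl | rfl
        · have := h2.1; omega
        · have := h2.2; omega
      subst h3
      exact h1
    · rintro (rfl | rfl)
      · exact (hlam e heE).1
      · exact (hlam e heE).2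
  have hnewB : ∀ y < N, lam y = B ↔ (y = w 0 ∨ y = w 0 + 1 ∨ y = w 1 ∨ y = w 1 + 1) := by
    intro y hy
    constructor
    · intro hl
      obtain ⟨e', he', h1⟩ := honly y hy (by omega) (by omega)
      have h2 := hlam e' he'
      have h3 : e' = 0 ∨ e' = 1 := by
        rcases h1 with rfl | rfl
        · have := h2.1; omega
        · have := h2.2; omega
      rcases h3 with rfl | rfl
      · rcases h1 with h1 | h1
        · exact Or.inl h1
        · exact Or.inr (Or.inl h1)
      · rcases h1 with h1 | h1
        · exact Or.inr (Or.inr (Or.inl h1))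
        · exact Or.inr (Or.inr (Or.inr h1))
    · rintro (rfl | rfl | rfl | rfl)
      · exact (hlam 0 (by omega)).1
      · exact (hlam 0 (by omega)).2
      · exact (hlam 1 (by omega)).1
      · exact (hlam 1 (by omega)).2
  -- the clean case
  have hclean : ∀ e, 2 ≤ e → e ≤ E → Clean N lam l (B + (e - 1)) →
      Clean N lam l (B + e) ∧ ∀ y < N, l y = B + (e - 1) ↔ y = w e ∨ y = w e + 1 := by
    intro e he heE hC
    have h1 := h.chain_two (B + (e - 1)) (w e) (w e + 1) (by omega) (hwN' e heE) (by
      intro y hy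
      rw [← hnew e he heE y hy]
      constructor
      · rintro ⟨d1, d2⟩
        by_contra hne
        have := hC y hy (by omega)
        omega
      · intro hl
        exact ⟨hl.le, by have := h.lam_le y hy; omega⟩)
    refine ⟨?_, h1.1⟩
    have h2 : B + (e - 1) + 1 = B + e := by omega
    rw [← h2]
    exact h1.2
  -- the invariant
  have hinv : ∀ k, k + 2 ≤ E → (Clean N lam l (B + (k + 2)) ∨
      ((∀ y < N, (lam y < B + (k + 2) ∧ B + (k + 2) ≤ l y) ↔ (y = w (k + 1) ∨ y = w (k + 2))) ∧
      (∀ y < N, l y = B + (k + 1) ↔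
        y = (if k = 0 then w 0 + 1 else w k) ∨ y = w (k + 2) + 1))) := by
    have hfirst : Clean N lam l (B + 1) ∨
        ∀ y < N, (lam y < B + 1 ∧ B + 1 ≤ l y) ↔ (y = w 0 + 1 ∨ y = w 1) := by
      have h0 := hw 0 (by omega)
      have h1 := h.chain_four B (w 0) (w 0 + 1) (w 1) (w 1 + 1) (by omega) (by simpa using h0)
        (by omega) (hwN' 1 (by omega)) (by
          intro y hy
          rw [← hnewB y hy]
          constructor
          · rintro ⟨d1, d2⟩
            by_contra hne
            have := hB y hy (by omega)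
            omega
          · intro hl
            exact ⟨hl.le, by have := h.lam_le y hy; omega⟩)
      rcases h1 with h1 | h1
      · exact Or.inl h1
      · exact Or.inr h1.2
    -- one step
    have hstep : ∀ (k a : ℕ), k + 2 ≤ E → a < w (k + 1) →
        (∀ y < N, (lam y < B + (k + 1) ∧ B + (k + 1) ≤ l y) ↔ (y = a ∨ y = w (k + 1))) →
        (Clean N lam l (B + (k + 2)) ∨
        ((∀ y < N, (lam y < B + (k + 2) ∧ B + (k + 2) ≤ l y) ↔ (y = w (k + 1) ∨ y = w (k + 2))) ∧
        (∀ y < N, l y = B + (k + 1) ↔ y = a ∨ y = w (k + 2) + 1))) := by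
      intro k a hk ha hold
      have h0 := hw (k + 1) (by omega)
      have h0' : w (k + 1) + 1 < w (k + 2) := h0
      have h1 := h.chain_four (B + (k + 1)) a (w (k + 1)) (w (k + 2)) (w (k + 2) + 1) ha
        (by omega) (by omega) (hwN' (k + 2) hk) (by
          intro y hy
          have h2 := hnew (k + 2) (by omega) hk y hy
          have h3 : B + (k + 2 - 1) = B + (k + 1) := by omega
          rw [h3] at h2
          constructor
          · rintro ⟨d1, d2⟩
            rcases Nat.lt_or_eq_of_le d1 with d3 | d3
            · rcases (hold y hy).1 ⟨d3, d2⟩ with h4 | h4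
              · exact Or.inl h4
              · exact Or.inr (Or.inl h4)
            · rcases h2.1 d3 with h4 | h4
              · exact Or.inr (Or.inr (Or.inl h4))
              · exact Or.inr (Or.inr (Or.inr h4))
          · intro h4
            have h5 : (y = a ∨ y = w (k + 1)) ∨ (y = w (k + 2) ∨ y = w (k + 2) + 1) := by
              rcases h4 with h4 | h4 | h4 | h4
              · exact Or.inl (Or.inl h4)
              · exact Or.inl (Or.inr h4)
              · exact Or.inr (Or.inl h4)
              · exact Or.inr (Or.inr h4)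
            rcases h5 with h5 | h5
            · have := (hold y hy).2 h5
              exact ⟨this.1.le, this.2⟩
            · have h6 := h2.2 h5
              exact ⟨h6.le, by have := h.lam_le y hy; omega⟩)
      rcases h1 with h1 | h1
      · exact Or.inl h1
      · exact Or.inr ⟨h1.2, h1.1⟩
    intro k
    induction k with
    | zero =>
      intro hk
      rcases hfirst with h1 | h1
      · exact Or.inl (hclean 2 le_rfl hk h1).1
      · have h0 := hw 0 (by omega)
        have h0' : w 0 + 1 < w 1 := h0
        have h2 := hstep 0 (w 0 + 1) hk h0' h1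
        simpa using h2
    | succ k ih =>
      intro hk
      rcases ih (by omega) with h1 | h1
      · exact Or.inl (hclean (k + 1 + 2) (by omega) hk h1).1
      · have h0 := hw (k + 1) (by omega)
        have h0' : w (k + 1) + 1 < w (k + 2) := h0
        have h2 := hstep (k + 1) (w (k + 1)) hk (by
          have : w (k + 1 + 1) = w (k + 2) := rfl
          omega) h1.1
        simpa using h2
  refine ⟨hclean, ?_, ?_⟩
  · intro e he heE hnC y hy
    obtain ⟨k, rfl⟩ : ∃ k, e = k + 3 := ⟨e - 3, by omega⟩
    rcases hinv (k + 1) (by omega) with h1 | h1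
    · exact absurd h1 hnC
    · have h2 := h1.2 y hy
      rw [if_neg (by omega)] at h2
      exact h2
  · have hnoE : ∀ y < N, lam y ≠ B + E := by
      intro y hy hl
      obtain ⟨e', he', h1⟩ := honly y hy (by omega) (by omega)
      have h2 := hlam e' he'
      rcases h1 with rfl | rfl
      · have := h2.1; omega
      · have := h2.2; omega
    obtain ⟨k, rfl⟩ : ∃ k, E = k + 2 := ⟨E - 2, by omega⟩
    rcases hinv k le_rfl with h1 | h1
    · intro y hy hl
      have h2 := hnoE y hy
      have h3 := h1 y hy (by omega)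
      omega
    · have h0 := hw (k + 1) (by omega)
      have h0' : w (k + 1) + 1 < w (k + 2) := h0
      have h2 := h.chain_two (B + (k + 2)) (w (k + 1)) (w (k + 2)) (by omega)
        (by have := hwN' (k + 2) le_rfl; omega) (by
          intro y hy
          rw [← h1.1 y hy]
          have h3 := hnoE y hy
          constructor
          · rintro ⟨d1, d2⟩
            exact ⟨by omega, d2⟩
          · rintro ⟨d1, d2⟩
            exact ⟨by omega, d2⟩)
      exact h2.2

end Pool.Agent.Helper408_MT
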