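import Pool.Agent.Helper408_MT.Labels

/-!
# Soundness: a configuration gives a satisfying assignment
-/

set_option autoImplicit false

namespace Pool.Agent.Helper408_MT

variable {m : ℕ} {occ : Bool → ℕ → ℕ → Bool}

theorem two_KK_lt (hm : 0 < m) : 2 * KK m + 1 < NN m := by
  have h1 : 1 * KK m ≤ RR m * KK m := Nat.mul_le_mul_right _ (by unfold RR; omega)
  have h2 : 0 < m * KK m := Nat.mul_pos hm (KK_pos m)
  have h3 : SS m = 15 * (m * KK m) + KK m := by unfold SS RR; ring
  unfold NN
  omega

theorem SS_mod (m : ℕ) : SS m % 4 = 0 := by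
  unfold SS KK
  rw [show RR m * (4 * (m + 2)) = 4 * (RR m * (m + 2)) by ring]
  omega

/-- The three kinds of rows on the left. -/
theorem lam_cases {y : ℕ} (hy : y < NN m) :
    lam m occ y < NN m ∨
    (∃ s < SS m, kind m occ s = 2 ∧ (y = KK m + 2 * s ∨ y = KK m + 2 * s + 1) ∧
      lam m occ y = NN m * (s / KK m + 1)) ∨
    (∃ s < SS m, kind m occ s = 3 ∧ (y = KK m + 2 * s ∨ y = KK m + 2 * s + 1) ∧
      lam m occ y = NN m * (RR m + 1 + s / KK m / 5) + (ev m occ s - 1)) := by
  have hK := KK_even m
  have hK0 := KK_pos m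
  have hN : NN m = 2 * SS m + 2 * KK m := rfl
  have hS := SS_mod m
  rcases row_cases hy with h | ⟨s, hs, h⟩ | ⟨p, hp, rfl⟩
  · left; rw [lam_init m occ h]; omega
  · have h0 : (lam m occ y = lamStep m occ s y) := by
      rcases h with rfl | rfl
      · exact lam_W m occ hs
      · exact lam_T m occ hs
    rw [h0]
    unfold lamStep
    have hk := kind_le m occ s
    split_ifs with h1 h2 h3
    · left; omega
    · left
      have := kind_one h2
      rcases h with rfl | rfl <;> omega
    · right; left
      exact ⟨s, hs, h3, h, rfl⟩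
    · right; right
      exact ⟨s, hs, by omega, h, rfl⟩
  · left; rw [lam_fin m occ (by omega)]; omega

theorem kind3_round {s : ℕ} (h : kind m occ s = 3) : s / KK m % 5 = 1 ∨ s / KK m % 5 = 4 := by
  unfold kind at h
  generalize s / KK m = ρ at *
  split_ifs at h <;> omega

theorem kind3_var {s : ℕ} (h : kind m occ s = 3) (hs : s < SS m) : s / KK m / 5 < 3 * m := by
  have h1 := kind3_round h
  have h2 := div_lt_RR hs
  unfold RR at h2
  generalize s / KK m = ρ at *
  omega

/-- The enumeration of the chain steps of variable `i`, as a bundle. -/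
structure EnumOK (m : ℕ) (occ : Bool → ℕ → ℕ → Bool) (i E c : ℕ) (g : ℕ → ℕ) : Prop where
  c4 : 4 ≤ c
  cE : c + 3 ≤ E
  EK : E + 1 ≤ 2 * KK m
  spec : ∀ e ≤ E, g e < SS m ∧ kind m occ (g e) = 3 ∧ g e / KK m / 5 = i ∧ ev m occ (g e) = e
  mono : ∀ e < E, g e < g (e + 1)
  pos : ∀ e < c, g e / KK m = 5 * i + 1
  neg : ∀ e, c ≤ e → e ≤ E → g e / KK m = 5 * i + 4
  surj : ∀ s < SS m, kind m occ s = 3 → s / KK m / 5 = i → ev m occ s ≤ E ∧ g (ev m occ s) = s

theorem exists_enum (hm : 0 < m) (occ : Bool → ℕ → ℕ → Bool) {i : ℕ} (hi : i < 3 * m) :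
    ∃ E c g, EnumOK m occ i E c g := by
  obtain ⟨E, c, g, h1, h2, h3, h4, h5, h6, h7, h8⟩ := chain_enum m hm occ i hi
  exact ⟨E, c, g, h1, h2, h3, h4, h5, h6, h7, h8⟩

/-- The chain lemma for variable `i`. -/
theorem chain_app {l : ℕ → ℕ} (h : Side (NN m) (lam m occ) l) (hm : 0 < m) {i E c : ℕ}
    {g : ℕ → ℕ} (hi : i < 3 * m) (hg : EnumOK m occ i E c g)
    (hB : Clean (NN m) (lam m occ) l (NN m * (RR m + 1 + i))) :
    (∀ e, 2 ≤ e → e ≤ E → Clean (NN m) (lam m occ) l (NN m * (RR m + 1 + i) + (e - 1)) →
      Clean (NN m) (lam m occ) l (NN m * (RR m + 1 + i) + e) ∧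
        ∀ y < NN m, l y = NN m * (RR m + 1 + i) + (e - 1) ↔
          y = KK m + 2 * g e ∨ y = KK m + 2 * g e + 1) ∧
    (∀ e, 3 ≤ e → e ≤ E → ¬ Clean (NN m) (lam m occ) l (NN m * (RR m + 1 + i) + e) →
      ∀ y < NN m, l y = NN m * (RR m + 1 + i) + (e - 1) ↔
        y = KK m + 2 * g (e - 2) ∨ y = KK m + 2 * g e + 1) ∧
    Clean (NN m) (lam m occ) l (NN m * (RR m + 1 + i) + (E + 1)) := by
  have hN2 := two_KK_lt hm
  have hEK := hg.EK
  have hc4 := hg.c4
  have hcE := hg.cE
  refine h.chain (NN m * (RR m + 1 + i)) E (fun e => KK m + 2 * g e) (by omega) ?_ ?_ ?_ ?_ hB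
  · intro e he
    have := hg.mono e he
    omega
  · have := (hg.spec E le_rfl).1
    unfold NN
    omega
  · intro e he
    obtain ⟨h1, h2, h3, h4⟩ := hg.spec e he
    rw [lam_W m occ h1, lam_T m occ h1]
    unfold lamStep
    rw [h2, h3, h4]
    simp
  · intro y hy h1 h2
    rcases lam_cases (occ := occ) hy with h3 | ⟨s, hs, hk, h4, h5⟩ | ⟨s, hs, hk, h4, h5⟩
    · exfalso
      have : NN m * 1 ≤ NN m * (RR m + 1 + i) := Nat.mul_le_mul_left _ (by omega)
      omega
    · exfalso
      have h6 : NN m * (s / KK m + 1) < NN m * (RR m + 1 + i) := by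
        have := div_lt_RR hs
        exact Nat.mul_lt_mul_of_pos_left (by omega) (by omega)
      omega
    · obtain ⟨E', c', g', hg'⟩ := exists_enum hm occ (kind3_var hk hs)
      have h6 := (hg'.surj s hs hk rfl).1
      have h7 := hg'.EK
      have h8 : s / KK m / 5 = i := by
        rw [h5] at h1 h2
        generalize s / KK m / 5 = i' at *
        rcases lt_trichotomy i' i with h9 | h9 | h9
        · exfalso
          have : NN m * (RR m + 1 + i' + 1) ≤ NN m * (RR m + 1 + i) :=
            Nat.mul_le_mul_left _ (by omega)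
          rw [Nat.mul_add, Nat.mul_one] at this
          omega
        · exact h9
        · exfalso
          have : NN m * (RR m + 1 + i + 1) ≤ NN m * (RR m + 1 + i') :=
            Nat.mul_le_mul_left _ (by omega)
          rw [Nat.mul_add, Nat.mul_one] at this
          omega
      obtain ⟨h9, h10⟩ := hg.surj s hs hk h8
      refine ⟨ev m occ s, h9, ?_⟩
      simp only [h10]
      exact h4

theorem clean_base {l : ℕ → ℕ} (h : Side (NN m) (lam m occ) l) (hm : 0 < m) :
    ∀ i ≤ 3 * m, Clean (NN m) (lam m occ) l (NN m * (RR m + 1 + i)) := by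
  have hN2 := two_KK_lt hm
  intro i
  induction i with
  | zero =>
    intro _ y hy hlt
    rcases lam_cases (occ := occ) hy with h3 | ⟨s, hs, hk, h4, h5⟩ | ⟨s, hs, hk, h4, h5⟩
    · rw [h.left_small y hy h3]
      exact hlt
    · have h6 := h.lt_add y hy
      have h7 : NN m * (s / KK m + 1 + 1) ≤ NN m * (RR m + 1 + 0) := by
        have := div_lt_RR hs
        exact Nat.mul_le_mul_left _ (by omega)
      rw [Nat.mul_add, Nat.mul_one] at h7
      omega
    · exfalso
      have : NN m * (RR m + 1 + 0) ≤ NN m * (RR m + 1 + s / KK m / 5) :=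
        Nat.mul_le_mul_left _ (by rw [add_zero]; exact Nat.le_add_right _ _)
      omega
  | succ i ih =>
    intro hi y hy hlt
    have hB := ih (by omega)
    obtain ⟨E, c, g, hg⟩ := exists_enum hm occ (show i < 3 * m by omega)
    obtain ⟨-, -, h3⟩ := chain_app h hm (by omega) hg hB
    have hEK := hg.EK
    have e1 : NN m * (RR m + 1 + (i + 1)) = NN m * (RR m + 1 + i) + NN m := by ring
    rw [e1] at hlt ⊢
    rcases lt_or_ge (lam m occ y) (NN m * (RR m + 1 + i) + (E + 1)) with h4 | h4
    · have := h3 y hy h4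
      omega
    · exfalso
      rcases lam_cases (occ := occ) hy with h3 | ⟨s, hs, hk, h5, h6⟩ | ⟨s, hs, hk, h5, h6⟩
      · have : NN m * 1 ≤ NN m * (RR m + 1 + i) := Nat.mul_le_mul_left _ (by omega)
        omega
      · have h7 : NN m * (s / KK m + 1) < NN m * (RR m + 1 + i) := by
          have := div_lt_RR hs
          exact Nat.mul_lt_mul_of_pos_left (by omega) (by omega)
        omega
      · obtain ⟨E', c', g', hg'⟩ := exists_enum hm occ (kind3_var hk hs)
        have h7 := (hg'.surj s hs hk rfl).1
        have h7' := hg'.EK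
        have h8 : s / KK m / 5 = i := by
          rw [h6] at h4 hlt
          generalize s / KK m / 5 = i' at *
          rcases lt_trichotomy i' i with h9 | h9 | h9
          · exfalso
            have : NN m * (RR m + 1 + i' + 1) ≤ NN m * (RR m + 1 + i) :=
              Nat.mul_le_mul_left _ (by omega)
            rw [Nat.mul_add, Nat.mul_one] at this
            omega
          · exact h9
          · exfalso
            have : NN m * (RR m + 1 + i + 1) ≤ NN m * (RR m + 1 + i') :=
              Nat.mul_le_mul_left _ (by omega)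
            rw [Nat.mul_add, Nat.mul_one] at this
            omega
        obtain ⟨h9, h10⟩ := hg.surj s hs hk h8
        rw [h6, h8] at h4
        omega

theorem ev_succ {s : ℕ} (h : kind m occ s = 3) (hs : (s + 1) / KK m / 5 = s / KK m / 5) :
    ev m occ (s + 1) = ev m occ s + 1 := by
  unfold ev
  rw [List.range_succ, List.filter_append, List.length_append, hs]
  simp [h]

theorem clean_mono {l : ℕ → ℕ} (h : Side (NN m) (lam m occ) l) (hm : 0 < m) {i E c : ℕ}
    {g : ℕ → ℕ} (hi : i < 3 * m) (hg : EnumOK m occ i E c g) {a b : ℕ} (ha : 1 ≤ a) (hab : a ≤ b)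
    (hb : b ≤ E) (hc : Clean (NN m) (lam m occ) l (NN m * (RR m + 1 + i) + a)) :
    Clean (NN m) (lam m occ) l (NN m * (RR m + 1 + i) + b) := by
  induction b, hab using Nat.le_induction with
  | base => exact hc
  | succ b hab ih =>
    have h1 := ih (by omega)
    exact ((chain_app h hm hi hg (clean_base h hm i hi.le)).1 (b + 1) (by omega) hb
      (by simpa using h1)).1

/-- A positive chain block of clause `j`: the class of its first departure row and its last
arrival row. -/
theorem pos_block {l : ℕ → ℕ} (h : Side (NN m) (lam m occ) l) (hm : 0 < m) {i E c : ℕ}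
    {g : ℕ → ℕ} (hi : i < 3 * m) (hg : EnumOK m occ i E c g)
    (hn : ¬ Clean (NN m) (lam m occ) l (NN m * (RR m + 1 + i) + (c - 1)))
    {s0 j : ℕ} (hj : j < m) (hs0 : s0 + 2 < SS m) (h4 : s0 % 4 = 0)
    (hb : s0 / 4 % (m + 2) = j + 1) (h5 : s0 / KK m = 5 * i + 1) (hocc : occ true i j = true) :
    ∃ D, ∀ y < NN m, l y = D ↔ y = KK m + 2 * s0 ∨ y = KK m + 2 * (s0 + 2) + 1 := by
  have d1 : (s0 + 1) / 4 = s0 / 4 := by omega
  have d2 : (s0 + 2) / 4 = s0 / 4 := by omega
  have q1 : (s0 + 1) / KK m = s0 / KK m := by rw [div_KK, d1, ← div_KK]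
  have q2 : (s0 + 2) / KK m = s0 / KK m := by rw [div_KK, d2, ← div_KK]
  have k : ∀ t < 3, kind m occ (s0 + t) = 3 := by
    intro t ht
    have dt : (s0 + t) / 4 = s0 / 4 := by omega
    have qt : (s0 + t) / KK m = s0 / KK m := by rw [div_KK, dt, ← div_KK]
    rw [kind_inner hj (by rw [dt]; exact hb), qt, h5, if_neg (by omega), if_pos (by omega),
      if_neg (by omega), show (5 * i + 1) / 5 = i by omega, if_pos hocc]
  have k0 := k 0 (by omega)
  have k1 := k 1 (by omega)
  have k2 := k 2 (by omega)
  rw [add_zero] at k0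
  have e1 : ev m occ (s0 + 1) = ev m occ s0 + 1 := ev_succ k0 (by rw [q1])
  have e2 : ev m occ (s0 + 2) = ev m occ s0 + 2 := by
    have := ev_succ (occ := occ) (s := s0 + 1) k1 (by rw [show s0 + 1 + 1 = s0 + 2 by rfl, q1, q2])
    rw [show s0 + 1 + 1 = s0 + 2 by rfl] at this
    omega
  have hv : (s0 : ℕ) / KK m / 5 = i := by rw [h5]; omega
  obtain ⟨f0, g0⟩ := hg.surj s0 (by omega) k0 hv
  obtain ⟨f2, g2⟩ := hg.surj (s0 + 2) hs0 k2 (by rw [q2]; exact hv)
  rw [e2] at f2 g2
  -- an earlier chain step
  have hpos : 1 ≤ ev m occ s0 := by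
    have hle := Nat.div_mul_le_self s0 (KK m)
    rw [h5] at hle
    have hne : (5 * i + 1) * KK m ≠ s0 := by
      intro he
      have := coord_blk m (5 * i + 1) 0 0 (by omega) (by omega)
      rw [mul_zero, add_zero, add_zero, he] at this
      omega
    unfold ev
    refine List.length_pos_of_mem (a := (5 * i + 1) * KK m) ?_
    rw [List.mem_filter, List.mem_range]
    refine ⟨by omega, ?_⟩
    have c1 := kind_coord m occ (5 * i + 1) 0 0 (by omega) (by omega)
    rw [if_neg (by omega), if_pos (by omega), if_pos rfl] at c1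
    have c2 := coord_div m (5 * i + 1) 0 0 (by omega) (by omega)
    simp only [mul_zero, add_zero] at c1 c2
    rw [c1, c2, h5]
    simp
  have hlt : ev m occ s0 + 2 < c := by
    by_contra hcon
    have := hg.neg (ev m occ s0 + 2) (by omega) f2
    rw [g2, q2] at this
    omega
  have hn2 : ¬ Clean (NN m) (lam m occ) l (NN m * (RR m + 1 + i) + (ev m occ s0 + 2)) := by
    intro hc
    have := hg.cE
    exact hn (clean_mono h hm hi hg (by omega) (by omega) (by omega) hc)
  have := (chain_app h hm hi hg (clean_base h hm i hi.le)).2.1 (ev m occ s0 + 2) (by omega) f2 hn2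
  rw [g2, Nat.add_sub_cancel, g0] at this
  exact ⟨_, this⟩

/-- A chain step of a negative round when the chain is clean before it. -/
theorem neg_step {l : ℕ → ℕ} (h : Side (NN m) (lam m occ) l) (hm : 0 < m) {i E c : ℕ}
    {g : ℕ → ℕ} (hi : i < 3 * m) (hg : EnumOK m occ i E c g)
    (hn : Clean (NN m) (lam m occ) l (NN m * (RR m + 1 + i) + (c - 1)))
    {s : ℕ} (hs : s < SS m) (hk : kind m occ s = 3) (h5 : s / KK m = 5 * i + 4) :
    ∃ D, ∀ y < NN m, l y = D ↔ y = KK m + 2 * s ∨ y = KK m + 2 * s + 1 := by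
  have hv : s / KK m / 5 = i := by rw [h5]; omega
  obtain ⟨f0, g0⟩ := hg.surj s hs hk hv
  have hc4 := hg.c4
  have hge : c ≤ ev m occ s := by
    by_contra hcon
    have := hg.pos (ev m occ s) (by omega)
    rw [g0] at this
    omega
  have hcl := clean_mono h hm hi hg (a := c - 1) (b := ev m occ s - 1) (by omega) (by omega)
    (by omega) hn
  have := ((chain_app h hm hi hg (clean_base h hm i hi.le)).1 (ev m occ s) (by omega) f0 hcl).2
  rw [g0] at this
  exact ⟨_, this⟩

theorem sound (hm : 0 < m) (occ : Bool → ℕ → ℕ → Bool) {l r : ℕ → ℕ}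
    (h : Config (NN m) (lam m occ) (rho m) l r) :
    ∃ τ : ℕ → Bool, ∀ j < m, ∃ i < 3 * m, occ (τ i) i j = true := by
  classical
  have hL : Side (NN m) (lam m occ) l := ⟨h.lam_le, h.covL, h.evenL⟩
  have hR : Side (NN m) (rho m) r := ⟨h.rho_le, h.covR, h.evenR⟩
  have hr := hR.right_forced
  have hen : ∀ i, ∃ E c g, i < 3 * m → EnumOK m occ i E c g := by
    intro i
    by_cases hi : i < 3 * m
    · obtain ⟨E, c, g, hg⟩ := exists_enum hm occ hi
      exact ⟨E, c, g, fun _ => hg⟩
    · exact ⟨0, 0, fun _ => 0, fun h => absurd h hi⟩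
  choose E c g hg using hen
  refine ⟨fun i => decide (Clean (NN m) (lam m occ) l (NN m * (RR m + 1 + i) + (c i - 1))), ?_⟩
  by_contra hcon
  push Not at hcon
  obtain ⟨j, hj, hun⟩ := hcon
  have hclosed : ∀ y < NN m, ∀ y' < NN m, (l y = l y' ∨ r y = r y') →
      y ∈ {y | InC m j (rr m y)} → y' ∈ {y | InC m j (rr m y)} := by
    intro y hy y' hy' he hc
    simp only [Set.mem_ofPred_eq] at hc ⊢
    rcases he with he | he
    swap
    · rw [hr y hy, hr y' hy'] at he
      rw [← he]; exact hc
    rcases lam_cases (occ := occ) hy with h3 | ⟨s, hs, hk, h4, h5⟩ | ⟨s, hs, hk, h4, h5⟩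
    · have e1 := hL.left_small y hy h3
      have e2 := hL.lam_le y' hy'
      have e3 := hL.left_small y' hy' (by omega)
      rcases small_class (occ := occ) hy hy' h3 (by omega) with e4 | e4
      · rw [e4]; exact hc
      · rw [e4]; exact small_inC hj hy h3 hc
    · exfalso
      have := inC_hub (occ := occ) hj hk
      rcases h4 with rfl | rfl
      · rw [rr_W hs] at hc; exact this.2 hc
      · rw [rr_T hs] at hc; exact this.1 hc
    · have hi := kind3_var hk hs
      have hgi := hg (s / KK m / 5) hi
      have hu := hun (s / KK m / 5) hi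
      have hrd := kind3_round hk
      have hb : s / 4 % (m + 2) = j + 1 := by
        rcases h4 with rfl | rfl
        · rw [rr_W hs, inC_add] at hc; exact hc.1
        · rw [rr_T hs] at hc; exact hc.1
      have hk' := hk
      rw [kind_inner hj hb] at hk'
      rcases hrd with hrd | hrd
      · -- positive round
        rw [if_neg (by omega), if_pos hrd] at hk'
        have ht3 : s % 4 ≠ 3 := by
          intro h3; rw [if_pos h3] at hk'; omega
        have ho : occ true (s / KK m / 5) j = true := by
          by_contra ho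
          rw [if_neg ht3, if_neg ho] at hk'; omega
        have hncl : ¬ Clean (NN m) (lam m occ) l
            (NN m * (RR m + 1 + s / KK m / 5) + (c (s / KK m / 5) - 1)) := by
          intro hcl
          apply hu
          rw [decide_eq_true hcl]
          exact ho
        have e0 : s / 4 * 4 / 4 = s / 4 := by omega
        have q0 : s / 4 * 4 / KK m = s / KK m := by rw [div_KK, e0, ← div_KK]
        have hS := SS_mod m
        obtain ⟨D, hD⟩ := pos_block hL hm hi hgi hncl (s0 := s / 4 * 4) (j := j) hj (by omega)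
          (by omega) (by rw [e0]; exact hb) (by rw [q0]; omega) ho
        have hy1 : y = KK m + 2 * (s / 4 * 4) ∨ y = KK m + 2 * (s / 4 * 4 + 2) + 1 := by
          rcases h4 with rfl | rfl
          · rw [rr_W hs, inC_add] at hc
            left; omega
          · rw [rr_T hs] at hc
            unfold InC at hc
            right; omega
        have hy2 := (hD y hy).2 hy1
        have hy3 := (hD y' hy').1 (by rw [← he]; exact hy2)
        rcases hy3 with hy3 | hy3
        · rw [hy3, rr_W (by omega), inC_add, e0, q0]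
          exact ⟨hb, Or.inr (Or.inl ⟨hrd, by omega⟩)⟩
        · rw [hy3, rr_T (by omega)]
          unfold InC
          have e2 : (s / 4 * 4 + 2) / 4 = s / 4 := by omega
          have q2 : (s / 4 * 4 + 2) / KK m = s / KK m := by rw [div_KK, e2, ← div_KK]
          rw [e2, q2]
          exact ⟨hb, Or.inr (Or.inr ⟨by omega, by omega⟩)⟩
      · -- negative round
        rw [if_neg (by omega), if_neg (by omega), if_neg (by omega)] at hk'
        have ht3 : s % 4 ≠ 3 := by
          intro h3; rw [if_pos h3] at hk'; omega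
        have ho : occ false (s / KK m / 5) j = true := by
          by_contra ho
          rw [if_neg ht3, if_neg ho] at hk'; omega
        have hcl : Clean (NN m) (lam m occ) l
            (NN m * (RR m + 1 + s / KK m / 5) + (c (s / KK m / 5) - 1)) := by
          by_contra hcl
          apply hu
          rw [decide_eq_false hcl]
          exact ho
        obtain ⟨D, hD⟩ := neg_step hL hm hi hgi hcl hs hk (by omega)
        have ht2 : s % 4 = 2 := by
          rcases h4 with rfl | rfl
          · rw [rr_W hs, inC_add] at hc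
            omega
          · rw [rr_T hs] at hc
            unfold InC at hc
            omega
        have hy2 := (hD y hy).2 h4
        have hy3 := (hD y' hy').1 (by rw [← he]; exact hy2)
        rcases hy3 with hy3 | hy3
        · rw [hy3, rr_W hs, inC_add]
          exact ⟨hb, Or.inr (Or.inr ⟨by omega, ht2⟩)⟩
        · rw [hy3, rr_T hs]
          exact ⟨hb, Or.inr (Or.inr ⟨by omega, ht2⟩)⟩
  have hKN : 2 * KK m + 1 < NN m := two_KK_lt hm
  have hK : KK m = 4 * (m + 2) := rfl
  have h0 := h.conn _ hclosed ⟨4 * (j + 1) + 2, by omega, by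
    simp only [Set.mem_ofPred_eq]
    rw [rr_init (by omega), inC_lt (by omega)]
    omega⟩ 0 (by omega)
  simp only [Set.mem_ofPred_eq] at h0
  rw [rr_init (KK_pos m), inC_lt (KK_pos m)] at h0
  omega

end Pool.Agent.Helper408_MT
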