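import Pool.Agent.Helper408_MT.Defs

/-!
# Turn data
-/

set_option autoImplicit false

namespace Pool.Agent.Helper408_MT

/-- The data that a tour of turn cost at most `k` gives: `t c` is the turn cost incurred at the
cell `c`. -/
structure TurnData (F : Finset (ℤ × ℤ)) (k : ℕ) (t : ℤ × ℤ → ℕ) : Prop where
  supp : ∀ c, c ∉ F → t c = 0
  sum_le : ∑ c ∈ F, t c ≤ k
  row : ∀ y : ℤ, Even (∑ c ∈ F.filter (fun c => c.2 = y), t c)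
  col : ∀ x : ℤ, Even (∑ c ∈ F.filter (fun c => c.1 = x), t c)
  cov : ∀ c ∈ F, t c ≠ 0 ∨
    (∃ a b : ℤ, a < c.1 ∧ c.1 < b ∧ t (a, c.2) ≠ 0 ∧ t (b, c.2) ≠ 0) ∨
    (∃ a b : ℤ, a < c.2 ∧ c.2 < b ∧ t (c.1, a) ≠ 0 ∧ t (c.1, b) ≠ 0)
  conn : ∀ A B : Set ℤ, (∀ c, t c ≠ 0 → (c.2 ∈ A ↔ c.1 ∈ B)) →
    (∃ c, t c ≠ 0 ∧ c.2 ∈ A) → ∀ c, t c ≠ 0 → c.2 ∈ A

end Pool.Agent.Helper408_MT
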